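import Pool.Agent.H41.UZ.TarI
import Pool.Agent.H41.UZ.TN

/-!
# MP_f6fd33_lc: the class of the L-stages is definable over the ground model (target)
-/

set_option linter.unusedVariables false

open Ordinal Order Set
open scoped ZFSet

namespace SE.UZ

open SF _root_.UZ

/-- IWd: the class of the L-stages is definable (with parameters) over the ground model -/
def T_IWd : Prop := ∀ (D : Cx) (κ : V) (b : BS), Amb D κ → b.Ok D κ →
  DN D.N (fun u => ∃ σ : Ordinal.{0}, u 0 = σ.toZFSet ∧ b.Ls D (b.Wd D) σ)

end SE.UZ
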