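import Pool.Agent.H5.UZ.FRd

/-! # MP_f6fd33_lc, module FRE: the sets of tasks are in the ground model -/

set_option linter.unusedVariables false

open Ordinal Order Set
open scoped ZFSet

namespace SE.UZ

open SF _root_.UZ FRdaux

/-- FRE -/
theorem pf_FRE (hL : Lb) : T_FRE := by
  intro D κ hA b hb B1 hB1
  have hD := hA.ok
  have hN := hD.zfm
  have v0 := TN.var (N := D.N) hN 0
  have v1 := TN.var (N := D.N) hN 1
  have v2 := TN.var (N := D.N) hN 2
  have hu0 : In D.N (fun _ => b.Ob) := fun _ => hb.nO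
  have hB1N : D.N B1 := hN.trans _ hb.nO _ hB1.1
  have hρ1 : D.N (b.u B1) := hD.nH (hb.cs _ hB1.1).h
  obtain ⟨S, hS, hS2⟩ := names hL hA hb
  obtain ⟨P, hP, hP2⟩ := poss hL hD hb
  have tB := TN.fst hN (TN.snd hN v0)
  refine ⟨?_, ?_⟩
  · -- `z = ((a, x), (B', r))`
    have ta := TN.fst hN (TN.fst hN v0)
    have tx := TN.snd hN (TN.fst hN v0)
    have tr := TN.snd hN (TN.snd hN v0)
    have hr := TN.bu hD hb tB
    have h1 : Dc D (fun w => fst (snd (w 0)) ∈ b.Ob) (fun w => b.u (fst (snd (w 0)))) (fun w G =>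
        snd (snd (w 0)) ∈ G → b.Ss D (fst (snd (w 0))) G (ev G (fst (fst (w 0))))
          (ev G (snd (fst (w 0))))) :=
      Dc.imp hL hD hr (Dc.mem hL hD hr (Et.gr tr) (Et.G hD)) (Dc.ss hL hD hb tB
        (Et.ev hL hD (Et.G hD) (Et.gr ta)) (Et.ev hL hD (Et.G hD) (Et.gr tx)))
    have h2 := Dc.dnG hL hD hr (DN.ob hD hb tB) h1
    have h3 := (dnNam hL hD (TN.cst hρ1) ta).and hN ((dnNam hL hD (TN.cst hρ1) tx).and hN
      ((dn_of hL hD hb tB).and hN ((DN.ble hD hb (TN.cst hB1N) tB).and hN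
        ((DN.mem hN tr (tnP hL hD hr)).and hN ((DN.eq hN v0 (TN.pair hN (TN.pair hN ta tx)
          (TN.pair hN tB tr))).and hN h2)))))
    have hM : D.N ((S.prod S).prod (b.Ob.prod P)) :=
      TN.mem hN (TN.prod hN (TN.prod hN (TN.cst hS) (TN.cst hS)) (TN.prod hN (TN.cst hb.nO)
        (TN.cst hP))) hu0
    refine ⟨_, h3.sepN hN hM hu0, fun z => ?_⟩
    rw [ZFSet.mem_sep]
    simp only [cons_zero]
    constructor
    · rintro ⟨h4, h5, h6, h7, h8, h9, h10, _, _, h13⟩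
      have hz := hN.trans _ hM _ h4
      refine ⟨fst (fst z), snd (fst z), fst (snd z), snd (snd z), ⟨?_, h5⟩, ⟨?_, h6⟩, h7, h8, h9,
        h10, h13⟩
      · exact TN.mem hN ta (u := fun _ => z) fun _ => hz
      · exact TN.mem hN tx (u := fun _ => z) fun _ => hz
    · rintro ⟨a, x, B', r, h5, h6, h7, h8, h9, rfl, h11⟩
      have hc : Cr D (fun w => b.u (fst (snd (w 0)))) (cons (ZFSet.pair (ZFSet.pair a x)
          (ZFSet.pair B' r)) fun _ => b.Ob) := by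
        unfold Cr
        simp only [cons_zero, fst_pair, snd_pair]
        exact cs_cr (hb.cs _ h7.1)
      simp only [fst_pair, snd_pair, true_and]
      refine ⟨?_, h5.2, h6.2, h7, h8, h9, hc, h7.1, h11⟩
      rw [ZFSet.pair_mem_prod, ZFSet.pair_mem_prod, ZFSet.pair_mem_prod]
      exact ⟨⟨hS2 _ hB1.1 _ h5.1 h5.2, hS2 _ hB1.1 _ h6.1 h6.2⟩, h7.1, hP2 _ h7.1 _ h9⟩
  · -- `z = (v, (B', ∅))`
    have tv := TN.fst hN v0
    have tB1 := tB.rn fun i => i + 1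
    have tv1 := tv.rn fun i => i + 1
    have tv2 := tv.rn fun i => i + 2
    have hr1 := TN.bu hD hb tB1
    have hr2 := TN.bu hD hb (tB.rn fun i => i + 2)
    have h1 : Dc D (fun w => fst (snd (w 1)) ∈ b.Ob) (fun w => b.u (fst (snd (w 1)))) (fun w G =>
        (∀ k, D.N k → (k ∈ b.u B1 ∧ kd k = nS (b.l + 1)) → ¬ ev G (fst (w 1)) = prm G k) →
          ev G (lZ (w 0)) = ev G (fst (w 1))) := by
      refine Dc.imp hL hD hr1 ?_ (Dc.eq hL hD hr1 (Et.ev hL hD (Et.G hD) (Et.gr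
        (TN.lZ hL hD v0))) (Et.ev hL hD (Et.G hD) (Et.gr tv1)))
      refine Dc.all (C' := fun _ => True) (r := fun w => b.u (fst (snd (w 1))))
        (S := fun w => w 0 ∈ b.u B1 ∧ kd (w 0) = nS (b.l + 1))
        (X := fun w G => ¬ ev G (fst (w 2)) = prm G (w 0)) hL hD hr1
        ((DN.mem hN v0 (TN.cst hρ1)).and hN (DN.eq hN (TN.kd hL hD v0) (TN.nS hN _))) ?_
        fun _ _ _ _ _ _ _ => trivial
      exact Dc.not hL hD hr2 (Dc.eq hL hD hr2 (Et.ev hL hD (Et.G hD) (Et.gr tv2))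
        (et_prm hL hD v0))
    have h2 := Dc.dnG hL hD hr1 (DN.ob hD hb tB1) h1
    have h2' := DN.bex (F := fun w => b.u (fst (snd (w 0)))) hN (TN.bu hD hb tB)
      ((DN.eq hN (TN.kd hL hD v0) (TN.nS hN b.l)).and hN h2)
    have h3 := (dnNam hL hD (TN.cst hρ1) tv).and hN
      ((dn_of hL hD hb tB).and hN ((DN.ble hD hb (TN.cst hB1N) tB).and hN
        ((DN.eq hN v0 (TN.pair hN tv (TN.pair hN tB (TN.empty hN)))).and hN h2')))
    have hM : D.N (S.prod (b.Ob.prod {∅})) :=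
      TN.mem hN (TN.prod hN (TN.cst hS) (TN.prod hN (TN.cst hb.nO)
        (TN.sing hN (TN.empty hN)))) hu0
    refine ⟨_, h3.sepN hN hM hu0, fun z => ?_⟩
    have key : ∀ B' v, b.Of D B' → ∀ i G, (((∀ k, D.N k → (k ∈ b.u B1 ∧ kd k = nS (b.l + 1)) →
        ¬ ev G v = prm G k) → ev G (lZ i) = ev G v) ↔
        ((∀ k ∈ b.u B1, kd k = nS (b.l + 1) → ev G v ≠ prm G k) → ev G (lZ i) = ev G v)) := by
      intro B' v _ i G
      exact imp_congr ⟨fun h k hk h5 => h k (hN.trans _ hρ1 _ hk) ⟨hk, h5⟩,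
        fun h k _ h5 => h k h5.1 h5.2⟩ Iff.rfl
    rw [ZFSet.mem_sep]
    simp only [cons_zero, cons_succ]
    constructor
    · rintro ⟨h4, h5, h6, h7, h8, i, hi, h9, h10, h11, h12⟩
      have hz := hN.trans _ hM _ h4
      refine ⟨fst z, fst (snd z), ⟨?_, h5⟩, h6, h7, h8, i, hi, h9, fun G hG =>
        (key _ _ h6 i G).1 (h12 G hG)⟩
      exact TN.mem hN tv (u := fun _ => z) fun _ => hz
    · rintro ⟨v, B', h5, h6, h7, rfl, i, hi, h9, h10⟩
      simp only [fst_pair, snd_pair, true_and]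
      refine ⟨?_, h5.2, h6, h7, i, hi, h9, ?_, h6.1, fun G hG => (key _ _ h6 i G).2 (h10 G hG)⟩
      · rw [ZFSet.pair_mem_prod, ZFSet.pair_mem_prod]
        exact ⟨hS2 _ hB1.1 _ h5.1 h5.2, h6.1, ZFSet.mem_singleton.2 rfl⟩
      · unfold Cr
        show b.u (fst (snd (ZFSet.pair v (ZFSet.pair B' ∅)))) ∈ D.H ∧
          Cld D.L (b.u (fst (snd (ZFSet.pair v (ZFSet.pair B' ∅)))))
        simp only [fst_pair, snd_pair]
        exact cs_cr (hb.cs _ h6.1)

end SE.UZ
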