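import Pool.Agent.H41.UZ.UF
import Pool.Agent.H45.UZ.TarF

/-! # MP_f6fd33_lc, module FRd: the classes of the free system are sets of the ground model -/

set_option linter.unusedVariables false

open Ordinal Order Set
open scoped ZFSet

namespace SE.UZ

open SF _root_.UZ

namespace FRdaux

variable {D : Cx} {κ : V} {b : BS} {C : (ℕ → V) → Prop} {r Bt Ct f g : (ℕ → V) → V}
  {A1 A2 : (ℕ → V) → V → V}

/-- the promise is a term -/
theorem et_prm (hL : Lb) (hD : D.Ok) (hf : TN D.N f) : Et D (fun w G => prm G (f w)) :=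
  Et.prl hL hD (Et.prl hL hD (Et.kc hL hD 1)
    (Et.ev hL hD (Et.G hD) (Et.gr (TN.lZ hL hD hf)))) (Et.cg hL hD (Et.gr hf))

/-- objects of the free system -/
theorem dn_of (hL : Lb) (hD : D.Ok) (hb : b.Ok D κ) (hf : TN D.N f) :
    DN D.N (fun u => b.Of D (f u)) := by
  have hN := hD.zfm
  have v0 := TN.var (N := D.N) hN 0
  have v1 := TN.var (N := D.N) hN 1
  have f1 := hf.rn fun i => i + 1
  have f2 := hf.rn fun i => i + 2
  have hr : TN D.N (fun w => b.u (f fun i => w (i + 2))) := TN.bu hD hb f2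
  have h1 : Dc D (fun w => (f fun i => w (i + 2)) ∈ b.Ob) (fun w => b.u (f fun i => w (i + 2)))
      (fun w G => ¬ ev G (lZ (w 1)) = prm G (w 0)) :=
    Dc.not hL hD hr (Dc.eq hL hD hr (Et.ev hL hD (Et.G hD) (Et.gr (TN.lZ hL hD v1)))
      (et_prm hL hD v0))
  have h2 := Dc.dnG hL hD hr (DN.ob hD hb f2) h1
  have h3 : DN D.N (fun w => ∀ k ∈ b.u (f fun i => w (i + 1)), kd (w 0) = nS b.l →
      kd k = nS (b.l + 1) → (Cr D (fun w => b.u (f fun i => w (i + 2))) (cons k w) ∧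
        (f fun i => w (i + 1)) ∈ b.Ob ∧ ∀ G, D.Gn (b.u (f fun i => w (i + 1))) G →
          ¬ ev G (lZ (w 0)) = prm G k)) := by
    refine DN.ball (F := fun w => b.u (f fun i => w (i + 1))) (S := fun w =>
      kd (w 1) = nS b.l → kd (w 0) = nS (b.l + 1) →
      (Cr D (fun w => b.u (f fun i => w (i + 2))) w ∧
        (f fun i => w (i + 2)) ∈ b.Ob ∧ ∀ G, D.Gn (b.u (f fun i => w (i + 2))) G →
          ¬ ev G (lZ (w 1)) = prm G (w 0))) hN (TN.bu hD hb f1) ?_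
    exact (DN.eq hN (TN.kd hL hD v1) (TN.nS hN _)).imp hN
      ((DN.eq hN (TN.kd hL hD v0) (TN.nS hN _)).imp hN h2)
  refine ((DN.ob hD hb hf).and hN (DN.ball (F := fun u => b.u (f u)) hN (TN.bu hD hb hf)
    h3)).congr fun u hu => ?_
  constructor
  · rintro ⟨h4, h5⟩
    exact ⟨h4, fun i hi k hk h6 h7 G hG => (h5 i hi k hk h6 h7).2.2 G hG⟩
  · rintro ⟨h4, h5⟩
    exact ⟨h4, fun i hi k hk h6 h7 => ⟨cs_cr (hb.cs _ h4), h4, fun G hG => h5 i hi k hk h6 h7 G hG⟩⟩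

/-- `Sf` is decided -/
theorem dc_sf (hL : Lb) (hD : D.Ok) (hb : b.Ok D κ) (hB : TN D.N Bt) (h1 : Et D A1)
    (h2 : Et D A2) : Dc D C (fun u => b.u (Bt u)) (fun u G => b.Sf D (Bt u) G (A1 u G) (A2 u G)) := by
  refine Dc.mono (C := fun _ => True) ?_ fun _ _ _ _ => trivial
  have hN := hD.zfm
  have v0 := TN.var (N := D.N) hN 0
  have B1 := hB.rn fun i => i + 1
  have hs := TN.bu hD hb B1
  have h3 : Dc D (fun w => b.Le (Bt fun i => w (i + 1)) (w 0)) (fun w => b.u (Bt fun i => w (i + 1)))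
      (fun w G => ∃ G', D.Gn (b.u (w 0)) G' ∧ gs G' (b.u (Bt fun i => w (i + 1))) = G ∧
        b.Ss D (w 0) G' (A1 (fun i => w (i + 1)) (gs G' (b.u (Bt fun i => w (i + 1)))))
          (A2 (fun i => w (i + 1)) (gs G' (b.u (Bt fun i => w (i + 1)))))) := by
    refine Dc.ext hL hD hs (TN.bu hD hb v0) (C' := fun _ => True) ?_
      fun w _ _ h2 => ⟨cs_cr (hb.cs _ (hb.leO _ _ h2).2.1), (hb.leO _ _ h2).2.2, trivial⟩
    exact Dc.ss hL hD hb v0 (Et.sub hL hD (h1.rn fun i => i + 1) hs)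
      (Et.sub hL hD (h2.rn fun i => i + 1) hs)
  have h4 : Dc D (fun _ => True) (fun u => b.u (Bt u)) (fun u G => ∃ B', D.N B' ∧
      (b.Of D B' ∧ b.Le (Bt u) B') ∧ ∃ G', D.Gn (b.u B') G' ∧ gs G' (b.u (Bt u)) = G ∧
        b.Ss D B' G' (A1 u (gs G' (b.u (Bt u)))) (A2 u (gs G' (b.u (Bt u))))) :=
    Dc.ex (C' := fun w => b.Le (Bt fun i => w (i + 1)) (w 0)) (r := fun u => b.u (Bt u))
      (X := fun w G => ∃ G', D.Gn (b.u (w 0)) G' ∧ gs G' (b.u (Bt fun i => w (i + 1))) = G ∧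
        b.Ss D (w 0) G' (A1 (fun i => w (i + 1)) (gs G' (b.u (Bt fun i => w (i + 1)))))
          (A2 (fun i => w (i + 1)) (gs G' (b.u (Bt fun i => w (i + 1))))))
      (S := fun w => b.Of D (w 0) ∧ b.Le (Bt fun i => w (i + 1)) (w 0)) hL hD
      ((dn_of hL hD hb v0).and hN (DN.ble hD hb B1 v0)) h3 fun u y _ _ _ _ h => h.2
  refine (h4.not hL hD (TN.bu hD hb hB)).cg fun u h5 h6 _ G hG => ?_
  refine not_congr ?_
  constructor
  · rintro ⟨B', _, ⟨h7, h8⟩, G', h9, h10, h11⟩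
    rw [h10] at h11
    exact ⟨B', G', h7, ⟨h8, h9, h10⟩, h11⟩
  · rintro ⟨B', G', h7, h8, h9⟩
    refine ⟨B', hN.trans _ hb.nO _ h7.1, ⟨h7, h8.le⟩, G', h8.g, h8.r, ?_⟩
    rw [h8.r]
    exact h9

/-- a bound for the names -/
theorem names (hL : Lb) (hA : Amb D κ) (hb : b.Ok D κ) :
    ∃ S, D.N S ∧ ∀ B ∈ b.Ob, ∀ Y, D.N Y → Nam D.L (b.u B) Y → Y ∈ S := by
  have hD := hA.ok
  have hN := hD.zfm
  have v0 := TN.var (N := D.N) hN 0
  have v1 := TN.var (N := D.N) hN 1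
  have v2 := TN.var (N := D.N) hN 2
  have h1 : DN D.N (fun w => ∀ Y, D.N Y → Nam D.L (b.u (w 1)) Y → Y ∈ w 0) :=
    DN.all (S := fun w => Nam D.L (b.u (w 2)) (w 0) → w 0 ∈ w 1)
      ((dnNam hL hD (TN.bu hD hb v2) v0).imp hN (DN.mem hN v0 v1))
  obtain ⟨A, hA1, hA2⟩ := exists_coll hN hb.nO (u := fun _ => b.Ob) (fun _ => hb.nO) h1 (by
    intro B hB
    have hc := hb.cs _ hB
    obtain ⟨S, hS, hS2⟩ := hA.nam _ hc.h hc.c
    exact ⟨S, hD.nH hS, fun Y hY h2 => (hS2 Y).2 ⟨hY, h2⟩⟩)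
  refine ⟨⋃₀ A, TN.mem hN (TN.sUnion hN (TN.cst hA1)) (u := fun _ => A) fun _ => hA1, ?_⟩
  intro B hB Y hY h2
  obtain ⟨y, hy, h3⟩ := hA2 B hB
  exact ZFSet.mem_sUnion.2 ⟨y, hy, h3 Y hY h2⟩

/-- a bound for the conditions -/
theorem poss (hL : Lb) (hD : D.Ok) (hb : b.Ok D κ) :
    ∃ P, D.N P ∧ ∀ B ∈ b.Ob, ∀ p ∈ Pos D.L (b.u B), p ∈ P := by
  have hN := hD.zfm
  have h1 : TN D.N (fun w : ℕ → V => Pos D.L (b.u (w 0))) :=
    tnP hL hD (TN.bu hD hb (TN.var hN 0))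
  refine ⟨⋃₀ (imS b.Ob fun B => Pos D.L (b.u B)), TN.mem hN (TN.iUn (F := fun _ => b.Ob) hN
    (TN.cst hb.nO) h1) (u := fun _ => b.Ob) fun _ => hb.nO, fun B hB p hp => ?_⟩
  exact ZFSet.mem_sUnion.2 ⟨_, mem_imS.2 ⟨B, hB, rfl⟩, hp⟩

/-- (f1) is definable -/
theorem dn_f1 (hL : Lb) (hD : D.Ok) (hb : b.Ok D κ) (hC : TN D.N Ct) (hB : TN D.N Bt) :
    DN D.N (fun u => b.Le (Ct u) (Bt u) ∧ b.F1 D (Ct u) (Bt u)) := by
  have hN := hD.zfm
  have hr := TN.bu hD hb hB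
  have hs := TN.bu hD hb hC
  have h1 : Dc D (fun u => b.Le (Ct u) (Bt u)) (fun u => b.u (Bt u)) (fun u G =>
      ∀ a, RR D (b.u (Ct u)) G a → ∀ x, RR D (b.u (Ct u)) G x →
        ¬ b.Sf D (Ct u) (gs G (b.u (Ct u))) a x → b.Ss D (Bt u) G a x) := by
    refine Dc.allR' (Z := fun u G a => ∀ x, RR D (b.u (Ct u)) G x →
        ¬ b.Sf D (Ct u) (gs G (b.u (Ct u))) a x → b.Ss D (Bt u) G a x) hL hD hr hs (fun ha => ?_)
      fun u _ _ h => ⟨(hb.cs _ (hb.leO _ _ h).1).c, (hb.leO _ _ h).2.2⟩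
    refine Dc.allR' (C := fun w => b.Le (Ct fun i => w (i + 1)) (Bt fun i => w (i + 1)))
      (r := fun w => b.u (Bt fun i => w (i + 1))) (s := fun w => b.u (Ct fun i => w (i + 1)))
      (Z := fun w G x => ¬ b.Sf D (Ct fun i => w (i + 1)) (gs G (b.u (Ct fun i => w (i + 1))))
        (evs G (b.u (Ct fun i => w (i + 1))) (w 0)) x →
          b.Ss D (Bt fun i => w (i + 1)) G (evs G (b.u (Ct fun i => w (i + 1))) (w 0)) x) hL hD
      (hr.rn fun i => i + 1) (hs.rn fun i => i + 1) (fun hx => ?_)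
      fun u _ _ h => ⟨(hb.cs _ (hb.leO _ _ h).1).c, (hb.leO _ _ h).2.2⟩
    have ha' := ha.rn fun i => i + 1
    have hr2 := hr.rn fun i => i + 2
    have hs2 := hs.rn fun i => i + 2
    refine Dc.imp hL hD hr2 (Dc.not hL hD hr2 ?_) (Dc.ss hL hD hb (hB.rn fun i => i + 2) ha' hx)
    have h2 : Dc D (fun _ => True) (fun w => b.u (Ct fun i => w (i + 2))) (fun w G =>
        b.Sf D (Ct fun i => w (i + 2)) G (evs G (b.u (Ct fun i => w (i + 2))) (w 1))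
          (evs G (b.u (Ct fun i => w (i + 2))) (w 0))) :=
      dc_sf hL hD hb (hC.rn fun i => i + 2) ha' hx
    refine (Dc.sub (r := fun w => b.u (Bt fun i => w (i + 2)))
      (C := fun w => b.Le (Ct fun i => w (i + 2)) (Bt fun i => w (i + 2))) hL hD hs2 h2
      fun u _ _ h => ⟨cs_cr (hb.cs _ (hb.leO _ _ h).1), (hb.leO _ _ h).2.2, trivial⟩).cg
      fun u _ _ _ G _ => ?_
    rw [evs_gs (fun _ h => h), evs_gs (fun _ h => h)]
  refine (Dc.dnG hL hD hr (DN.ble hD hb hC hB) h1).congr fun u hu => ?_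
  constructor
  · rintro ⟨_, h3, h4⟩
    exact ⟨h3, fun G hG a x ha hx => h4 G hG a ha x hx⟩
  · rintro ⟨h3, h4⟩
    exact ⟨cs_cr (hb.cs _ (hb.leO _ _ h3).2.1), h3, fun G hG a ha x hx => h4 G hG a x ha hx⟩

/-- (f2) is definable -/
theorem dn_f2 (hL : Lb) (hD : D.Ok) (hb : b.Ok D κ) (hC : TN D.N Ct) (hB : TN D.N Bt) :
    DN D.N (fun u => b.Le (Ct u) (Bt u) ∧ b.F2 D (Ct u) (Bt u)) := by
  have hN := hD.zfm
  have hr := TN.bu hD hb hB
  have hs := TN.bu hD hb hC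
  have v0 := TN.var (N := D.N) hN 0
  have h1 : Dc D (fun u => b.Le (Ct u) (Bt u)) (fun u => b.u (Bt u)) (fun u G =>
      ∀ v, RR D (b.u (Ct u)) G v → (∀ k, D.N k → (k ∈ b.u (Ct u) ∧ kd k = nS (b.l + 1)) →
        ¬ v = prm G k) → ∃ i, D.N i ∧ (i ∈ b.u (Bt u) ∧ kd i = nS b.l) ∧ ev G (lZ i) = v) := by
    refine Dc.allR' (Z := fun u G v => (∀ k, D.N k → (k ∈ b.u (Ct u) ∧ kd k = nS (b.l + 1)) →
        ¬ v = prm G k) → ∃ i, D.N i ∧ (i ∈ b.u (Bt u) ∧ kd i = nS b.l) ∧ ev G (lZ i) = v)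
      hL hD hr hs (fun hv => ?_)
      fun u _ _ h => ⟨(hb.cs _ (hb.leO _ _ h).1).c, (hb.leO _ _ h).2.2⟩
    have hr1 := hr.rn fun i => i + 1
    have hr2 := hr.rn fun i => i + 2
    have hs2 := hs.rn fun i => i + 2
    have hv2 := hv.rn fun i => i + 1
    refine Dc.imp hL hD hr1 ?_ ?_
    · refine Dc.all (C' := fun _ => True) (r := fun w => b.u (Bt fun i => w (i + 1)))
        (S := fun w => w 0 ∈ b.u (Ct fun i => w (i + 2)) ∧ kd (w 0) = nS (b.l + 1))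
        (X := fun w G => ¬ evs G (b.u (Ct fun i => w (i + 2))) (w 1) = prm G (w 0)) hL hD hr1
        ((DN.mem hN v0 hs2).and hN (DN.eq hN (TN.kd hL hD v0) (TN.nS hN _))) ?_
        fun _ _ _ _ _ _ _ => trivial
      exact Dc.not hL hD hr2 (Dc.eq hL hD hr2 hv2 (et_prm hL hD v0))
    · refine Dc.ex (C' := fun _ => True) (r := fun w => b.u (Bt fun i => w (i + 1)))
        (S := fun w => w 0 ∈ b.u (Bt fun i => w (i + 2)) ∧ kd (w 0) = nS b.l)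
        (X := fun w G => ev G (lZ (w 0)) = evs G (b.u (Ct fun i => w (i + 2))) (w 1)) hL hD
        ((DN.mem hN v0 hr2).and hN (DN.eq hN (TN.kd hL hD v0) (TN.nS hN _))) ?_
        fun _ _ _ _ _ _ _ => trivial
      exact Dc.eq hL hD hr2 (Et.ev hL hD (Et.G hD) (Et.gr (TN.lZ hL hD v0))) hv2
  refine (Dc.dnG hL hD hr (DN.ble hD hb hC hB) h1).congr fun u hu => ?_
  have key : b.Le (Ct u) (Bt u) → ∀ G v, ((∀ k, D.N k → (k ∈ b.u (Ct u) ∧
      kd k = nS (b.l + 1)) → ¬ v = prm G k) → ∃ i, D.N i ∧ (i ∈ b.u (Bt u) ∧ kd i = nS b.l) ∧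
        ev G (lZ i) = v) ↔ ((∀ k ∈ b.u (Ct u), kd k = nS (b.l + 1) → v ≠ prm G k) →
        ∃ i ∈ b.u (Bt u), kd i = nS b.l ∧ ev G (lZ i) = v) := by
    intro h2 G v
    have h3 := hD.nH (hb.cs _ (hb.leO _ _ h2).1).h
    have h4 := hD.nH (hb.cs _ (hb.leO _ _ h2).2.1).h
    refine imp_congr ⟨fun h k hk h5 => h k (hN.trans _ h3 _ hk) ⟨hk, h5⟩,
      fun h k _ h5 => h k h5.1 h5.2⟩ ⟨?_, ?_⟩
    · rintro ⟨i, _, ⟨h5, h6⟩, h7⟩
      exact ⟨i, h5, h6, h7⟩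
    · rintro ⟨i, h5, h6, h7⟩
      exact ⟨i, hN.trans _ h4 _ h5, ⟨h5, h6⟩, h7⟩
  constructor
  · rintro ⟨_, h3, h4⟩
    exact ⟨h3, fun G hG v hv => (key h3 G v).1 (h4 G hG v hv)⟩
  · rintro ⟨h3, h4⟩
    exact ⟨cs_cr (hb.cs _ (hb.leO _ _ h3).2.1), h3, fun G hG v hv => (key h3 G v).2 (h4 G hG v hv)⟩

end FRdaux

open FRdaux

/-- FRd -/
theorem pf_FRd (hL : Lb) : T_FRd := by
  intro D κ hA b hb
  have hD := hA.ok
  have hN := hD.zfm
  have v0 := TN.var (N := D.N) hN 0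
  have hu0 : In D.N (fun _ => b.Ob) := fun _ => hb.nO
  refine ⟨?_, ?_, ?_, ?_⟩
  · refine ⟨b.Ob.sep fun B => b.Of D B, (dn_of hL hD hb v0).sepN hN hb.nO hu0, fun B => ?_⟩
    rw [ZFSet.mem_sep]
    exact ⟨fun h => h.2, fun h => ⟨h.1, h⟩⟩
  · have t1 := TN.fst hN v0
    have t2 := TN.snd hN v0
    have h1 : DN D.N (fun w => b.Of D (fst (w 0)) ∧ b.Of D (snd (w 0)) ∧
        (b.Le (fst (w 0)) (snd (w 0)) ∧ b.F1 D (fst (w 0)) (snd (w 0))) ∧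
        (b.Le (fst (w 0)) (snd (w 0)) ∧ b.F2 D (fst (w 0)) (snd (w 0))) ∧
        w 0 = ZFSet.pair (fst (w 0)) (snd (w 0))) :=
      (dn_of hL hD hb t1).and hN ((dn_of hL hD hb t2).and hN ((dn_f1 hL hD hb t1 t2).and hN
        ((dn_f2 hL hD hb t1 t2).and hN (DN.eq hN v0 (TN.pair hN t1 t2)))))
    refine ⟨_, h1.sepN hN hb.nR hu0, fun z => ?_⟩
    rw [ZFSet.mem_sep]
    simp only [cons_zero]
    constructor
    · rintro ⟨h2, h3, h4, h5, h6, h7⟩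
      refine ⟨fst z, snd z, h3, h4, ?_, h5.2, h6.2, h7⟩
      unfold BS.Ri
      rw [← h7]
      exact h2
    · rintro ⟨C, B, h2, h3, h4, h5, h6, rfl⟩
      rw [fst_pair, snd_pair]
      have h7 := (hb.rc _ _ h4).1
      exact ⟨h4, h2, h3, ⟨h7, h5⟩, ⟨h7, h6⟩, rfl⟩
  · obtain ⟨S, hS, hS2⟩ := names hL hA hb
    obtain ⟨P, hP, hP2⟩ := poss hL hD hb
    -- `z = (B, (p, (a, x)))`
    have tB := TN.fst hN v0
    have tp := TN.fst hN (TN.snd hN v0)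
    have ta := TN.fst hN (TN.snd hN (TN.snd hN v0))
    have tx := TN.snd hN (TN.snd hN (TN.snd hN v0))
    have hr := TN.bu hD hb tB
    have h1 : Dc D (fun w => fst (w 0) ∈ b.Ob) (fun w => b.u (fst (w 0))) (fun w G =>
        fst (snd (w 0)) ∈ G → b.Sf D (fst (w 0)) G (ev G (fst (snd (snd (w 0)))))
          (ev G (snd (snd (snd (w 0)))))) :=
      Dc.imp hL hD hr (Dc.mem hL hD hr (Et.gr tp) (Et.G hD)) (dc_sf hL hD hb tB
        (Et.ev hL hD (Et.G hD) (Et.gr ta)) (Et.ev hL hD (Et.G hD) (Et.gr tx)))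
    have h2 := Dc.dnG hL hD hr (DN.ob hD hb tB) h1
    have h3 := (dn_of hL hD hb tB).and hN ((DN.mem hN tp (tnP hL hD hr)).and hN
      ((dnNam hL hD hr ta).and hN ((dnNam hL hD hr tx).and hN ((DN.eq hN v0
        (TN.pair hN tB (TN.pair hN tp (TN.pair hN ta tx)))).and hN h2))))
    have hM : D.N (b.Ob.prod (P.prod (S.prod S))) :=
      TN.mem hN (TN.prod hN (TN.cst hb.nO) (TN.prod hN (TN.cst hP) (TN.prod hN (TN.cst hS)
        (TN.cst hS)))) hu0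
    refine ⟨_, h3.sepN hN hM hu0, fun z => ?_⟩
    rw [ZFSet.mem_sep]
    simp only [cons_zero]
    constructor
    · rintro ⟨h4, h5, h6, h7, h8, h9, h10, h11, h12⟩
      have hz := hN.trans _ hM _ h4
      refine ⟨fst z, fst (snd z), fst (snd (snd z)), snd (snd (snd z)), h5, h6, ⟨?_, h7⟩, ⟨?_, h8⟩,
        h9, h12⟩
      · exact TN.mem hN ta (u := fun _ => z) fun _ => hz
      · exact TN.mem hN tx (u := fun _ => z) fun _ => hz
    · rintro ⟨B, p, a, x, h4, h5, h6, h7, rfl, h8⟩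
      have hc : Cr D (fun w => b.u (fst (w 0))) (cons (ZFSet.pair B (ZFSet.pair p
          (ZFSet.pair a x))) fun _ => b.Ob) := by
        unfold Cr
        simp only [cons_zero, fst_pair]
        exact cs_cr (hb.cs _ h4.1)
      simp only [fst_pair, snd_pair, true_and]
      refine ⟨?_, h4, h5, h6.2, h7.2, hc, h4.1, h8⟩
      rw [ZFSet.pair_mem_prod, ZFSet.pair_mem_prod, ZFSet.pair_mem_prod]
      exact ⟨h4.1, hP2 _ h4.1 _ h5, hS2 _ h4.1 _ h6.1 h6.2, hS2 _ h4.1 _ h7.1 h7.2⟩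
  · intro B hB a x ha _ hx _
    have hBN := hN.trans _ hb.nO _ hB.1
    have h1 : Dc D (fun _ => True) (fun _ : ℕ → V => b.u B) (fun w G =>
        b.Sf D B G (ev G a) (ev G x)) :=
      dc_sf (Bt := fun _ => B) hL hD hb (TN.cst hBN) (Et.ev hL hD (Et.G hD) (Et.gr (TN.cst ha)))
        (Et.ev hL hD (Et.G hD) (Et.gr (TN.cst hx)))
    exact Dc.dec hL hD (TN.bu hD hb (TN.cst hBN)) h1 (u := fun _ => b.Ob) hu0
      (cs_cr (hb.cs _ hB.1)) trivial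

end SE.UZ
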