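import Pool.Agent.H41.UZ.TarI
import Pool.Agent.H41.UZ.TR
import Pool.Agent.H45.UZ.TarP

/-! # MP_f6fd33_lc, module IL: the L-stages are cofinal (paper: section 5) -/

set_option linter.unusedVariables false

open Ordinal Order Set
open scoped ZFSet

namespace SE.UZ

open SF _root_.UZ

namespace ILaux

variable {N : V → Prop}

theorem dm_of {x y f : V} (h : ZFSet.IsFunc x y f) : dm f = x := by
  ext a
  rw [mem_dm]
  constructor
  · rintro ⟨b, hb⟩
    exact (ZFSet.pair_mem_prod.1 (h.1 hb)).1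
  · intro ha
    obtain ⟨b, hb, -⟩ := h.2 a ha
    exact ⟨b, hb⟩

/-- every set of a model of `ZFC` has a nonempty ordinal which is not an image -/
theorem cantor (hZ : ZFC N) {C : V} (hC : N C) :
    ∃ α : Ordinal.{0}, N α.toZFSet ∧ α.toZFSet.Nonempty ∧
      ∀ g, N g → ¬ Onto g C α.toZFSet := by
  have k : ZFm N := hZ.toZFCm.toZFm
  obtain ⟨α, f, hf, hon⟩ := hZ.wo (pwN N C) (pwN_mem hZ hC)
  have hE : (∅ : V) ∈ pwN N C := mem_pwN.2 ⟨ZFSet.empty_subset _, k.mempty⟩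
  refine ⟨α, ?_, ?_, ?_⟩
  · rw [← dm_of hon.1]
    exact TN.mem k (TN.dm k (TN.var k 0)) (u := fun _ => f) fun _ => hf
  · obtain ⟨a, ha, -⟩ := hon.2 _ hE
    exact ⟨a, ha⟩
  · intro g hg hgo
    have hD0 : N (C.sep fun u => ¬ u ∈ app f (app g u)) := by
      have h : DN N (fun u => ¬ u 0 ∈ app f (app g (u 0))) :=
        (DN.mem k (TN.var k 0) (TN.app k (TN.cst hf) (TN.app k (TN.cst hg) (TN.var k 0)))).not
      exact h.sepN k hC (u := fun _ => C) fun _ => hC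
    have hD : (C.sep fun u => ¬ u ∈ app f (app g u)) ∈ pwN N C :=
      mem_pwN.2 ⟨fun z hz => (ZFSet.mem_sep.1 hz).1, hD0⟩
    obtain ⟨a, ha, haD⟩ := hon.2 _ hD
    obtain ⟨u, hu, hua⟩ := hgo.2 a ha
    have e1 : app g u = a := app_eq (svl_of_isFunc hgo.1) hua
    have e2 : app f a = (C.sep fun u => ¬ u ∈ app f (app g u)) :=
      app_eq (svl_of_isFunc hon.1) haD
    have h3 : u ∈ (C.sep fun u => ¬ u ∈ app f (app g u)) ↔
        u ∈ C ∧ ¬ u ∈ app f (app g u) := ZFSet.mem_sep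
    rw [e1, e2] at h3
    tauto

/-- the stages above `s` are replaced by `s` -/
noncomputable def cap (s d : V) : V := sel (d ∈ s) d s

/-- the reduced history -/
noncomputable def red (s h : V) : V := imS h fun z => ZFSet.pair (fst z)
  (ZFSet.pair (fst (snd z)) (ZFSet.pair (fst (snd (snd z))) (cap s (snd (snd (snd z))))))

/-- the set of the reduced worlds of stage `x` -/
noncomputable def Rs (A s x : V) : V := imS (A.sep fun z => fst z = x) fun z =>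
  ZFSet.pair (fst (snd z)) (red s (snd (snd z)))

theorem tn_cap (k : ZFm N) {s : V} (hs : N s) : TN N (fun u => cap s (u 0)) :=
  TN.sel k (DN.mem k (TN.var k 0) (TN.cst hs)) (TN.var k 0) (TN.cst hs)

theorem tn_red (k : ZFm N) {s : V} (hs : N s) : TN N (fun u => red s (u 0)) := by
  have z0 : TN N (fun w => w 0) := TN.var k 0
  exact TN.image (F := fun u => u 0) (G := fun w => ZFSet.pair (fst (w 0))
    (ZFSet.pair (fst (snd (w 0))) (ZFSet.pair (fst (snd (snd (w 0))))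
      (cap s (snd (snd (snd (w 0)))))))) k z0
    (TN.pair k (TN.fst k z0) (TN.pair k (TN.fst k (TN.snd k z0))
      (TN.pair k (TN.fst k (TN.snd k (TN.snd k z0)))
        (TN.at1 k (tn_cap k hs) (TN.snd k (TN.snd k (TN.snd k z0)))))))

theorem tn_Rs (k : ZFm N) {A s : V} (hA : N A) (hs : N s) : TN N (fun u => Rs A s (u 0)) := by
  have z0 : TN N (fun w => w 0) := TN.var k 0
  have h1 : TN N (fun u => A.sep fun z => fst z = u 0) :=
    TN.sep (S := fun w => fst (w 0) = w 1) (F := fun _ => A) k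
      (DN.eq k (TN.fst k z0) (TN.var k 1)) (TN.cst hA)
  exact TN.image (G := fun w => ZFSet.pair (fst (snd (w 0))) (red s (snd (snd (w 0))))) k h1
    (TN.pair k (TN.fst k (TN.snd k z0)) (TN.at1 k (tn_red k hs) (TN.snd k (TN.snd k z0))))

theorem cap_lt {s e : Ordinal.{0}} (h : e < s) : cap s.toZFSet e.toZFSet = e.toZFSet :=
  sel_pos (toZFSet_mem_toZFSet_iff.2 h)

theorem cap_ge {s e : Ordinal.{0}} (h : s ≤ e) : cap s.toZFSet e.toZFSet = s.toZFSet :=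
  sel_neg fun h1 => absurd (toZFSet_mem_toZFSet_iff.1 h1) (not_lt.2 h)

theorem mem_red {D : Cx} {ρ h : V} {σ s : Ordinal.{0}} (hh : His D ρ h σ) {q X Y e : V} :
    ht q X Y e ∈ red s.toZFSet h ↔
      ∃ d : Ordinal.{0}, ht q X Y d.toZFSet ∈ h ∧ cap s.toZFSet d.toZFSet = e := by
  unfold red
  rw [mem_imS]
  constructor
  · rintro ⟨z, hz, h1⟩
    obtain ⟨q', hq', X', Y', d, hd, -, -, rfl⟩ := hh.m z hz
    unfold ht at h1 hz ⊢
    simp only [fst_pair, snd_pair] at h1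
    obtain ⟨e1, h1⟩ := ZFSet.pair_inj.1 h1
    obtain ⟨e2, h1⟩ := ZFSet.pair_inj.1 h1
    obtain ⟨e3, e4⟩ := ZFSet.pair_inj.1 h1
    subst e1 e2 e3
    exact ⟨d, hz, e4⟩
  · rintro ⟨d, hd, h1⟩
    refine ⟨_, hd, ?_⟩
    unfold ht
    simp only [fst_pair, snd_pair]
    rw [h1]

/-- the entries of a reduced history -/
theorem ent_red {D : Cx} {ρ h : V} {σ s : Ordinal.{0}} (hh : His D ρ h σ) (G X y : V) :
    (∀ c < s, (Ent (red s.toZFSet h) G X y c ↔ Ent h G X y c)) ∧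
    (Ent (red s.toZFSet h) G X y s ↔ ∃ d, s ≤ d ∧ Ent h G X y d) := by
  constructor
  · intro c hc
    unfold Ent
    refine exists_congr fun q => and_congr_right fun _ => exists_congr fun X' =>
      exists_congr fun Y' => ?_
    rw [mem_red hh]
    constructor
    · rintro ⟨⟨d, hd, h1⟩, h2⟩
      rcases lt_or_ge d s with h3 | h3
      · rw [cap_lt h3] at h1
        rw [Ordinal.toZFSet_injective h1] at hd
        exact ⟨hd, h2⟩
      · rw [cap_ge h3] at h1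
        exact absurd (Ordinal.toZFSet_injective h1) (ne_of_gt hc)
    · rintro ⟨hd, h2⟩
      exact ⟨⟨c, hd, cap_lt hc⟩, h2⟩
  · unfold Ent
    constructor
    · rintro ⟨q, hq, X', Y', h1, h2⟩
      obtain ⟨d, hd, h3⟩ := (mem_red hh).1 h1
      refine ⟨d, ?_, q, hq, X', Y', hd, h2⟩
      by_contra h4
      rw [cap_lt (not_le.1 h4)] at h3
      exact h4 (le_of_eq (Ordinal.toZFSet_injective h3).symm)
    · rintro ⟨d, hd, q, hq, X', Y', h1, h2⟩
      exact ⟨q, hq, X', Y', (mem_red hh).2 ⟨d, h1, cap_ge hd⟩, h2⟩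

section

variable {D : Cx} {κ : V} {b : BS} (ha : Amb D κ) (hb : b.Ok D κ) (hPWE : T_PWE)
  (hPHA : T_PHA) (hPW3 : T_PW3)

include ha hb hPWE hPHA hPW3

/-- worlds with the same reduced history have the same entries of the stages less than `e` -/
theorem same {σ e e' : Ordinal.{0}} (he : e ≤ e')
    (hR : ∀ c, σ ≤ c → c < e → ¬ b.Ls D (b.Wd D) c) {B h h' : V} (w : b.Wd D e B h)
    (w' : b.Wd D e' B h') (hr : red σ.toZFSet h = red σ.toZFSet h') (hN : D.N (b.u B))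
    (hC : Cld D.L (b.u B)) (hO : B ∈ b.Ob) (c : Ordinal.{0}) :
    c < e → ∀ G, D.Gn (b.u B) G → ∀ X y, (Ent h G X y c ↔ Ent h' G X y c) := by
  have i := (hPWE b D e B h).1 w
  have i' := (hPWE b D e' B h').1 w'
  induction c using WellFoundedLT.induction with
  | _ c ih =>
    intro hc G hG X y
    rcases lt_or_ge c σ with h1 | h1
    · rw [← (ent_red (s := σ) i.wo.hs G X y).1 c h1, ← (ent_red (s := σ) i'.wo.hs G X y).1 c h1,
        hr]
    · have p1 := hPHA D ha.ok _ _ h e hN hC hN hC (fun _ h => h) i.wo.hs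
      have p2 := hPHA D ha.ok _ _ h' e' hN hC hN hC (fun _ h => h) i'.wo.hs
      have hE : ∀ G, D.Gn (b.u B) G → ∀ X y d, (Ent (SE.UZ.hr h c) G X y d ↔
          Ent (SE.UZ.hr h' c) G X y d) := by
        intro G hG X y d
        rw [(p1.2.1 c).2.2.2.2 G X y d, (p2.2.1 c).2.2.2.2 G X y d]
        constructor
        · rintro ⟨h2, h3⟩
          exact ⟨(ih d h3 (h3.trans hc) G hG X y).1 h2, h3⟩
        · rintro ⟨h2, h3⟩
          exact ⟨(ih d h3 (h3.trans hc) G hG X y).2 h2, h3⟩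
      have p3 := (hPW3 D κ ha b hb c B _ _ hO (p1.2.1 c).2.1 (p2.2.1 c).2.1 hE).2.1
      have key : ∀ X, RR D (b.u B) G X → ((∃ y, Ent h G X y c) ↔ ∃ y, Ent h' G X y c) := by
        intro X hX
        rw [i.w2 c hc (hR c h1 hc) G hG X hX, i'.w2 c (hc.trans_le he) (hR c h1 hc) G hG X hX,
          (p3 G hG X).2.2]
        have h4 : Dcc (SE.UZ.hr h c) G X ↔ Dcc (SE.UZ.hr h' c) G X := by
          unfold Dcc
          exact exists_congr fun y => exists_congr fun d => hE G hG X y d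
        rw [h4]
      have h6 : ∀ X y, (∃ d, σ ≤ d ∧ Ent h G X y d) ↔ ∃ d, σ ≤ d ∧ Ent h' G X y d := by
        intro X y
        rw [← (ent_red (s := σ) i.wo.hs G X y).2, ← (ent_red (s := σ) i'.wo.hs G X y).2, hr]
      constructor
      · intro h2
        have hX := (((p1.1 G hG).1 X y c).2 h2).1
        obtain ⟨y', hy'⟩ := (key X hX).1 ⟨y, h2⟩
        obtain ⟨d, _, h7⟩ := (h6 X y).1 ⟨c, h1, h2⟩
        obtain ⟨e1, e2⟩ := i'.wo.f G hG X y y' d c h7 hy'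
        rwa [e2] at h7
      · intro h2
        have hX := (((p2.1 G hG).1 X y c).2 h2).1
        obtain ⟨y', hy'⟩ := (key X hX).2 ⟨y, h2⟩
        obtain ⟨d, _, h7⟩ := (h6 X y).2 ⟨c, h1, h2⟩
        obtain ⟨e1, e2⟩ := i.wo.f G hG X y y' d c h7 hy'
        rwa [e2] at h7

/-- the reduced histories are different -/
theorem diff {σ e e' : Ordinal.{0}} (hs : σ ≤ e) (he : e < e')
    (hR : ∀ c, σ ≤ c → c ≤ e → ¬ b.Ls D (b.Wd D) c) {B h h' : V} (w : b.Wd D e B h)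
    (w' : b.Wd D e' B h') (hN : D.N (b.u B))
    (hC : Cld D.L (b.u B)) (hO : B ∈ b.Ob) {G X : V} (hG : D.Gn (b.u B) G)
    (hX : RR D (b.u B) G X) (hd : ¬ Dcc h G X) (hg : b.Rg D (b.Wd D) e B h G X) :
    red σ.toZFSet h ≠ red σ.toZFSet h' := by
  intro hr
  have i := (hPWE b D e B h).1 w
  have i' := (hPWE b D e' B h').1 w'
  have p1 := hPHA D ha.ok _ _ h e hN hC hN hC (fun _ h => h) i.wo.hs
  have p2 := hPHA D ha.ok _ _ h' e' hN hC hN hC (fun _ h => h) i'.wo.hs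
  have hsame := same ha hb hPWE hPHA hPW3 he.le (fun c h1 h2 => hR c h1 h2.le) w w' hr hN hC hO
  have hE : ∀ G, D.Gn (b.u B) G → ∀ X y d, (Ent h G X y d ↔ Ent (SE.UZ.hr h' e) G X y d) := by
    intro G hG X y d
    rw [(p2.2.1 e).2.2.2.2 G X y d]
    constructor
    · intro h2
      have h3 := (((p1.1 G hG).1 X y d).2 h2).2.2.1
      exact ⟨(hsame d h3 G hG X y).1 h2, h3⟩
    · rintro ⟨h2, h3⟩
      exact (hsame d h3 G hG X y).2 h2
  have p3 := (hPW3 D κ ha b hb e B _ _ hO i.wo.hs (p2.2.1 e).2.1 hE).2.1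
  have h4 : Dcc h G X ↔ Dcc (SE.UZ.hr h' e) G X := by
    unfold Dcc
    exact exists_congr fun y => exists_congr fun d => hE G hG X y d
  obtain ⟨y, hy⟩ := (i'.w2 e he (hR e hs le_rfl) G hG X hX).2
    ⟨fun h5 => hd (h4.2 h5), ((p3 G hG X).2.2).1 hg⟩
  have h6 := (ent_red (s := σ) i'.wo.hs G X y).2.2 ⟨e, hs, hy⟩
  rw [← hr] at h6
  obtain ⟨d, _, h7⟩ := (ent_red (s := σ) i.wo.hs G X y).2.1 h6
  exact hd ⟨y, d, h7⟩

end

end ILaux

open ILaux

/-- IL -/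
theorem pf_IL (hIW : T_IW) (hPWE : T_PWE) (hPHA : T_PHA) (hPW3 : T_PW3) (hBR : T_BR) : T_IL := by
  intro D κ b ha hb σ hσ
  by_contra hcon
  have hno : ∀ e, σ ≤ e → D.N e.toZFSet → ¬ b.Ls D (b.Wd D) e := fun e h1 h2 h3 =>
    hcon ⟨e, h1, h2, h3⟩
  have hZ : ZFC D.N := ha.ok.zfc
  have k : ZFm D.N := hZ.toZFCm.toZFm
  obtain ⟨-, -, -, -, hH, -⟩ := hBR D ha.ok
  have hHN : D.N D.H := ha.ok.hN
  have hsu : D.N (insert σ.toZFSet σ.toZFSet) :=
    TN.mem k (TN.ins k (TN.var k 0) (TN.var k 0)) (u := fun _ => σ.toZFSet) fun _ => hσ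
  have hprod : ∀ {x y : V}, D.N x → D.N y → D.N (ZFSet.prod x y) := by
    intro x y hx hy
    exact TN.mem k (TN.prod k (TN.cst hx) (TN.cst hy)) (u := fun _ => x) fun _ => hx
  have hT0 : D.N (ZFSet.prod D.H (ZFSet.prod D.H (ZFSet.prod D.H
      (insert σ.toZFSet σ.toZFSet)))) := hprod hHN (hprod hHN (hprod hHN hsu))
  have hPT : D.N (pwN D.N (ZFSet.prod b.Ob (pwN D.N (ZFSet.prod D.H (ZFSet.prod D.H
      (ZFSet.prod D.H (insert σ.toZFSet σ.toZFSet))))))) :=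
    pwN_mem hZ (hprod hb.nO (pwN_mem hZ hT0))
  obtain ⟨θ, hθ, hθ0, hθf⟩ := cantor hZ (hprod hPT hsu)
  obtain ⟨⟨A, hA, hAm⟩, -⟩ := hIW D κ b ha hb θ hθ
  have htr : ∀ e < θ, D.N e.toZFSet := fun e he =>
    k.trans _ hθ _ (toZFSet_mem_toZFSet_iff.2 he)
  -- elements of `Rs`
  have hRs : ∀ e < θ, ∀ B k', ZFSet.pair B k' ∈ Rs A σ.toZFSet e.toZFSet ↔
      ∃ h, b.Wd D e B h ∧ k' = red σ.toZFSet h := by
    intro e he B k'
    unfold Rs
    rw [mem_imS]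
    constructor
    · rintro ⟨z, hz, h1⟩
      obtain ⟨hz, h2⟩ := ZFSet.mem_sep.1 hz
      obtain ⟨e', he', B', h', h3, rfl⟩ := (hAm z).1 hz
      rw [fst_pair] at h2
      rw [snd_pair, fst_pair, snd_pair] at h1
      obtain ⟨h4, h5⟩ := ZFSet.pair_inj.1 h1
      have h6 := Ordinal.toZFSet_injective h2
      subst h6
      subst h4
      exact ⟨h', h3, h5.symm⟩
    · rintro ⟨h, h1, rfl⟩
      refine ⟨ZFSet.pair e.toZFSet (ZFSet.pair B h), ZFSet.mem_sep.2 ⟨(hAm _).2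
        ⟨e, he, B, h, h1, rfl⟩, by rw [fst_pair]⟩, ?_⟩
      rw [snd_pair, fst_pair, snd_pair]
  have hRsN : ∀ e < θ, D.N (Rs A σ.toZFSet e.toZFSet) := fun e he =>
    TN.mem k (tn_Rs k hA hσ) (u := fun _ => e.toZFSet) fun _ => htr e he
  have hRsP : ∀ e < θ, Rs A σ.toZFSet e.toZFSet ∈ pwN D.N (ZFSet.prod b.Ob (pwN D.N
      (ZFSet.prod D.H (ZFSet.prod D.H (ZFSet.prod D.H (insert σ.toZFSet σ.toZFSet)))))) := by
    intro e he
    refine mem_pwN.2 ⟨?_, hRsN e he⟩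
    intro z hz
    have hz' := hz
    unfold Rs at hz'
    obtain ⟨z', _, rfl⟩ := mem_imS.1 hz'
    obtain ⟨h, h1, h2⟩ := (hRs e he _ _).1 hz
    have i := (hPWE b D e _ h).1 h1
    refine ZFSet.pair_mem_prod.2 ⟨i.wo.o.o, ?_⟩
    rw [h2]
    have hhN : D.N h := i.wo.hs.n
    refine mem_pwN.2 ⟨?_, TN.mem k (tn_red k hσ) (u := fun _ => h) fun _ => hhN⟩
    intro w hw
    unfold red at hw
    obtain ⟨w', hw', rfl⟩ := mem_imS.1 hw
    obtain ⟨q, hq, X, Y, d, hd, hX, hY, rfl⟩ := i.wo.hs.m w' hw'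
    obtain ⟨-, -, h3, -, h4⟩ := hH _ (hb.cs _ i.wo.o.o).h
    unfold ht
    simp only [fst_pair, snd_pair]
    refine ZFSet.pair_mem_prod.2 ⟨h3 q hq, ZFSet.pair_mem_prod.2 ⟨h4 X hX.1 hX.2,
      ZFSet.pair_mem_prod.2 ⟨h4 Y hY.1 hY.2, ?_⟩⟩⟩
    rcases lt_or_ge d σ with h5 | h5
    · rw [cap_lt h5]
      exact ZFSet.mem_insert_of_mem _ (toZFSet_mem_toZFSet_iff.2 h5)
    · rw [cap_ge h5]
      exact ZFSet.mem_insert _ _
  -- injectivity
  have hne : ∀ e e', σ ≤ e → e < e' → e' < θ →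
      Rs A σ.toZFSet e.toZFSet ≠ Rs A σ.toZFSet e'.toZFSet := by
    intro e e' h1 h2 h3 h4
    have h5 := hno e h1 (htr e (h2.trans h3))
    unfold BS.Ls at h5
    push Not at h5
    obtain ⟨B, h, w, G, hG, X, hX, hd, hg⟩ := h5
    have h6 := (hRs e (h2.trans h3) B _).2 ⟨h, w, rfl⟩
    rw [h4] at h6
    obtain ⟨h', w', h7⟩ := (hRs e' h3 B _).1 h6
    have i := (hPWE b D e B h).1 w
    have cs := hb.cs B i.wo.o.o
    exact diff ha hb hPWE hPHA hPW3 h1 h2 (fun c h8 h9 => hno c h8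
      (htr c (h9.trans_lt (h2.trans h3)))) w w' (k.trans _ hHN _ cs.h) cs.c i.wo.o.o hG hX hd hg h7
  have hinj : ∀ e e', σ ≤ e → σ ≤ e' → e < θ → e' < θ →
      Rs A σ.toZFSet e.toZFSet = Rs A σ.toZFSet e'.toZFSet → e = e' := by
    intro e e' h1 h2 h3 h4 h5
    rcases lt_trichotomy e e' with h6 | h6 | h6
    · exact absurd h5 (hne e e' h1 h6 h4)
    · exact h6
    · exact absurd h5.symm (hne e' e h2 h6 h3)
  -- the function onto `θ`
  have hgN : D.N (resS (ZFSet.prod (pwN D.N (ZFSet.prod b.Ob (pwN D.N (ZFSet.prod D.H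
      (ZFSet.prod D.H (ZFSet.prod D.H (insert σ.toZFSet σ.toZFSet)))))))
      (insert σ.toZFSet σ.toZFSet)) fun z => sel (snd z ∈ σ.toZFSet ∧ snd z ∈ θ.toZFSet) (snd z)
        (⋃₀ (θ.toZFSet.sep fun e => σ.toZFSet ⊆ e ∧ Rs A σ.toZFSet e = fst z) : ZFSet)) := by
    have z0 : TN D.N (fun w => w 0) := TN.var k 0
    have h1 : TN D.N (fun w => θ.toZFSet.sep fun e => σ.toZFSet ⊆ e ∧
        Rs A σ.toZFSet e = fst (w 0)) :=
      TN.sep (S := fun w => σ.toZFSet ⊆ w 0 ∧ Rs A σ.toZFSet (w 0) = fst (w 1))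
        (F := fun _ => θ.toZFSet) k
        ((DN.subset k (TN.cst hσ) z0).and k (DN.eq k (tn_Rs k hA hσ) (TN.fst k (TN.var k 1))))
        (TN.cst hθ)
    have h2 := TN.resS (F := fun _ => ZFSet.prod (pwN D.N (ZFSet.prod b.Ob (pwN D.N
      (ZFSet.prod D.H (ZFSet.prod D.H (ZFSet.prod D.H (insert σ.toZFSet σ.toZFSet)))))))
      (insert σ.toZFSet σ.toZFSet)) (G := fun w => sel (snd (w 0) ∈ σ.toZFSet ∧
        snd (w 0) ∈ θ.toZFSet) (snd (w 0)) (⋃₀ (θ.toZFSet.sep fun e => σ.toZFSet ⊆ e ∧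
          Rs A σ.toZFSet e = fst (w 0)) : ZFSet)) k (TN.cst (hprod hPT hsu))
      (TN.sel k ((DN.mem k (TN.snd k z0) (TN.cst hσ)).and k (DN.mem k (TN.snd k z0) (TN.cst hθ)))
        (TN.snd k z0) (TN.sUnion k h1))
    exact TN.mem k h2 (u := fun _ => θ.toZFSet) fun _ => hθ
  refine hθf _ hgN ⟨isFunc_resS _ _ _ ?_, ?_⟩
  · intro z hz
    by_cases h1 : snd z ∈ σ.toZFSet ∧ snd z ∈ θ.toZFSet
    · rw [sel_pos h1]
      exact h1.2
    · rw [sel_neg h1]
      by_cases h2 : ∃ e ∈ θ.toZFSet, σ.toZFSet ⊆ e ∧ Rs A σ.toZFSet e = fst z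
      · obtain ⟨e, he, h3, h4⟩ := h2
        have h5 : (⋃₀ (θ.toZFSet.sep fun e => σ.toZFSet ⊆ e ∧ Rs A σ.toZFSet e = fst z) : ZFSet)
            = e := by
          have h6 : (θ.toZFSet.sep fun e => σ.toZFSet ⊆ e ∧ Rs A σ.toZFSet e = fst z) = {e} := by
            ext x
            rw [ZFSet.mem_sep, ZFSet.mem_singleton]
            constructor
            · rintro ⟨hx, h7, h8⟩
              obtain ⟨ξ, hξ, rfl⟩ := Ordinal.mem_toZFSet_iff.1 hx
              obtain ⟨ε, hε, rfl⟩ := Ordinal.mem_toZFSet_iff.1 he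
              rw [hinj ξ ε (Ordinal.toZFSet_subset_toZFSet_iff.1 h7)
                (Ordinal.toZFSet_subset_toZFSet_iff.1 h3) hξ hε (h8.trans h4.symm)]
            · rintro rfl
              exact ⟨he, h3, h4⟩
          rw [h6]
          exact ZFSet.sUnion_singleton
        rw [h5]
        exact he
      · have h6 : (θ.toZFSet.sep fun e => σ.toZFSet ⊆ e ∧ Rs A σ.toZFSet e = fst z) = ∅ := by
          rw [ZFSet.eq_empty]
          intro x hx
          obtain ⟨hx, h7⟩ := ZFSet.mem_sep.1 hx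
          exact h2 ⟨x, hx, h7⟩
        rw [h6, ZFSet.sUnion_empty]
        obtain ⟨x, hx⟩ := hθ0
        obtain ⟨ξ, hξ, rfl⟩ := Ordinal.mem_toZFSet_iff.1 hx
        have h7 : (0 : Ordinal.{0}) < θ := lt_of_le_of_lt zero_le hξ
        have h8 := toZFSet_mem_toZFSet_iff.2 h7
        rwa [Ordinal.toZFSet_zero] at h8
  · intro x hx
    obtain ⟨e, he, rfl⟩ := Ordinal.mem_toZFSet_iff.1 hx
    rcases lt_or_ge e σ with h1 | h1
    · refine ⟨ZFSet.pair ∅ e.toZFSet, ZFSet.pair_mem_prod.2 ⟨mem_pwN.2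
        ⟨ZFSet.empty_subset _, k.mempty⟩, ZFSet.mem_insert_of_mem _
          (toZFSet_mem_toZFSet_iff.2 h1)⟩, pair_mem_resS.2 ⟨ZFSet.pair_mem_prod.2 ⟨mem_pwN.2
        ⟨ZFSet.empty_subset _, k.mempty⟩, ZFSet.mem_insert_of_mem _
          (toZFSet_mem_toZFSet_iff.2 h1)⟩, ?_⟩⟩
      rw [snd_pair, sel_pos ⟨toZFSet_mem_toZFSet_iff.2 h1, hx⟩]
    · have h2 : ZFSet.pair (Rs A σ.toZFSet e.toZFSet) σ.toZFSet ∈ ZFSet.prod (pwN D.N
          (ZFSet.prod b.Ob (pwN D.N (ZFSet.prod D.H (ZFSet.prod D.H (ZFSet.prod D.H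
            (insert σ.toZFSet σ.toZFSet))))))) (insert σ.toZFSet σ.toZFSet) :=
        ZFSet.pair_mem_prod.2 ⟨hRsP e he, ZFSet.mem_insert _ _⟩
      refine ⟨_, h2, pair_mem_resS.2 ⟨h2, ?_⟩⟩
      rw [snd_pair, fst_pair, sel_neg fun h3 => absurd (toZFSet_mem_toZFSet_iff.1 h3.1)
        (lt_irrefl _)]
      have h6 : (θ.toZFSet.sep fun e' => σ.toZFSet ⊆ e' ∧
          Rs A σ.toZFSet e' = Rs A σ.toZFSet e.toZFSet) = {e.toZFSet} := by
        ext x
        rw [ZFSet.mem_sep, ZFSet.mem_singleton]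
        constructor
        · rintro ⟨hx, h7, h8⟩
          obtain ⟨ξ, hξ, rfl⟩ := Ordinal.mem_toZFSet_iff.1 hx
          rw [hinj ξ e (Ordinal.toZFSet_subset_toZFSet_iff.1 h7) h1 hξ he h8]
        · rintro rfl
          exact ⟨hx, Ordinal.toZFSet_subset_toZFSet_iff.2 h1, rfl⟩
      rw [h6]
      exact ZFSet.sUnion_singleton.symm

end SE.UZ
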