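import Pool.Agent.H45.UZ.TarA

/-! # MP_f6fd33_lc, module QI1i: the identity isomorphism -/

set_option linter.unusedVariables false

open Ordinal Order Set
open scoped ZFSet

namespace SE.UZ

open SF

/-- QI1i -/
theorem pf_QI1i (hTBa : T_TBa) (hTBc : T_TBc) (hBC : T_BC) (hBD : T_BD) (hBJ : T_BJ) :
    T_QI1i := by
  intro D ok l S ρ hSl hcs hvw
  obtain ⟨-, -, hHN, -, hG⟩ := hBJ D ok
  have hpos := hBC.2.2.2.1
  obtain ⟨h0, -⟩ := hBD
  obtain ⟨-, him, -, -, hid, hlast⟩ := hTBa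
  obtain ⟨hI, hinj, hfn⟩ := hlast ρ
  obtain ⟨i1, i2, i3, i4⟩ := hTBc D ok ρ hcs.h hcs.c ∅ (h0 D.L ρ)
  have hsub : ∀ u, u ⊆ ρ → im (idm ρ) u = u := fun u hu =>
    (hid (idm ρ) u fun i hi => hI i (hu hi)).1
  refine ⟨⟨i1, i2, hcs, hcs, ?_, ?_⟩, ?_, ?_, ?_⟩
  · intro i hi e _ _
    rw [hI i hi]
  · intro i hi e hS hk
    rw [hI i hi]
    exact ⟨hvw i hi e hS hk, (hsub _ (hvw i hi e hS hk)).symm, rfl⟩
  · ext z
    unfold inv idm
    rw [mem_imS]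
    constructor
    · rintro ⟨w, hw, rfl⟩
      unfold resS at hw ⊢
      obtain ⟨x, hx, rfl⟩ := mem_imS.1 hw
      rw [fst_pair, snd_pair]
      exact mem_imS.2 ⟨x, hx, rfl⟩
    · intro hz
      unfold resS at hz ⊢
      obtain ⟨x, hx, rfl⟩ := mem_imS.1 hz
      exact ⟨_, mem_imS.2 ⟨x, hx, rfl⟩, by rw [fst_pair, snd_pair]⟩
  · intro G hGn
    have h := ((hG ρ (hHN ρ hcs.h) hcs.c).2 G hGn).2.1.2.1
    exact i4 G hGn h
  · intro Y hY hN
    have key : ∀ z ∈ Y, ZFSet.pair (mv (idm ρ) (fst z)) (snd z) = z := by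
      intro z hz
      obtain ⟨q, hq, b, hb, rfl⟩ := hN.sub z hz
      have h := (hpos D.L ρ q).1 hq
      rw [fst_pair, snd_pair, (hid (idm ρ) ρ hI).2 q h.1 h.2.1]
    ext z
    unfold mvn
    rw [mem_imS]
    constructor
    · rintro ⟨w, hw, rfl⟩
      rw [key w hw]
      exact hw
    · intro hz
      exact ⟨z, hz, key z hz⟩

end SE.UZ
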