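import Pool.Agent.H45.UZ.TarA

/-! # MP_f6fd33_lc, module QI4d: definability of labels and copies -/

set_option linter.unusedVariables false

open Ordinal Order Set
open scoped ZFSet

namespace SE.UZ

open SF

namespace QI4daux

section ta

variable {a b c d e f g : (V → Prop) → (ℕ → V) → V}

theorem at7 {F : V → V → V → V → V → V → V → V}
    (hF : Tm ZFm (fun _ v => F (v 0) (v 1) (v 2) (v 3) (v 4) (v 5) (v 6)))
    (ha : Tm ZFm a) (hb : Tm ZFm b) (hc : Tm ZFm c) (hd : Tm ZFm d) (he : Tm ZFm e)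
    (hf : Tm ZFm f) (hg : Tm ZFm g) :
    Tm ZFm (fun M v => F (a M v) (b M v) (c M v) (d M v) (e M v) (f M v) (g M v)) :=
  hF.comp (args [a, b, c, d, e, f, g]) (tm_args _ (by
    intro x hx; simp only [List.mem_cons, List.not_mem_nil, or_false] at hx
    rcases hx with rfl | rfl | rfl | rfl | rfl | rfl | rfl <;> assumption))

theorem dfb_kct (l : ℕ) (hf : Tm ZFm f) :
    Dfb ZFm (fun M v => ∃ n : ℕ, 3 ≤ n ∧ n ≤ l ∧ f M v = nS n) := by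
  induction l with
  | zero =>
    refine Dfb.fls.congr fun M k v hv => ?_
    constructor
    · exact False.elim
    · rintro ⟨n, h1, h2, -⟩
      omega
  | succ l ih =>
    by_cases h : 3 ≤ l + 1
    · refine (ih.or (Dfb.eq hf (Tm.nS (l + 1)))).congr fun M k v hv => ?_
      constructor
      · rintro (⟨n, h1, h2, h3⟩ | h3)
        · exact ⟨n, h1, by omega, h3⟩
        · exact ⟨l + 1, h, le_rfl, h3⟩
      · rintro ⟨n, h1, h2, h3⟩
        rcases Nat.lt_or_ge n (l + 1) with h4 | h4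
        · exact Or.inl ⟨n, h1, by omega, h3⟩
        · obtain rfl : n = l + 1 := by omega
          exact Or.inr h3
    · refine Dfb.fls.congr fun M k v hv => ?_
      constructor
      · exact False.elim
      · rintro ⟨n, h1, h2, -⟩
        omega

end ta

theorem tm_kd (hBBa : T_BBa) : Tm ZFm (fun _ v => kd (v 0)) :=
  Tm.fst hBBa.2.2.2.1

theorem tm_tg (hBBa : T_BBa) : Tm ZFm (fun _ v => tg (v 0)) :=
  Tm.fst (Tm.snd hBBa.2.2.2.1)

theorem tm_tm (hBBa : T_BBa) : Tm ZFm (fun _ v => tm (v 0)) :=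
  Tm.fst (Tm.snd (Tm.snd hBBa.2.2.2.1))

theorem tm_vw (hBBa : T_BBa) : Tm ZFm (fun _ v => vw (v 0)) :=
  Tm.snd (Tm.snd (Tm.snd hBBa.2.2.2.1))

theorem tm_mvn (hBBc : T_BBc) : Tm ZFm (fun _ v => mvn (v 0) (v 1)) := by
  obtain ⟨-, -, hmv, -⟩ := hBBc
  exact Tm.image (g := fun _ v => ZFSet.pair (mv (v 1) (fst (v 0))) (snd (v 0))) (Tm.var 1)
    (Tm.pair (Tm.at2 (F := fun _ x y => mv x y) hmv (Tm.var 1) (Tm.fst (Tm.var 0)))
      (Tm.snd (Tm.var 0)))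

theorem tm_mk (hBBa : T_BBa) (hBBc : T_BBc) :
    Tm ZFm (fun _ v => mk (v 0) (v 1) (v 2) (v 3) (v 4) (v 5) (v 6)) := by
  obtain ⟨-, -, -, -, -, -, -, -, -, hlab, -⟩ := hBBa
  obtain ⟨-, -, -, -, -, -, -, hknm, -⟩ := hBBc
  have v (i : ℕ) : Tm ZFm (fun _ v => v i) := Tm.var i
  have hk : Tm ZFm (fun _ v => knm (v 0) (v 5) 0) :=
    Tm.at2 (F := fun _ x y => knm x y 0) (hknm 0) (v 0) (v 5)
  exact at7 (F := lab) hlab (Tm.nS 0)
    (Tm.pair (v 1) (Tm.pair (v 2) (Tm.pair (v 3) (v 4)))) (v 5)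
    (Tm.sel (Dfb.eq (v 1) (Tm.nS 3)) (v 6) hk) (v 6) hk hk

theorem tm_prm (hAI : T_AI) (hBBa : T_BBa) (hBBb : T_BBb) :
    Tm ZFm (fun _ v => prm (v 0) (v 1)) := by
  obtain ⟨-, -, hprl, hkc, -⟩ := hAI
  obtain ⟨-, -, -, -, -, -, hlZ, -⟩ := hBBa
  obtain ⟨-, -, -, -, hev, hcg, -⟩ := hBBb
  have h1 : Tm ZFm (fun _ v => ev (v 0) (lZ (v 1))) :=
    Tm.at2 (F := fun _ x y => ev x y) hev (Tm.var 0) (Tm.at1 (F := fun _ x => lZ x) hlZ (Tm.var 1))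
  exact Tm.at2 (F := fun _ x y => prl x y) hprl
    (Tm.at2 (F := fun _ x y => prl x y) hprl (hkc 1) h1) hcg

theorem dfb_Gl (hBBa : T_BBa) (hBBb : T_BBb) (hBBc : T_BBc) :
    Dfb ZFm (fun _ v => Gl (v 0) (v 1)) := by
  have hk := tm_kd hBBa
  have hg := tm_tg hBBa
  have ht := tm_tm hBBa
  have hv := tm_vw hBBa
  have hmk := tm_mk hBBa hBBc
  obtain ⟨-, -, -, -, hlS, -, hlZ, -⟩ := hBBa
  obtain ⟨-, hLab, -⟩ := hBBb
  have v (i : ℕ) : Tm ZFm (fun _ v => v i) := Tm.var i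
  have a1 {F : V → V} (h : Tm ZFm (fun _ v => F (v 0))) : Tm ZFm (fun _ v => F (v 1)) :=
    Tm.at1 (F := fun _ x => F x) h (v 1)
  have h3 : Dfb ZFm (fun _ v => v 1 = mk (v 0) (kd (v 1)) (tg (v 1)) (tm (v 1)) (vw (v 1))
      (lS (v 1)) (lZ (v 1))) :=
    Dfb.eq (v 1) (at7 (F := mk) hmk (v 0) (a1 hk) (a1 hg) (a1 ht) (a1 hv) (a1 hlS) (a1 hlZ))
  refine ((hLab.and (Dfb.mem (a1 hk) Tm.om)).and h3).congr fun M k w hw => ?_
  constructor
  · rintro ⟨⟨h1, h2⟩, h3⟩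
    exact ⟨h1, h2, h3⟩
  · rintro ⟨h1, h2, h3⟩
    exact ⟨⟨h1, h2⟩, h3⟩

theorem tm_cqs (hBBa : T_BBa) (hBBc : T_BBc) (l : ℕ) :
    Tm ZFm (fun _ v => cqs l (v 0) (v 1) (v 2) (v 3) (v 4) (v 5) (v 6)) := by
  have hk := tm_kd hBBa
  have ht := tm_tm hBBa
  have hv := tm_vw hBBa
  have hmk := tm_mk hBBa hBBc
  have hmvn := tm_mvn hBBc
  obtain ⟨-, -, -, -, hlS, -, hlZ, -⟩ := hBBa
  obtain ⟨-, -, -, him, -⟩ := hBBc
  have v (i : ℕ) : Tm ZFm (fun _ v => v i) := Tm.var i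
  have a6 {F : V → V} (h : Tm ZFm (fun _ v => F (v 0))) : Tm ZFm (fun _ v => F (v 6)) :=
    Tm.at1 (F := fun _ x => F x) h (v 6)
  have h1 : Tm ZFm (fun _ v => kct l (kd (v 6))) :=
    Tm.sel (dfb_kct l (a6 hk)) (a6 hk) (Tm.nS 0)
  have h2 : Tm ZFm (fun _ v => tct l (v 2) (kd (v 6)) (tm (v 6))) :=
    Tm.sel ((Dfb.eq (a6 hk) (Tm.nS l)).and (Dfb.mem (a6 ht) (v 2)).not) (v 2) (a6 ht)
  have h3 : Tm ZFm (fun _ v => im (v 5) (vw (v 6))) :=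
    Tm.at2 (F := fun _ x y => im x y) him (v 5) (a6 hv)
  have h4 : Tm ZFm (fun _ v => im (v 5) (lS (v 6))) :=
    Tm.at2 (F := fun _ x y => im x y) him (v 5) (a6 hlS)
  have h5 : Tm ZFm (fun _ v => mvn (v 5) (lZ (v 6))) :=
    Tm.at2 (F := fun _ x y => mvn x y) hmvn (v 5) (a6 hlZ)
  exact Tm.sel (Dfb.mem (v 6) (v 4)) (Tm.app (v 3) (v 6))
    (at7 (F := mk) hmk (v 0) h1 (Tm.pair (v 1) (v 6)) h2 h3 h4 h5)

/-- the recursion variable first -/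
theorem tm_cqy (hBBa : T_BBa) (hBBc : T_BBc) (l : ℕ) :
    Tm ZFm (fun _ v => cqy l (v 1) (v 2) (v 3) (v 4) (v 5) (v 0)) := by
  have hqs := tm_cqs hBBa hBBc l
  have hvw := tm_vw hBBa
  obtain ⟨-, -, -, -, hlS, -⟩ := hBBa
  have hΦ : Tm ZFm (fun _ w => cqs l (w 2) (w 3) (w 4) (w 5) (w 6) (w 0) (w 1)) :=
    hqs.rn (fun i => match i with
      | 0 => 2
      | 1 => 3
      | 2 => 4
      | 3 => 5
      | 4 => 6
      | 5 => 0
      | 6 => 1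
      | n + 7 => n + 7)
  refine tm_recu (ext := fun _ v => lS (v 0) ∪ vw (v 0))
    (Φ := fun _ w => cqs l (w 2) (w 3) (w 4) (w 5) (w 6) (w 0) (w 1)) ZFSet.rank
    (Tm.union hlS hvw) hΦ ?_ ?_
  · intro M k v hv y hy
    exact (ZFSet.mem_union.1 hy).elim (fun h => TT.rank_lS_lt h) fun h => rank_vw_lt h
  · intro M k v hv
    rw [cqy_eq]
    rfl

theorem dfb_Frg (hBBa : T_BBa) : Dfb ZFm (fun _ v => Frg (v 0) (v 1)) := by
  have h1 : Tm ZFm (fun _ v => tg (v 0)) := tm_tg hBBa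
  have h2 : Dfb ZFm (fun _ v => ¬ (IsPr (tg (v 0)) ∧ fst (tg (v 0)) = v 1)) :=
    ((Dfb.isPr h1).and (Dfb.eq (Tm.fst h1) (Tm.var 1))).not
  refine (Dfb.ball ktr_zfm (Tm.var 1) h2).congr fun M k v hv => ?_
  unfold Frg
  refine forall_congr' fun j => imp_congr_right fun _ => ?_
  show ¬ (IsPr (tg j) ∧ fst (tg j) = v 0) ↔ ∀ x, tg j ≠ ZFSet.pair (v 0) x
  constructor
  · intro h x hx
    apply h
    rw [hx]
    exact ⟨⟨_, _, rfl⟩, fst_pair _ _⟩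
  · rintro h ⟨⟨x, y, hxy⟩, hf⟩
    rw [hxy, fst_pair] at hf
    exact h y (by rw [hxy, hf])

theorem frg_self (X : V) : Frg X X := by
  intro j hj x hx
  have h1 : (tg j).rank ≤ j.rank := by
    unfold tg
    exact (TT.rank_fst_le _).trans ((TT.rank_snd_le _).trans (TT.rank_lG_le _))
  have h2 : X.rank < (tg j).rank := by
    rw [hx]
    exact rank_lt_pair_left X x
  exact absurd (h2.trans_le (h1.trans (ZFSet.rank_lt_of_mem hj).le)) (lt_irrefl _)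

end QI4daux

open QI4daux

/-- QI4d -/
theorem pf_QI4d (hAI : T_AI) (hBBa : T_BBa) (hBBb : T_BBb) (hBBc : T_BBc) : T_QI4d := by
  refine ⟨tm_kd hBBa, tm_tg hBBa, tm_tm hBBa, tm_vw hBBa, tm_mvn hBBc, tm_mk hBBa hBBc,
    tm_prm hAI hBBa hBBb, dfb_Gl hBBa hBBb hBBc, ?_, dfb_Frg hBBa, frg_self, ?_⟩
  · intro l
    have hy := tm_cqy hBBa hBBc l
    refine ⟨?_, ?_⟩
    · exact hy.rn (fun i => match i with
        | 0 => 5
        | n + 1 => n)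
    · exact Tm.resS (g := fun _ v => cqy l (v 1) (v 2) (v 3) (v 4) (v 5) (v 0)) (Tm.var 5) hy
  · intro g X Y h hXY j hj
    exact h j (hXY hj)

end SE.UZ
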