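import Pool.Agent.H72.UZ.TarW
import Pool.Agent.H41.UZ.TR

/-! # MP_f6fd33_lc, module RC: recursion of length `κ` with choices in the ground model -/

set_option linter.unusedVariables false

open Ordinal Order Set
open scoped ZFSet

namespace SE.UZ

open SF _root_.UZ

namespace RCaux

theorem eq_resS {s : V} (h1 : Svl s) (h2 : ∀ z ∈ s, IsPr z) : s = resS (dm s) (app s) := by
  ext z
  constructor
  · intro hz
    obtain ⟨x, y, rfl⟩ := h2 z hz
    exact pair_mem_resS.2 ⟨mem_dm.2 ⟨y, hz⟩, (app_eq h1 hz).symm⟩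
  · intro hz
    obtain ⟨x, hx, rfl⟩ := mem_resS.1 hz
    obtain ⟨y, hy⟩ := mem_dm.1 hx
    rw [app_eq h1 hy]
    exact hy

end RCaux

/-- RC -/
theorem pf_RC : T_RC := by
  intro D κ ha A S1 S2 S3 hA hS1 hS2 hS3 hst
  have hN : ZFCm D.N := ha.ok.zfc.toZFCm
  have hM : ZFm D.N := hN.toZFm
  have hκ : D.N κ := hM.trans _ ha.ok.hN κ ha.kH
  -- the relation: `u 0` = value, `u 1` = sequence
  have p1 : DN D.N (fun u => ZFSet.pair (dm (u 1)) (u 0) ∈ S1) :=
    DN.mem hM (TN.pair hM (TN.dm hM (TN.var hM 1)) (TN.var hM 0)) (TN.cst hS1)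
  have p2 : DN D.N (fun u => ∀ η ∈ dm (u 1), ZFSet.pair η (ZFSet.pair (dm (u 1))
      (ZFSet.pair (app (u 1) η) (u 0))) ∈ S2) := by
    have h : DN D.N (fun w => ZFSet.pair (w 0) (ZFSet.pair (dm (w 2))
        (ZFSet.pair (app (w 2) (w 0)) (w 1))) ∈ S2) :=
      DN.mem hM (TN.pair hM (TN.var hM 0) (TN.pair hM (TN.dm hM (TN.var hM 2))
        (TN.pair hM (TN.app hM (TN.var hM 2) (TN.var hM 0)) (TN.var hM 1)))) (TN.cst hS2)
    exact DN.ball (F := fun u => dm (u 1)) hM (TN.dm hM (TN.var hM 1)) h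
  have p3 : DN D.N (fun u => ∀ η ∈ dm (u 1), dm (u 1) = insert η η →
      ZFSet.pair η (ZFSet.pair (app (u 1) η) (u 0)) ∈ S3) := by
    have h : DN D.N (fun w => dm (w 2) = insert (w 0) (w 0) → ZFSet.pair (w 0)
        (ZFSet.pair (app (w 2) (w 0)) (w 1)) ∈ S3) :=
      (DN.eq hM (TN.dm hM (TN.var hM 2)) (TN.ins hM (TN.var hM 0) (TN.var hM 0))).imp hM
        (DN.mem hM (TN.pair hM (TN.var hM 0)
          (TN.pair hM (TN.app hM (TN.var hM 2) (TN.var hM 0)) (TN.var hM 1))) (TN.cst hS3))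
    exact DN.ball (F := fun u => dm (u 1)) hM (TN.dm hM (TN.var hM 1)) h
  have hP := p1.and hM (p2.and hM p3)
  have hu : In D.N (fun _ => κ) := fun _ => hκ
  obtain ⟨T, hT, hTe, hTv⟩ := exists_seq hN hA hκ ha.ord hu hP (by
    intro ξ hξ s hs hsv hsd hsp hh
    have hseq := RCaux.eq_resS hsv hsp
    rw [hsd] at hseq
    have htr : ∀ η ∈ ξ, ∀ ζ ∈ η, ζ ∈ ξ := by
      intro η hη ζ hζ
      obtain ⟨β, rfl⟩ := IsOrd.of_mem ha.ord hξ
      exact (ZFSet.isOrdinal_toZFSet β).isTransitive η hη hζ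
    obtain ⟨q, hq, q1, q2, q3⟩ := hst ξ hξ s hs hseq (by
        intro η hη
        obtain ⟨h1, h2, -⟩ := hh η hη
        refine ⟨h1, ?_⟩
        have h4 : ZFSet.pair (dm (resS η (app s))) (app s η) ∈ S1 := h2
        rwa [dm_resS] at h4) (by
        intro η hη ζ hζ
        obtain ⟨h1, -, h2, -⟩ := hh η hη
        have h4 : ∀ η' ∈ dm (resS η (app s)), ZFSet.pair η' (ZFSet.pair (dm (resS η (app s)))
          (ZFSet.pair (app (resS η (app s)) η') (app s η))) ∈ S2 := h2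
        rw [dm_resS] at h4
        have h5 := h4 ζ hζ
        rwa [app_resS hζ] at h5) (by
        intro η hη ζ hζ he
        obtain ⟨h1, -, -, h2⟩ := hh η hη
        have h4 : ∀ η' ∈ dm (resS η (app s)), dm (resS η (app s)) = insert η' η' →
          ZFSet.pair η' (ZFSet.pair (app (resS η (app s)) η') (app s η)) ∈ S3 := h2
        rw [dm_resS] at h4
        have h5 := h4 ζ hζ he
        rwa [app_resS hζ] at h5)
    refine ⟨q, hq, ?_, ?_, ?_⟩
    · show ZFSet.pair (dm s) q ∈ S1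
      rw [hsd]
      exact q1
    · show ∀ η ∈ dm s, ZFSet.pair η (ZFSet.pair (dm s) (ZFSet.pair (app s η) q)) ∈ S2
      rw [hsd]
      exact q2
    · show ∀ η ∈ dm s, dm s = insert η η → ZFSet.pair η (ZFSet.pair (app s η) q) ∈ S3
      rw [hsd]
      exact q3)
  refine ⟨T, hT, hTe, ?_, ?_, ?_⟩
  · intro ξ hξ
    obtain ⟨h1, h2, -⟩ := hTv ξ hξ
    refine ⟨h1, ?_⟩
    have h4 : ZFSet.pair (dm (resS ξ (app T))) (app T ξ) ∈ S1 := h2
    rwa [dm_resS] at h4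
  · intro ξ hξ η hη
    obtain ⟨h1, -, h2, -⟩ := hTv ξ hξ
    have h4 : ∀ η' ∈ dm (resS ξ (app T)), ZFSet.pair η' (ZFSet.pair (dm (resS ξ (app T)))
      (ZFSet.pair (app (resS ξ (app T)) η') (app T ξ))) ∈ S2 := h2
    rw [dm_resS] at h4
    have h5 := h4 η hη
    rwa [app_resS hη] at h5
  · intro ξ hξ
    obtain ⟨h1, -, -, h2⟩ := hTv (insert ξ ξ) (ha.suc ξ hξ)
    have h4 : ∀ η' ∈ dm (resS (insert ξ ξ) (app T)), dm (resS (insert ξ ξ) (app T)) =
        insert η' η' → ZFSet.pair η' (ZFSet.pair (app (resS (insert ξ ξ) (app T)) η')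
          (app T (insert ξ ξ))) ∈ S3 := h2
    rw [dm_resS] at h4
    have hξ' : ξ ∈ insert ξ ξ := ZFSet.mem_insert ξ ξ
    have h5 := h4 ξ hξ' rfl
    rwa [app_resS hξ'] at h5

end SE.UZ
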