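import Pool.Agent.H5.UZ.TarR
import Pool.Agent.H41.UZ.TR
import Pool.Agent.H45.UZ.TarP

/-! # MP_f6fd33_lc, module RH: the stages `ρ_ξ` -/

set_option linter.unusedVariables false

open Ordinal Order Set
open scoped ZFSet

namespace SE.UZ

open SF _root_.UZ

namespace RHaux

variable {D : Cx} {b : BS}

/-- `x` is an L-stage -/
def Lv (D : Cx) (b : BS) (x : V) : Prop := ∃ σ : Ordinal.{0}, x = σ.toZFSet ∧ b.Ls D (b.Wd D) σ

/-- the number of the L-stages less than `x` -/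
noncomputable def cv (D : Cx) (b : BS) (x : V) : V :=
  sel (IsOrd x) (b.cn D (b.Wd D) x.rank).toZFSet ∅

theorem cv_ord (D : Cx) (b : BS) (e : Ordinal.{0}) :
    cv D b e.toZFSet = (b.cn D (b.Wd D) e).toZFSet := by
  unfold cv
  rw [sel_pos (isOrd_toZFSet e), Ordinal.rank_toZFSet]

theorem toZFSet_succ1 (o : Ordinal.{0}) : (succ o).toZFSet = insert o.toZFSet o.toZFSet := by
  rw [Order.succ_eq_add_one, Ordinal.toZFSet_add_one]

theorem Lv_ord {e : Ordinal.{0}} : Lv D b e.toZFSet ↔ b.Ls D (b.Wd D) e := by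
  constructor
  · rintro ⟨σ, h1, h2⟩
    rwa [Ordinal.toZFSet_injective h1]
  · exact fun h => ⟨e, rfl, h⟩

theorem lt_cn (D : Cx) (b : BS) (F : Fam) (e ζ : Ordinal.{0}) :
    ζ < b.cn D F e ↔ ∃ d < e, b.Ls D F d ∧ ζ < succ (b.cn D F d) := by
  rw [BS.cn, Ordinal.lt_iSup_iff]
  constructor
  · rintro ⟨⟨⟨d, h1⟩, h2⟩, h3⟩
    exact ⟨d, h1, h2, h3⟩
  · rintro ⟨d, h1, h2, h3⟩
    exact ⟨⟨⟨d, h1⟩, h2⟩, h3⟩

theorem tn_cv (k : ZFm D.N) (hL : DN D.N (fun u => Lv D b (u 0))) :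
    TN D.N (fun u => cv D b (u 0)) := by
  have hE : TN D.N (fun u => sel (IsOrd (u 0)) ((u 0).sep fun y => Lv D b y) ∅) :=
    TN.sel k (DN.isOrd k (TN.var k 0)) (TN.sep (S := fun w => Lv D b (w 0)) k hL (TN.var k 0))
      (TN.empty k)
  have hG : TN D.N (fun w => (⋃₀ (imS (dm (w 0)) fun d =>
      insert (app (w 0) d) (app (w 0) d)) : ZFSet)) := by
    have h1 : TN D.N (fun w => insert (app (w 1) (w 0)) (app (w 1) (w 0))) :=
      TN.ins k (TN.app k (TN.var k 1) (TN.var k 0)) (TN.app k (TN.var k 1) (TN.var k 0))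
    exact TN.iUn k (TN.dm k (TN.var k 0)) h1
  refine TN.recu (E := fun u => sel (IsOrd (u 0)) ((u 0).sep fun y => Lv D b y) ∅)
    (G := fun w => (⋃₀ (imS (dm (w 0)) fun d =>
      insert (app (w 0) d) (app (w 0) d)) : ZFSet)) k hE hG ?_ ?_
  · intro u hu y hy
    by_cases h : IsOrd (u 0)
    · rw [sel_pos h] at hy
      exact ZFSet.rank_lt_of_mem (ZFSet.mem_sep.1 hy).1
    · rw [sel_neg h] at hy
      exact absurd hy (ZFSet.notMem_empty _)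
  · intro u hu
    show cv D b (u 0) = (⋃₀ (imS (dm (resS (sel (IsOrd (u 0)) ((u 0).sep fun y => Lv D b y) ∅)
      fun y => cv D b y)) fun d => insert (app (resS (sel (IsOrd (u 0))
        ((u 0).sep fun y => Lv D b y) ∅) fun y => cv D b y) d) (app (resS (sel (IsOrd (u 0))
        ((u 0).sep fun y => Lv D b y) ∅) fun y => cv D b y) d)) : ZFSet)
    rw [dm_resS]
    by_cases h : IsOrd (u 0)
    · rw [sel_pos h]
      obtain ⟨e, he⟩ := h
      rw [he, cv_ord]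
      ext x
      rw [ZFSet.mem_sUnion]
      constructor
      · intro hx
        obtain ⟨ζ, hζ, rfl⟩ := Ordinal.mem_toZFSet_iff.1 hx
        obtain ⟨d, hd, h1, h2⟩ := (lt_cn D b _ e ζ).1 hζ
        have hm : d.toZFSet ∈ e.toZFSet.sep fun y => Lv D b y :=
          ZFSet.mem_sep.2 ⟨toZFSet_mem_toZFSet_iff.2 hd, Lv_ord.2 h1⟩
        refine ⟨_, mem_imS.2 ⟨_, hm, rfl⟩, ?_⟩
        rw [app_resS hm, cv_ord, ← toZFSet_succ1]
        exact toZFSet_mem_toZFSet_iff.2 h2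
      · rintro ⟨z, hz, hx⟩
        obtain ⟨y, hy, rfl⟩ := mem_imS.1 hz
        rw [app_resS hy] at hx
        obtain ⟨hy1, hy2⟩ := ZFSet.mem_sep.1 hy
        obtain ⟨d, hd, rfl⟩ := Ordinal.mem_toZFSet_iff.1 hy1
        rw [cv_ord, ← toZFSet_succ1] at hx
        obtain ⟨ζ, hζ, rfl⟩ := Ordinal.mem_toZFSet_iff.1 hx
        exact toZFSet_mem_toZFSet_iff.2 ((lt_cn D b _ e ζ).2 ⟨d, hd, Lv_ord.1 hy2, hζ⟩)
    · rw [sel_neg h]
      unfold cv
      rw [sel_neg h]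
      symm
      rw [ZFSet.eq_empty]
      intro x hx
      obtain ⟨z, hz, -⟩ := ZFSet.mem_sUnion.1 hx
      obtain ⟨y, hy, -⟩ := mem_imS.1 hz
      exact ZFSet.notMem_empty _ hy

end RHaux

open RHaux

/-- RH -/
theorem pf_RH (hIL : T_IL) (hIWd : T_IWd) (hPSJ : T_PSJ) : T_RH := by
  intro D κ b ha hb
  have k : ZFm D.N := ha.ok.zfc.toZFCm.toZFm
  have hL : DN D.N (fun u => Lv D b (u 0)) := hIWd D κ b ha hb
  have hcv := tn_cv k hL
  obtain ⟨s1, s2, s3, s4, s5, s6, s7, s8, s9, s10, s11, s12⟩ := hPSJ b D (b.Wd D)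
  have hκN : D.N κ := k.trans _ ha.ok.hN κ ha.kH
  -- the relation `P`: `w 0` is the L-stage with the number `w 1`
  have hP : DN D.N (fun w => Lv D b (w 0) ∧ cv D b (w 0) = w 1) :=
    hL.and k (DN.eq k hcv (TN.var k 1))
  have htr : ∀ {α β : Ordinal.{0}}, D.N β.toZFSet → α < β → D.N α.toZFSet := fun h1 h2 =>
    k.trans _ h1 _ (toZFSet_mem_toZFSet_iff.2 h2)
  -- existence
  have hex : ∀ ζ : Ordinal.{0}, D.N ζ.toZFSet →
      ∃ e, D.N e.toZFSet ∧ b.Ls D (b.Wd D) e ∧ b.cn D (b.Wd D) e = ζ := by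
    intro ζ
    induction ζ using WellFoundedLT.induction with
    | _ ζ ih =>
      intro hζ
      obtain ⟨A, hA, hA2⟩ := exists_coll k hζ (u := fun _ => ζ.toZFSet) (fun _ => hζ) hP (by
        intro x hx
        obtain ⟨ξ, hξ, rfl⟩ := Ordinal.mem_toZFSet_iff.1 hx
        obtain ⟨e, h1, h2, h3⟩ := ih ξ hξ (htr hζ hξ)
        refine ⟨e.toZFSet, h1, Lv_ord.2 h2, ?_⟩
        show cv D b e.toZFSet = ξ.toZFSet
        rw [cv_ord, h3])
      have hAr : D.N A.rank.toZFSet :=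
        TN.mem k (TN.rkS k (TN.var k 0)) (u := fun _ => A) fun _ => hA
      obtain ⟨e, h1, h2, h3⟩ := hIL D κ b ha hb A.rank hAr
      have h4 : ζ ≤ b.cn D (b.Wd D) e := by
        refine le_of_forall_lt fun ξ hξ => ?_
        obtain ⟨y, hy, h5, h6⟩ := hA2 ξ.toZFSet (toZFSet_mem_toZFSet_iff.2 hξ)
        obtain ⟨σ, rfl, h7⟩ := h5
        have h8 : cv D b σ.toZFSet = ξ.toZFSet := h6
        rw [cv_ord] at h8
        have h9 := Ordinal.toZFSet_injective h8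
        have h10 : σ < e := by
          have h11 := ZFSet.rank_lt_of_mem hy
          rw [Ordinal.rank_toZFSet] at h11
          exact h11.trans_le h1
        rw [← h9]
        exact s3 _ _ h7 h10
      rcases h4.eq_or_lt with h5 | h5
      · exact ⟨e, h2, h3, h5.symm⟩
      · obtain ⟨e', h6, h7, h8⟩ := s5 e ζ h5
        exact ⟨e', htr h2 h6, h7, h8⟩
  have hord : ∀ ξ ∈ κ, ∃ ζ : Ordinal.{0}, ξ = ζ.toZFSet ∧ D.N ζ.toZFSet := by
    intro ξ hξ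
    obtain ⟨κ', rfl⟩ := ha.ord
    obtain ⟨ζ, hζ, rfl⟩ := Ordinal.mem_toZFSet_iff.1 hξ
    exact ⟨ζ, rfl, htr hκN hζ⟩
  -- the first clause
  have c1 : ∀ ξ ∈ κ, b.Ls D (b.Wd D) (b.rho D ξ) ∧
      (b.cn D (b.Wd D) (b.rho D ξ)).toZFSet = ξ ∧ D.N (b.rho D ξ).toZFSet := by
    intro ξ hξ
    obtain ⟨ζ, rfl, hζ⟩ := hord ξ hξ
    obtain ⟨e, h1, h2, h3⟩ := hex ζ hζ
    have hm : e ∈ {e | b.Ls D (b.Wd D) e ∧ (b.cn D (b.Wd D) e).toZFSet = ζ.toZFSet} :=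
      ⟨h2, by rw [h3]⟩
    obtain ⟨h4, h5⟩ := csInf_mem (s := {e | b.Ls D (b.Wd D) e ∧
      (b.cn D (b.Wd D) e).toZFSet = ζ.toZFSet}) ⟨e, hm⟩
    have h6 : b.rho D ζ.toZFSet ≤ e := csInf_le' hm
    refine ⟨h4, h5, ?_⟩
    rcases h6.eq_or_lt with h7 | h7
    · rw [h7]; exact h1
    · exact htr h1 h7
  -- uniqueness
  have c4 : ∀ ξ ∈ κ, ∀ e, b.Ls D (b.Wd D) e → (b.cn D (b.Wd D) e).toZFSet = ξ →
      e = b.rho D ξ := by
    intro ξ hξ e h1 h2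
    obtain ⟨h3, h4, h5⟩ := c1 ξ hξ
    exact s4 _ _ h1 h3 (Ordinal.toZFSet_injective (h2.trans h4.symm))
  have c2 : ∀ ξ ∈ κ, ∀ η ∈ κ, (ξ ∈ η ↔ b.rho D ξ < b.rho D η) := by
    have h0 : ∀ ξ ∈ κ, ∀ η ∈ κ, b.rho D ξ < b.rho D η → ξ ∈ η := by
      intro ξ hξ η hη h1
      obtain ⟨h3, h4, h5⟩ := c1 ξ hξ
      obtain ⟨h6, h7, h8⟩ := c1 η hη
      rw [← h4, ← h7]
      exact toZFSet_mem_toZFSet_iff.2 (s3 _ _ h3 h1)
    intro ξ hξ η hη
    refine ⟨fun h => ?_, h0 ξ hξ η hη⟩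
    rcases lt_trichotomy (b.rho D ξ) (b.rho D η) with h1 | h1 | h1
    · exact h1
    · exfalso
      have h2 : ξ = η := by
        rw [← (c1 ξ hξ).2.1, ← (c1 η hη).2.1, h1]
      rw [h2] at h
      exact ZFSet.mem_irrefl _ h
    · exfalso
      exact ZFSet.mem_asymm h (h0 η hη ξ hξ h1)
  have hsub : ∀ ξ ∈ κ, ∀ η ∈ ξ, η ∈ κ := by
    intro ξ hξ η hη
    obtain ⟨κ', hκ'⟩ := ha.ord
    rw [hκ'] at hξ ⊢
    exact (ZFSet.isOrdinal_toZFSet κ').isTransitive ξ hξ hη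
  have c3 : ∀ ξ ∈ κ, ∀ e, b.Ls D (b.Wd D) e → e < b.rho D ξ → ∃ η ∈ ξ, e = b.rho D η := by
    intro ξ hξ e h1 h2
    obtain ⟨h3, h4, h5⟩ := c1 ξ hξ
    have h6 : (b.cn D (b.Wd D) e).toZFSet ∈ ξ := by
      have h7 := toZFSet_mem_toZFSet_iff.2 (s3 _ _ h1 h2)
      rwa [h4] at h7
    exact ⟨_, h6, c4 _ (hsub ξ hξ _ h6) e h1 rfl⟩
  refine ⟨c1, c2, c3, c4, ?_, ?_⟩
  · intro ξ hξ τ
    obtain ⟨h3, h4, h5⟩ := c1 ξ hξ
    refine ⟨fun h => ?_, fun h => ?_, fun h => ?_⟩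
    · have hτ := hsub ξ hξ τ h
      obtain ⟨h6, h7, h8⟩ := c1 τ hτ
      rw [s10 (b.rho D ξ) _ τ h6 h7]
      exact min_eq_right ((c2 τ hτ ξ hξ).1 h).le
    · by_contra h6
      have h7 := lt_of_le_of_ne (s7 (b.rho D ξ) τ) h6
      obtain ⟨h8, h9⟩ := s8 _ _ h7
      obtain ⟨η, hη, h10⟩ := c3 ξ hξ _ h8 h7
      rw [h10, (c1 η (hsub ξ hξ η hη)).2.1] at h9
      rw [← h9] at h
      exact h hη
    · have hle : ∀ t ∈ κ, (t ∈ ξ ∨ t = ξ) → b.rho D t ≤ b.rho D ξ := by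
        rintro t ht (h6 | rfl)
        · exact ((c2 t ht ξ hξ).1 h6).le
        · exact le_rfl
      have hτ : τ ∈ κ ∧ (τ ∈ ξ ∨ τ = ξ) := by
        rcases ZFSet.mem_insert_iff.1 h with h6 | h6
        · rw [h6]
          exact ⟨hξ, Or.inr rfl⟩
        · exact ⟨hsub ξ hξ τ h6, Or.inl h6⟩
      obtain ⟨h6, h7, h8⟩ := c1 τ hτ.1
      rw [s10 (succ (b.rho D ξ)) _ τ h6 h7]
      exact min_eq_right ((hle τ hτ.1 hτ.2).trans (le_succ _))
  · obtain ⟨A, hA, hA2⟩ := exists_coll k hκN (u := fun _ => κ) (fun _ => hκN) hP (by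
      intro x hx
      obtain ⟨h3, h4, h5⟩ := c1 x hx
      refine ⟨(b.rho D x).toZFSet, h5, Lv_ord.2 h3, ?_⟩
      show cv D b (b.rho D x).toZFSet = x
      rw [cv_ord, h4])
    have hAr : D.N A.rank.toZFSet :=
      TN.mem k (TN.rkS k (TN.var k 0)) (u := fun _ => A) fun _ => hA
    have hS : DN D.N (fun w => Lv D b (snd (w 0)) ∧ cv D b (snd (w 0)) = fst (w 0)) :=
      (DN.at1 k hL (TN.snd k (TN.var k 0))).and k
        (DN.eq k (TN.at1 k hcv (TN.snd k (TN.var k 0))) (TN.fst k (TN.var k 0)))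
    have hprod : D.N (ZFSet.prod κ A) :=
      TN.mem k (TN.prod k (TN.cst hκN) (TN.cst hA)) (u := fun _ => κ) fun _ => hκN
    have h9 := hS.sepN k hprod (u := fun _ => κ) fun _ => hκN
    have e : resS κ (fun ξ => (b.rho D ξ).toZFSet) = (ZFSet.prod κ A).sep fun z =>
        Lv D b (snd (cons z (fun _ => κ) 0)) ∧
          cv D b (snd (cons z (fun _ => κ) 0)) = fst (cons z (fun _ => κ) 0) := by
      ext z
      rw [ZFSet.mem_sep, mem_resS]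
      constructor
      · rintro ⟨ξ, hξ, rfl⟩
        obtain ⟨h3, h4, h5⟩ := c1 ξ hξ
        obtain ⟨y, hy, h6, h7⟩ := hA2 ξ hξ
        obtain ⟨σ, rfl, h8⟩ := h6
        have h7' : cv D b σ.toZFSet = ξ := h7
        rw [cv_ord] at h7'
        have h10 := c4 ξ hξ σ h8 h7'
        subst h10
        refine ⟨ZFSet.pair_mem_prod.2 ⟨hξ, hy⟩, ?_⟩
        rw [cons_zero, snd_pair, fst_pair, cv_ord]
        exact ⟨Lv_ord.2 h3, h4⟩
      · rintro ⟨h1, h2, h3⟩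
        obtain ⟨ξ, hξ, y, hy, rfl⟩ := ZFSet.mem_prod.1 h1
        rw [cons_zero, snd_pair] at h2 h3
        rw [fst_pair] at h3
        obtain ⟨σ, rfl, h8⟩ := h2
        rw [cv_ord] at h3
        rw [c4 ξ hξ σ h8 h3]
        exact ⟨ξ, hξ, rfl⟩
    rw [e]
    exact h9

end SE.UZ
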