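import Pool.Agent.H5.UZ.NT
import Pool.Agent.H5.UZ.FRd
import Pool.Agent.H72.UZ.TarX

/-! # MP_f6fd33_lc, module X2: the sets of tasks are in the ground model -/

set_option linter.unusedVariables false

open Ordinal Order Set
open scoped ZFSet

namespace SE.UZ

open SF _root_.UZ Y7aux FRdaux NTaux

namespace X2aux

variable {D : Cx} {κ : V} {b : BS} {C : (ℕ → V) → Prop} {Bt : (ℕ → V) → V}
  {A1 A2 : (ℕ → V) → V → V}

/-- a pair is not seen: decided -/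
theorem dc_ns (hL : Lb) (hD : D.Ok) (hb : b.Ok D κ) (hB : TN D.N Bt) (h1 : Et D A1)
    (h2 : Et D A2) (hC : ∀ u, In D.N u → C u → b.Obs (Bt u)) :
    Dc D C (fun u => b.u (Bt u)) (fun u G => ∀ j ∈ b.u (Bt u), b.Co j →
      ¬ Sn D G (A1 u G) (A2 u G) j) := by
  have hN := hD.zfm
  have v0 := TN.var (N := D.N) hN 0
  have hr := TN.bu hD hb hB
  have hr1 := hr.rn fun i => i + 1
  have h3 : Dc D C (fun u => b.u (Bt u)) (fun u G => ∀ j, D.N j → (j ∈ b.u (Bt u) ∧ b.Co j) →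
      ¬ (RR D (vw j) G (A1 u G) ∧ RR D (vw j) G (A2 u G))) := by
    refine Dc.all (C' := fun w => b.Obs (Bt fun i => w (i + 1)) ∧
        w 0 ∈ b.u (Bt fun i => w (i + 1)) ∧ b.Co (w 0))
      (S := fun w => w 0 ∈ b.u (Bt fun i => w (i + 1)) ∧ b.Co (w 0)) (r := fun u => b.u (Bt u))
      (X := fun w G => ¬ (RR D (vw (w 0)) G (A1 (fun i => w (i + 1)) G) ∧
        RR D (vw (w 0)) G (A2 (fun i => w (i + 1)) G))) hL hD hr
      ((DN.mem hN v0 hr1).and hN (DN.co hL hD b v0)) ?_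
      fun u y h4 _ h5 _ h6 => ⟨hC u h4 h5, h6⟩
    have hc2 : ∀ w : ℕ → V, In D.N w → Cr D (fun w => b.u (Bt fun i => w (i + 1))) w →
        (b.Obs (Bt fun i => w (i + 1)) ∧ w 0 ∈ b.u (Bt fun i => w (i + 1)) ∧ b.Co (w 0)) →
          Cld D.L (vw (w 0)) ∧ vw (w 0) ⊆ b.u (Bt fun i => w (i + 1)) := by
      rintro w _ _ ⟨h3, h4, h5⟩
      obtain ⟨_, ⟨A, h6, h7⟩, _⟩ := h3.v _ h4 h5
      rw [← h7]
      exact ⟨(hb.cs _ (hb.leO _ _ h6).1).c, (hb.leO _ _ h6).2.2⟩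
    refine Dc.not hL hD hr1 (Dc.and hL hD hr1 ?_ ?_)
    · exact Dc.rr (s := fun w => vw (w 0)) hL hD hr1 (TN.vw hL hD v0) (h1.rn fun i => i + 1) hc2
    · exact Dc.rr (s := fun w => vw (w 0)) hL hD hr1 (TN.vw hL hD v0) (h2.rn fun i => i + 1) hc2
  refine h3.cg fun u h4 h5 _ G _ => ?_
  constructor
  · intro h j h6 h7 h8
    exact h j (hN.trans _ (hD.nH h5.1) _ h6) ⟨h6, h7⟩ h8
  · intro h j _ h6 h8
    exact h j h6.1 h6.2 h8

end X2aux

open X2aux

/-- X2 -/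
theorem pf_X2 (hL : Lb) (hRH : T_RH) (hIW : T_IW) : T_X2 := by
  intro D κ b hA hb ξ hξ q hq
  have hD := hA.ok
  have hN := hD.zfm
  have hσ : D.N (b.rho D ξ).toZFSet := ((hRH D κ b hA hb).1 ξ hξ).2.2
  obtain ⟨t, htN, ht⟩ := table hIW hA hb hσ
  have hu0 : In D.N (fun _ => b.Ob) := fun _ => hb.nO
  have v0 := TN.var (N := D.N) hN 0
  have v1 := TN.var (N := D.N) hN 1
  have wq := wd_wo hq.w
  have hqo := wq.o.o
  have hρq : D.N (b.u (fst q)) := hD.nH (hb.cs _ hqo).h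
  have hq1 : D.N (fst q) := hN.trans _ hb.nO _ hqo
  have hq2 : D.N (snd q) := wq.hs.n
  obtain ⟨S, hS, hS2⟩ := names hL hA hb
  obtain ⟨P, hP, hP2⟩ := poss hL hD hb
  -- the set of the worlds of stage `ρ_ξ`
  have hw1 : DN D.N (fun w => w 0 = ZFSet.pair (fst (w 0)) (snd (w 0)) ∧ fst (w 0) ∈ b.Ob) :=
    (DN.eq hN v0 (TN.pair hN (TN.fst hN v0) (TN.snd hN v0))).and hN
      (DN.ob hD hb (TN.fst hN v0))
  have hat : D.N (app t (b.rho D ξ).toZFSet) :=
    TN.mem hN (TN.app hN (TN.cst htN) (TN.cst hσ)) hu0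
  have hWN : D.N ((app t (b.rho D ξ).toZFSet).sep fun z =>
      z = ZFSet.pair (fst z) (snd z) ∧ fst z ∈ b.Ob) := hw1.sepN hN hat hu0
  set W := (app t (b.rho D ξ).toZFSet).sep fun z =>
      z = ZFSet.pair (fst z) (snd z) ∧ fst z ∈ b.Ob with hWd
  have hW : ∀ p, p ∈ W ↔ b.Wr D ξ p := by
    intro p
    rw [hWd, ZFSet.mem_sep]
    constructor
    · rintro ⟨h1, h2, h3⟩
      refine ⟨h2, (ht _ _).1 ⟨h3, ?_⟩⟩
      rw [← h2]
      exact h1
    · intro h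
      have h1 := (ht _ _).2 h.w
      refine ⟨?_, h.pr, h1.1⟩
      have h2 := h1.2
      rw [← h.pr] at h2
      exact h2
  have hWo : ∀ p ∈ W, b.Obs (fst p) := fun p hp => (wd_wo ((hW p).1 hp).w).o
  -- `z = (_, (p', r))`
  have tp := TN.fst hN (TN.snd hN v0)
  have tp1 := TN.fst hN tp
  have tp2 := TN.snd hN tp
  have tr := TN.snd hN (TN.snd hN v0)
  have hr := TN.bu hD hb tp1
  have hr1 := hr.rn fun i => i + 1
  have dW : DN D.N (fun w => fst (snd (w 0)) ∈ W) := DN.mem hN tp (TN.cst hWN)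
  have dL : DN D.N (fun w => b.LW D ((b.rho D ξ).toZFSet).rank (fst q) (snd q)
      (fst (fst (snd (w 0)))) (snd (fst (snd (w 0))))) :=
    DN.lw (e := fun _ => (b.rho D ξ).toZFSet) hL hD hb (TN.cst hσ) (TN.cst hq1) (TN.cst hq2)
      tp1 tp2
  have dPr : DN D.N (fun w => snd (snd (w 0)) ∈ Pos D.L (b.u (fst (fst (snd (w 0)))))) :=
    DN.mem hN tr (tnP hL hD hr)
  have hcr : ∀ z, fst (snd z) ∈ W → Cr D (fun w => b.u (fst (fst (snd (w 0)))))
      (cons z fun _ => b.Ob) := fun z h => cs_cr (hb.cs _ (hWo _ h).o)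
  have hcr1 : ∀ z Y, fst (snd z) ∈ W → Cr D (fun w => b.u (fst (fst (snd (w 1)))))
      (cons Y (cons z fun _ => b.Ob)) := fun z Y h => cs_cr (hb.cs _ (hWo _ h).o)
  refine ⟨?_, ?_, ?_⟩
  · -- E1: `z = (X, (p', r))`, `Y = w 0`, `z = w 1`
    have tX := TN.fst hN v0
    have eX : Et D (fun w G => ev G (fst (w 1))) :=
      Et.ev hL hD (Et.G hD) (Et.gr (TN.fst hN v1))
    have eY : Et D (fun w G => ev G (w 0)) := Et.ev hL hD (Et.G hD) (Et.gr v0)
    have h1 : Dc D (fun w => fst (snd (w 1)) ∈ W ∧ b.Le (fst q) (fst (fst (snd (w 1)))))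
        (fun w => b.u (fst (fst (snd (w 1))))) (fun w G =>
        snd (snd (w 1)) ∈ G → (¬ RR D (b.u (fst q)) G (ev G (w 0)) ∧
          ¬ b.Kb D (b.Wd D) (b.rho D ξ) (fst (fst (snd (w 1)))) (snd (fst (snd (w 1)))) G
            (ev G (fst (w 1))) (ev G (w 0)) ∧ ∀ j ∈ b.u (fst (fst (snd (w 1)))), b.Co j →
              ¬ Sn D G (ev G (fst (w 1))) (ev G (w 0)) j)) := by
      refine Dc.imp hL hD hr1 (Dc.mem hL hD hr1 (Et.gr (tr.rn fun i => i + 1)) (Et.G hD)) ?_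
      refine Dc.and hL hD hr1 (Dc.not hL hD hr1 (Dc.rr (s := fun _ => b.u (fst q)) hL hD hr1
        (TN.cst hρq) eY fun w _ _ h => ⟨(hb.cs _ hqo).c, (hb.leO _ _ h.2).2.2⟩)) ?_
      refine Dc.and hL hD hr1 (Dc.not hL hD hr1 ?_) (dc_ns hL hD hb (tp1.rn fun i => i + 1) eX eY
        fun w _ h => hWo _ h.1)
      refine (Dc.kb (t := fun _ => t) (e := fun _ => (b.rho D ξ).toZFSet) hL hD hb (TN.cst htN)
        (TN.cst hσ) (tp1.rn fun i => i + 1) (tp2.rn fun i => i + 1) eX eY).cg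
        fun w _ _ _ G _ => ?_
      simp only [Ordinal.rank_toZFSet]
      exact kb_cg ht
    have dC : DN D.N (fun w => fst (snd (w 1)) ∈ W ∧ b.Le (fst q) (fst (fst (snd (w 1))))) :=
      (dW.rn fun i => i + 1).and hN (DN.ble hD hb (TN.cst hq1) (tp1.rn fun i => i + 1))
    have h2 := Dc.dnG hL hD hr1 dC h1
    have h3 := DN.ex ((dnNam hL hD (hr.rn fun i => i + 1) v0).and hN h2)
    have h4 := (dnNam hL hD (TN.cst hρq) tX).and hN (dW.and hN (dL.and hN (dPr.and hN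
      ((DN.eq hN v0 (TN.pair hN tX (TN.pair hN tp tr))).and hN h3))))
    have hM : D.N (S.prod (W.prod P)) :=
      TN.mem hN (TN.prod hN (TN.cst hS) (TN.prod hN (TN.cst hWN) (TN.cst hP))) hu0
    refine ⟨_, h4.sepN hN hM hu0, fun z => ?_⟩
    rw [ZFSet.mem_sep]
    simp only [cons_zero, cons_succ]
    constructor
    · rintro ⟨k1, k2, k3, k4, k5, k6, Y, k7, k8, k9, k10, k11⟩
      have hz := hN.trans _ hM _ k1
      refine ⟨fst z, fst (snd z), snd (snd z), ⟨?_, k2⟩, (hW _).1 k3, ?_, k5, k6, Y, ⟨k7, k8⟩, k11⟩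
      · exact TN.mem hN tX (u := fun _ => z) fun _ => hz
      · rw [Ordinal.rank_toZFSet] at k4
        exact k4
    · rintro ⟨X, p', r, k1, k2, k3, k4, rfl, Y, k5, k6⟩
      have k2' := (hW _).2 k2
      have hc := hcr1 (ZFSet.pair X (ZFSet.pair p' r)) Y (by simp only [fst_pair, snd_pair]; exact k2')
      simp only [fst_pair, snd_pair, true_and, Ordinal.rank_toZFSet]
      refine ⟨?_, k1.2, k2', k3, k4, Y, k5.1, k5.2, hc, ⟨k2', k3.le⟩, k6⟩
      rw [ZFSet.pair_mem_prod, ZFSet.pair_mem_prod]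
      exact ⟨hS2 _ hqo _ k1.1 k1.2, k2', hP2 _ (hWo _ k2').o _ k4⟩
  · -- E2: `z = ((X, Y), (p', r))`
    have tX := TN.fst hN (TN.fst hN v0)
    have tY := TN.snd hN (TN.fst hN v0)
    have h1 : Dc D (fun w => fst (snd (w 0)) ∈ W) (fun w => b.u (fst (fst (snd (w 0)))))
        (fun w G => snd (snd (w 0)) ∈ G → b.Kil D (fst (fst (snd (w 0)))) G
          (ev G (fst (fst (w 0)))) (ev G (snd (fst (w 0))))) :=
      Dc.imp hL hD hr (Dc.mem hL hD hr (Et.gr tr) (Et.G hD)) (Dc.kil hL hD hb tp1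
        (Et.ev hL hD (Et.G hD) (Et.gr tX)) (Et.ev hL hD (Et.G hD) (Et.gr tY)))
    have h2 := Dc.dnG hL hD hr dW h1
    have h4 := (dnNam hL hD (TN.cst hρq) tX).and hN ((dnNam hL hD (TN.cst hρq) tY).and hN
      (dL.and hN (dPr.and hN ((DN.eq hN v0 (TN.pair hN (TN.pair hN tX tY)
        (TN.pair hN tp tr))).and hN h2))))
    have hM : D.N ((S.prod S).prod (W.prod P)) :=
      TN.mem hN (TN.prod hN (TN.prod hN (TN.cst hS) (TN.cst hS))
        (TN.prod hN (TN.cst hWN) (TN.cst hP))) hu0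
    refine ⟨_, h4.sepN hN hM hu0, fun z => ?_⟩
    rw [ZFSet.mem_sep]
    simp only [cons_zero]
    constructor
    · rintro ⟨k1, k2, k3, k4, k5, k6, _, k7, k8⟩
      have hz := hN.trans _ hM _ k1
      refine ⟨fst (fst z), snd (fst z), fst (snd z), snd (snd z), ⟨?_, k2⟩, ⟨?_, k3⟩,
        (hW _).1 k7, ?_, k5, k6, k8⟩
      · exact TN.mem hN tX (u := fun _ => z) fun _ => hz
      · exact TN.mem hN tY (u := fun _ => z) fun _ => hz
      · rw [Ordinal.rank_toZFSet] at k4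
        exact k4
    · rintro ⟨X, Y, p', r, k1, k1', k2, k3, k4, rfl, k6⟩
      have k2' := (hW _).2 k2
      have hc := hcr (ZFSet.pair (ZFSet.pair X Y) (ZFSet.pair p' r))
        (by simp only [fst_pair, snd_pair]; exact k2')
      simp only [fst_pair, snd_pair, true_and, Ordinal.rank_toZFSet]
      refine ⟨?_, k1.2, k1'.2, k3, k4, hc, k2', k6⟩
      rw [ZFSet.pair_mem_prod, ZFSet.pair_mem_prod, ZFSet.pair_mem_prod]
      exact ⟨⟨hS2 _ hqo _ k1.1 k1.2, hS2 _ hqo _ k1'.1 k1'.2⟩, k2', hP2 _ (hWo _ k2').o _ k4⟩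
  · -- E3: `z = ((X, Y), (p', ∅))`, `j = w 0`
    have tX := TN.fst hN (TN.fst hN v0)
    have tY := TN.snd hN (TN.fst hN v0)
    have eX : Et D (fun w G => ev G (fst (fst (w 1)))) :=
      Et.ev hL hD (Et.G hD) (Et.gr (tX.rn fun i => i + 1))
    have eY : Et D (fun w G => ev G (snd (fst (w 1)))) :=
      Et.ev hL hD (Et.G hD) (Et.gr (tY.rn fun i => i + 1))
    have h1 : Dc D (fun w => fst (snd (w 1)) ∈ W) (fun w => b.u (fst (fst (snd (w 1)))))
        (fun w G => (¬ ∃ e, Ent (snd q) G (ev G (fst (fst (w 1)))) (ev G (snd (fst (w 1)))) e) →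
          ev G (lZ (w 0)) = prl (ev G (fst (fst (w 1)))) (ev G (snd (fst (w 1))))) :=
      Dc.imp hL hD hr1 (Dc.not hL hD hr1 (dc_exe (f := fun _ => snd q) hL hD hr1 (TN.cst hq2)
        eX eY)) (Dc.eq hL hD hr1 (Et.ev hL hD (Et.G hD) (Et.gr (TN.lZ hL hD v0)))
          (Et.prl hL hD eX eY))
    have h2 := Dc.dnG hL hD hr1 (dW.rn fun i => i + 1) h1
    have h3 := DN.bex (F := fun w => b.u (fst (fst (snd (w 0))))) hN hr
      ((DN.co hL hD b v0).and hN h2)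
    have h4 := (dnNam hL hD (TN.cst hρq) tX).and hN ((dnNam hL hD (TN.cst hρq) tY).and hN
      (dW.and hN (dL.and hN ((DN.eq hN v0 (TN.pair hN (TN.pair hN tX tY)
        (TN.pair hN tp (TN.empty hN)))).and hN h3))))
    have hM : D.N ((S.prod S).prod (W.prod {∅})) :=
      TN.mem hN (TN.prod hN (TN.prod hN (TN.cst hS) (TN.cst hS))
        (TN.prod hN (TN.cst hWN) (TN.sing hN (TN.empty hN)))) hu0
    refine ⟨_, h4.sepN hN hM hu0, fun z => ?_⟩
    rw [ZFSet.mem_sep]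
    simp only [cons_zero, cons_succ]
    constructor
    · rintro ⟨k1, k2, k3, k4, k5, k6, j, hj, k7, _, _, k8⟩
      have hz := hN.trans _ hM _ k1
      refine ⟨fst (fst z), snd (fst z), fst (snd z), ⟨?_, k2⟩, ⟨?_, k3⟩,
        (hW _).1 k4, ?_, k6, j, hj, k7, k8⟩
      · exact TN.mem hN tX (u := fun _ => z) fun _ => hz
      · exact TN.mem hN tY (u := fun _ => z) fun _ => hz
      · rw [Ordinal.rank_toZFSet] at k5
        exact k5
    · rintro ⟨X, Y, p', k1, k1', k2, k3, rfl, j, hj, k5, k6⟩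
      have k2' := (hW _).2 k2
      have hc := hcr1 (ZFSet.pair (ZFSet.pair X Y) (ZFSet.pair p' ∅)) j
        (by simp only [fst_pair, snd_pair]; exact k2')
      simp only [fst_pair, snd_pair, true_and, Ordinal.rank_toZFSet]
      refine ⟨?_, k1.2, k1'.2, k2', k3, j, hj, k5, hc, k2', k6⟩
      rw [ZFSet.pair_mem_prod, ZFSet.pair_mem_prod, ZFSet.pair_mem_prod]
      exact ⟨⟨hS2 _ hqo _ k1.1 k1.2, hS2 _ hqo _ k1'.1 k1'.2⟩, k2', ZFSet.mem_singleton.2 rfl⟩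

end SE.UZ
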