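import Pool.Agent.H72.UZ.TarY
import Pool.Agent.H45.UZ.TarA
import Pool.Agent.H41.UZ.TR

/-! # MP_f6fd33_lc, module Y14: the relations of the pass are given by sets of the ground model -/

set_option linter.unusedVariables false

open Ordinal Order Set
open scoped ZFSet

namespace SE.UZ

open SF _root_.UZ

namespace Y14aux

variable {N : V → Prop} {F G : (ℕ → V) → V}

theorem tn_u (k : ZFm N) {b : BS} (hU : N b.U) (hF : TN N F) : TN N (fun w => b.u (F w)) :=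
  TN.app k (TN.cst hU) hF

theorem tn_ut (k : ZFm N) {b : BS} {κ : V} (hU : N b.U) (hκ : N κ) (hF : TN N F) :
    TN N (fun w => b.ut κ (F w)) := by
  have h : TN N (fun w => b.u (fst (app (F fun i => w (i + 1)) (w 0)))) :=
    tn_u k hU (TN.fst k (TN.app k (hF.rn fun i => i + 1) (TN.var k 0)))
  exact TN.iUn k (TN.cst hκ) h

theorem tn_tK (k : ZFm N) (hF : TN N F) (hG : TN N G) : TN N (fun w => tK (F w) (G w)) :=
  TN.fst k (TN.app k hF hG)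

theorem dn_kl (k : ZFm N) (l : ℕ) (hF : TN N F) :
    DN N (fun w => ∃ e : ℕ, e < l ∧ F w = nS e) := by
  induction l with
  | zero =>
    refine (DN.cst k False).congr fun u hu => ⟨False.elim, ?_⟩
    rintro ⟨e, h, -⟩
    omega
  | succ l ih =>
    refine (ih.or k (DN.eq k hF (TN.nS k l))).congr fun u hu => ⟨?_, ?_⟩
    · rintro (⟨e, h1, h2⟩ | h)
      · exact ⟨e, by omega, h2⟩
      · exact ⟨l, by omega, h⟩
    · rintro ⟨e, h1, h2⟩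
      rcases Nat.lt_or_ge e l with h3 | h3
      · exact Or.inl ⟨e, h3, h2⟩
      · obtain rfl : e = l := by omega
        exact Or.inr h2

end Y14aux

open Y14aux

/-- Y14 -/
theorem pf_Y14 (hNT : T_NT) (hQI4d : T_QI4d) : T_Y14 := by
  intro D κ b ha hb I F Z ξ0 v0 w0 hp
  have k : ZFm D.N := ha.ok.zfc.toZFCm.toZFm
  obtain ⟨hkd, -, htm, -⟩ := hQI4d
  obtain ⟨A, hA, hAm, ⟨SW, hSW, hW⟩, ⟨SL, hSL, hL⟩, ⟨S1, hS1, h1⟩, ⟨S2, hS2, h2⟩, ⟨S3, hS3, h3⟩,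
    ⟨S4, hS4, h4⟩⟩ := hNT D κ b ha hb
  have hHN := ha.ok.hN
  have hκN : D.N κ := k.trans _ hHN κ ha.kH
  have hIN : D.N I := k.trans _ hHN I hp.h
  have hZN : D.N Z := k.trans _ hHN Z hp.z
  have hFN : D.N F := hp.n
  have hFA : ∀ v ∈ I, ∀ ξ ∈ κ, app (app F v) ξ ∈ A := fun v hv ξ hξ =>
    (hAm _).2 ⟨ξ, hξ, (hp.t v hv).w ξ hξ⟩
  have hsub : ∀ ξ ∈ κ, ∀ η ∈ ξ, η ∈ κ := by
    intro ξ hξ η hη
    obtain ⟨κ', hκ'⟩ := ha.ord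
    rw [hκ'] at hξ ⊢
    exact (ZFSet.isOrdinal_toZFSet κ').isTransitive ξ hξ hη
  obtain ⟨x0, y0, z0, hx0, hy0, hz0, hc⟩ : ∃ x0 y0 z0, D.N x0 ∧ D.N y0 ∧ D.N z0 ∧
      (ξ0 ∈ κ → x0 = ξ0 ∧ y0 = v0 ∧ z0 = w0) := by
    by_cases h : ξ0 ∈ κ
    · obtain ⟨h5, h6, -⟩ := hp.v h
      exact ⟨ξ0, v0, w0, k.trans _ hκN _ h, k.trans _ hIN _ h5,
        k.trans _ hA _ ((hAm _).2 ⟨ξ0, h, h6⟩), fun _ => ⟨rfl, rfl, rfl⟩⟩
    · exact ⟨κ, κ, κ, hκN, hκN, hκN, fun h' => absurd h' h⟩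
  have kd' : ∀ {E : (ℕ → V) → V}, TN D.N E → TN D.N (fun w => kd (E w)) := fun h =>
    TN.of1 k (P := fun _ x => kd x) hkd h
  have tm' : ∀ {E : (ℕ → V) → V}, TN D.N E → TN D.N (fun w => tm (E w)) := fun h =>
    TN.of1 k (P := fun _ x => tm x) htm h
  -- the clauses, `u 0 = ξ`, `u 1 = q`
  have d1 : DN D.N (fun u => ZFSet.pair (u 0) (ZFSet.pair (u 1) (u 1)) ∈ SW) :=
    DN.mem k (TN.pair k (TN.var k 0) (TN.pair k (TN.var k 1) (TN.var k 1))) (TN.cst hSW)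
  have d2 : DN D.N (fun u => ∀ j ∈ b.u (fst (u 1)), kd j = nS b.l → tm j ∈ u 0) := by
    have h : DN D.N (fun w => kd (w 0) = nS b.l → tm (w 0) ∈ w 1) :=
      (DN.eq k (kd' (TN.var k 0)) (TN.nS k b.l)).imp k
        (DN.mem k (tm' (TN.var k 0)) (TN.var k 1))
    exact DN.ball (F := fun u => b.u (fst (u 1))) k (tn_u k hb.nU (TN.fst k (TN.var k 1))) h
  have d3 : DN D.N (fun u => ∀ v ∈ I,
      ZFSet.pair (u 0) (ZFSet.pair (app (app F v) (u 0)) (u 1)) ∈ SL) := by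
    have h : DN D.N (fun w => ZFSet.pair (w 1) (ZFSet.pair (app (app F (w 0)) (w 1)) (w 2)) ∈
        SL) :=
      DN.mem k (TN.pair k (TN.var k 1) (TN.pair k (TN.app k (TN.app k (TN.cst hFN) (TN.var k 0))
        (TN.var k 1)) (TN.var k 2))) (TN.cst hSL)
    exact DN.ball (F := fun _ => I) k (TN.cst hIN) h
  have d4 : DN D.N (fun u => ∀ v ∈ I,
      b.u (fst (u 1)) ∩ b.ut κ (app F v) = b.u (tK (app F v) (u 0))) := by
    have hv : TN D.N (fun w => app F (w 0)) := TN.app k (TN.cst hFN) (TN.var k 0)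
    have h : DN D.N (fun w => b.u (fst (w 2)) ∩ b.ut κ (app F (w 0)) =
        b.u (tK (app F (w 0)) (w 1))) :=
      DN.eq k (TN.inter k (tn_u k hb.nU (TN.fst k (TN.var k 2))) (tn_ut k hb.nU hκN hv))
        (tn_u k hb.nU (tn_tK k hv (TN.var k 1)))
    exact DN.ball (F := fun _ => I) k (TN.cst hIN) h
  have d5 : DN D.N (fun u => ξ0 ∈ κ → u 0 ⊆ x0 →
      b.u (fst (u 1)) ∩ b.u (fst z0) = b.u (tK (app F y0) (u 0))) :=
    (DN.cst k (ξ0 ∈ κ)).imp k ((DN.subset k (TN.var k 0) (TN.cst hx0)).imp k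
      (DN.eq k (TN.inter k (tn_u k hb.nU (TN.fst k (TN.var k 1)))
        (tn_u k hb.nU (TN.fst k (TN.cst hz0))))
        (tn_u k hb.nU (tn_tK k (TN.app k (TN.cst hFN) (TN.cst hy0)) (TN.var k 0)))))
  have d6 : DN D.N (fun u => ξ0 ∈ κ → x0 ∈ u 0 → b.u (fst z0) ⊆ b.u (fst (u 1))) :=
    (DN.cst k (ξ0 ∈ κ)).imp k ((DN.mem k (TN.cst hx0) (TN.var k 0)).imp k
      (DN.subset k (tn_u k hb.nU (TN.fst k (TN.cst hz0)))
        (tn_u k hb.nU (TN.fst k (TN.var k 1)))))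
  have d7 : DN D.N (fun u => ∀ i ∈ b.u (fst (u 1)), (∀ v ∈ I, i ∉ b.ut κ (app F v)) →
      ¬ (ξ0 ∈ κ ∧ i ∈ b.u (fst z0)) → (∃ e : ℕ, e < b.l + 1 ∧ kd i = nS e) ∧ i ∉ Z) := by
    have hv : DN D.N (fun w => w 1 ∉ b.ut κ (app F (w 0))) :=
      (DN.mem k (TN.var k 1) (tn_ut k hb.nU hκN (TN.app k (TN.cst hFN) (TN.var k 0)))).not
    have h : DN D.N (fun w => (∀ v ∈ I, w 0 ∉ b.ut κ (app F v)) →
        ¬ (ξ0 ∈ κ ∧ w 0 ∈ b.u (fst z0)) → (∃ e : ℕ, e < b.l + 1 ∧ kd (w 0) = nS e) ∧ w 0 ∉ Z) :=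
      (DN.ball (F := fun _ => I) k (TN.cst hIN) hv).imp k
        ((((DN.cst k (ξ0 ∈ κ)).and k (DN.mem k (TN.var k 0)
          (tn_u k hb.nU (TN.fst k (TN.cst hz0))))).not).imp k
          ((dn_kl k (b.l + 1) (kd' (TN.var k 0))).and k
            (DN.mem k (TN.var k 0) (TN.cst hZN)).not))
    exact DN.ball (F := fun u => b.u (fst (u 1))) k (tn_u k hb.nU (TN.fst k (TN.var k 1))) h
  have dP := d1.and k (d2.and k (d3.and k (d4.and k (d5.and k (d6.and k d7)))))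
  have hPg : ∀ ξ ∈ κ, ∀ q ∈ A, (ZFSet.pair ξ (ZFSet.pair q q) ∈ SW ∧
      (∀ j ∈ b.u (fst q), kd j = nS b.l → tm j ∈ ξ) ∧
      (∀ v ∈ I, ZFSet.pair ξ (ZFSet.pair (app (app F v) ξ) q) ∈ SL) ∧
      (∀ v ∈ I, b.u (fst q) ∩ b.ut κ (app F v) = b.u (tK (app F v) ξ)) ∧
      (ξ0 ∈ κ → ξ ⊆ x0 → b.u (fst q) ∩ b.u (fst z0) = b.u (tK (app F y0) ξ)) ∧
      (ξ0 ∈ κ → x0 ∈ ξ → b.u (fst z0) ⊆ b.u (fst q)) ∧
      (∀ i ∈ b.u (fst q), (∀ v ∈ I, i ∉ b.ut κ (app F v)) →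
      ¬ (ξ0 ∈ κ ∧ i ∈ b.u (fst z0)) → (∃ e : ℕ, e < b.l + 1 ∧ kd i = nS e) ∧ i ∉ Z)) ↔
      b.Pg D κ I F Z ξ0 v0 w0 ξ q := by
    intro ξ hξ q hq
    constructor
    · rintro ⟨c1, c2, c3, c4, c5, c6, c7⟩
      refine ⟨(hW ξ hξ q hq q hq).1 c1, c2, fun v hv => (hL ξ hξ _ (hFA v hv ξ hξ) q hq).1
        (c3 v hv), c4, ?_, ?_, ?_⟩
      · intro h
        obtain ⟨rfl, rfl, rfl⟩ := hc h
        exact c5 h
      · intro h
        obtain ⟨rfl, rfl, rfl⟩ := hc h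
        exact c6 h
      · intro i hi h5 h6
        refine c7 i hi h5 fun h7 => h6 ⟨h7.1, ?_⟩
        obtain ⟨rfl, rfl, rfl⟩ := hc h7.1
        exact h7.2
    · rintro ⟨c1, c2, c3, c4, c5, c6, c7⟩
      refine ⟨(hW ξ hξ q hq q hq).2 c1, c2, fun v hv => (hL ξ hξ _ (hFA v hv ξ hξ) q hq).2
        (c3 v hv), c4, ?_, ?_, ?_⟩
      · intro h
        obtain ⟨rfl, rfl, rfl⟩ := hc h
        exact c5 h
      · intro h
        obtain ⟨rfl, rfl, rfl⟩ := hc h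
        exact c6 h
      · intro i hi h5 h6
        refine c7 i hi h5 fun h7 => h6 ⟨h7.1, ?_⟩
        obtain ⟨rfl, rfl, rfl⟩ := hc h7.1
        exact h7.2
  have hprod : ∀ {x y : V}, D.N x → D.N y → D.N (ZFSet.prod x y) := by
    intro x y hx hy
    exact TN.mem k (TN.prod k (TN.cst hx) (TN.cst hy)) (u := fun _ => x) fun _ => hx
  have v0' : TN D.N (fun w => w 0) := TN.var k 0
  -- the set `S1`
  have e1 := (DN.at2 k (P := fun ξ q => ZFSet.pair ξ (ZFSet.pair q q) ∈ SW ∧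
      (∀ j ∈ b.u (fst q), kd j = nS b.l → tm j ∈ ξ) ∧
      (∀ v ∈ I, ZFSet.pair ξ (ZFSet.pair (app (app F v) ξ) q) ∈ SL) ∧
      (∀ v ∈ I, b.u (fst q) ∩ b.ut κ (app F v) = b.u (tK (app F v) ξ)) ∧
      (ξ0 ∈ κ → ξ ⊆ x0 → b.u (fst q) ∩ b.u (fst z0) = b.u (tK (app F y0) ξ)) ∧
      (ξ0 ∈ κ → x0 ∈ ξ → b.u (fst z0) ⊆ b.u (fst q)) ∧
      (∀ i ∈ b.u (fst q), (∀ v ∈ I, i ∉ b.ut κ (app F v)) →
      ¬ (ξ0 ∈ κ ∧ i ∈ b.u (fst z0)) → (∃ e : ℕ, e < b.l + 1 ∧ kd i = nS e) ∧ i ∉ Z)) dP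
      (TN.fst k v0') (TN.snd k v0')).sepN k (hprod hκN hA) (u := fun _ => κ) fun _ => hκN
  have e2 : D.N ((ZFSet.prod κ (ZFSet.prod κ (ZFSet.prod A A))).sep fun z =>
      ZFSet.pair (fst z) (snd (snd z)) ∈ SL ∧ ∀ ζ ∈ fst (snd z), fst z ⊆ ζ →
        ZFSet.pair ζ (snd (snd z)) ∈ S1) := by
    have h : DN D.N (fun w => fst (w 1) ⊆ w 0 → ZFSet.pair (w 0) (snd (snd (w 1))) ∈ S1) :=
      (DN.subset k (TN.fst k (TN.var k 1)) (TN.var k 0)).imp k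
        (DN.mem k (TN.pair k (TN.var k 0) (TN.snd k (TN.snd k (TN.var k 1)))) (TN.cst hS1))
    have h' : DN D.N (fun w => ZFSet.pair (fst (w 0)) (snd (snd (w 0))) ∈ SL ∧
        ∀ ζ ∈ fst (snd (w 0)), fst (w 0) ⊆ ζ → ZFSet.pair ζ (snd (snd (w 0))) ∈ S1) :=
      (DN.mem k (TN.pair k (TN.fst k v0') (TN.snd k (TN.snd k v0'))) (TN.cst hSL)).and k
        (DN.ball (F := fun w => fst (snd (w 0))) k (TN.fst k (TN.snd k v0')) h)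
    exact h'.sepN k (hprod hκN (hprod hκN (hprod hA hA))) (u := fun _ => κ) fun _ => hκN
  have e3 : D.N ((ZFSet.prod κ (ZFSet.prod A A)).sep fun z =>
      ZFSet.pair (fst (fst (snd z))) (fst (snd (snd z))) ∈ b.Rc ∧ z ∈ S2 ∧ z ∈ S3 ∧ z ∈ S4) := by
    have h' : DN D.N (fun w => ZFSet.pair (fst (fst (snd (w 0)))) (fst (snd (snd (w 0)))) ∈ b.Rc ∧
        w 0 ∈ S2 ∧ w 0 ∈ S3 ∧ w 0 ∈ S4) :=
      (DN.mem k (TN.pair k (TN.fst k (TN.fst k (TN.snd k v0')))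
        (TN.fst k (TN.snd k (TN.snd k v0')))) (TN.cst hb.nR)).and k
        ((DN.mem k v0' (TN.cst hS2)).and k ((DN.mem k v0' (TN.cst hS3)).and k
          (DN.mem k v0' (TN.cst hS4))))
    exact h'.sepN k (hprod hκN (hprod hA hA)) (u := fun _ => κ) fun _ => hκN
  refine ⟨A, _, _, _, hA, e1, e2, e3, ?_, ?_, ?_, ?_⟩
  · intro ξ hξ q hq
    exact (hAm q).2 ⟨ξ, hξ, hq.w⟩
  · intro ξ hξ q hq
    rw [ZFSet.mem_sep, ← hPg ξ hξ q hq]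
    simp only [cons_zero, fst_pair, snd_pair]
    constructor
    · rintro ⟨-, h⟩
      exact h
    · intro h
      exact ⟨ZFSet.pair_mem_prod.2 ⟨hξ, hq⟩, h⟩
  · intro ξ hξ η hη p hp q hq
    rw [ZFSet.mem_sep]
    simp only [fst_pair, snd_pair]
    have hηκ := hsub ξ hξ η hη
    constructor
    · rintro ⟨-, h5, h6⟩
      exact ⟨(hL η hηκ p hp q hq).1 h5, fun ζ h7 h8 => (h1 ζ (hsub ξ hξ ζ h8) p hp q hq).1
        (h6 ζ h8 h7)⟩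
    · rintro ⟨h5, h6⟩
      exact ⟨ZFSet.pair_mem_prod.2 ⟨hηκ, ZFSet.pair_mem_prod.2 ⟨hξ, ZFSet.pair_mem_prod.2
        ⟨hp, hq⟩⟩⟩, (hL η hηκ p hp q hq).2 h5, fun ζ h8 h7 =>
          (h1 ζ (hsub ξ hξ ζ h8) p hp q hq).2 (h6 ζ h7 h8)⟩
  · intro ξ hξ p hp q hq
    rw [ZFSet.mem_sep]
    simp only [fst_pair, snd_pair]
    constructor
    · rintro ⟨-, h5, h6, h7, h8⟩
      exact ⟨h5, (h2 ξ hξ p hp q hq).1 h6, (h3 ξ hξ p hp q hq).1 h7, (h4 ξ hξ p hp q hq).1 h8⟩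
    · rintro ⟨h5, h6, h7, h8⟩
      exact ⟨ZFSet.pair_mem_prod.2 ⟨hξ, ZFSet.pair_mem_prod.2 ⟨hp, hq⟩⟩, h5,
        (h2 ξ hξ p hp q hq).2 h6, (h3 ξ hξ p hp q hq).2 h7, (h4 ξ hξ p hp q hq).2 h8⟩

end SE.UZ
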