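import Pool.Agent.H72.UZ.TarY
import Pool.Agent.H45.UZ.TarA
import Pool.Agent.H41.UZ.TR

/-! # MP_f6fd33_lc, module Y6: selection of values for a decided relation -/

set_option linter.unusedVariables false

open Ordinal Order Set
open scoped ZFSet

namespace SE.UZ

open SF _root_.UZ

namespace Y6aux

/-- `q` is below a condition which puts `(X, Y)` into the relation -/
def Ya (P O q X Y : V) : Prop := ∃ p ∈ P, Le q p ∧ ZFSet.pair p (ZFSet.pair X Y) ∈ O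

/-- `q` is incompatible with the conditions which put `(X, app f γ)` into the relation, `γ ∈ β` -/
def Yb (P O f q X β : V) : Prop := ∀ γ ∈ β, ∀ p ∈ P,
  ZFSet.pair p (ZFSet.pair X (app f γ)) ∈ O → ∀ r ∈ P, Le r q → ¬ Le r p

end Y6aux

open Y6aux

/-- Y6 -/
theorem pf_Y6 (hBBa : T_BBa) (hBD : T_BD) (hBJ : T_BJ) (hQRN : T_QRN) : T_Y6 := by
  intro D κ ha ρ hρ hC Q O hO hQ e he
  have hN : ZFCm D.N := ha.ok.zfc.toZFCm
  have k : ZFm D.N := hN.toZFm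
  have hρN : D.N ρ := k.trans _ ha.ok.hN ρ hρ
  obtain ⟨-, -, -, hPN, hJ⟩ := hBJ D ha.ok
  have hP : D.N (D.P ρ) := (hPN ρ hρN).1
  obtain ⟨-, hJ⟩ := hJ ρ hρN hC
  obtain ⟨S, hS, hSm⟩ := ha.nam ρ hρ hC
  have hSN : D.N S := k.trans _ ha.ok.hN S hS
  obtain ⟨α, f, hf, hon⟩ := hN.wo S hSN
  have hα : D.N α.toZFSet := by
    have e1 : dm f = α.toZFSet := by
      ext a
      rw [mem_dm]
      constructor
      · rintro ⟨b, hb⟩
        exact (ZFSet.pair_mem_prod.1 (hon.1.1 hb)).1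
      · intro ha
        obtain ⟨b, hb, -⟩ := hon.1.2 a ha
        exact ⟨b, hb⟩
    rw [← e1]
    exact TN.mem k (TN.dm k (TN.var k 0)) (u := fun _ => f) fun _ => hf
  have hfS : ∀ β < α, app f β.toZFSet ∈ S := fun β hβ =>
    app_mem hon.1 (toZFSet_mem_toZFSet_iff.2 hβ)
  have hfo : ∀ Y ∈ S, ∃ β < α, app f β.toZFSet = Y := by
    intro Y hY
    obtain ⟨a, ha1, ha2⟩ := hon.2 Y hY
    obtain ⟨β, hβ, rfl⟩ := Ordinal.mem_toZFSet_iff.1 ha1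
    exact ⟨β, hβ, app_eq (svl_of_isFunc hon.1) ha2⟩
  have hle : DN D.N (fun u => Le (u 0) (u 1)) := DN.of k hBBa.2.2.2.2.2.2.2.2.2.2.2.1
  -- the relations
  have hYa : DN D.N (fun u => Ya (D.P ρ) O (u 0) (u 1) (u 2)) := by
    have h1 : DN D.N (fun w => Le (w 1) (w 0) ∧ ZFSet.pair (w 0) (ZFSet.pair (w 2) (w 3)) ∈ O) :=
      (DN.at2 k hle (TN.var k 1) (TN.var k 0)).and k
        (DN.mem k (TN.pair k (TN.var k 0) (TN.pair k (TN.var k 2) (TN.var k 3))) (TN.cst hO))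
    exact DN.bex (F := fun _ => D.P ρ) k (TN.cst hP) h1
  have hYb : DN D.N (fun u => Yb (D.P ρ) O f (u 0) (u 1) (u 2)) := by
    have h1 : DN D.N (fun w => Le (w 0) (w 3) → ¬ Le (w 0) (w 1)) :=
      (DN.at2 k hle (TN.var k 0) (TN.var k 3)).imp k
        (DN.at2 k hle (TN.var k 0) (TN.var k 1)).not
    have h2 : DN D.N (fun w => ZFSet.pair (w 0) (ZFSet.pair (w 3) (app f (w 1))) ∈ O →
        ∀ r ∈ D.P ρ, Le r (w 2) → ¬ Le r (w 0)) :=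
      (DN.mem k (TN.pair k (TN.var k 0) (TN.pair k (TN.var k 3)
        (TN.app k (TN.cst hf) (TN.var k 1)))) (TN.cst hO)).imp k
        (DN.ball (F := fun _ => D.P ρ) k (TN.cst hP) h1)
    have h3 : DN D.N (fun w => ∀ p ∈ D.P ρ,
        ZFSet.pair p (ZFSet.pair (w 2) (app f (w 0))) ∈ O →
          ∀ r ∈ D.P ρ, Le r (w 1) → ¬ Le r p) :=
      DN.ball (F := fun _ => D.P ρ) k (TN.cst hP) h2
    exact DN.ball (F := fun u => u 2) k (TN.var k 2) h3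
  -- the history
  have hE : D.N ((ZFSet.prod (D.P ρ) (ZFSet.prod S α.toZFSet)).sep fun z =>
      Ya (D.P ρ) O (fst z) (fst (snd z)) (app f (snd (snd z))) ∧
      Yb (D.P ρ) O f (fst z) (fst (snd z)) (snd (snd z))) := by
    have z0 : TN D.N (fun w => w 0) := TN.var k 0
    have h1 : DN D.N (fun w => Ya (D.P ρ) O (fst (w 0)) (fst (snd (w 0)))
        (app f (snd (snd (w 0)))) ∧
        Yb (D.P ρ) O f (fst (w 0)) (fst (snd (w 0))) (snd (snd (w 0)))) :=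
      (DN.at3 k (P := fun x y z => Ya (D.P ρ) O x y z) hYa (TN.fst k z0)
        (TN.fst k (TN.snd k z0)) (TN.app k (TN.cst hf) (TN.snd k (TN.snd k z0)))).and k
        (DN.at3 k (P := fun x y z => Yb (D.P ρ) O f x y z) hYb (TN.fst k z0)
          (TN.fst k (TN.snd k z0)) (TN.snd k (TN.snd k z0)))
    have h2 : D.N (ZFSet.prod (D.P ρ) (ZFSet.prod S α.toZFSet)) :=
      TN.mem k (TN.prod k (TN.cst hP) (TN.prod k (TN.cst hSN) (TN.cst hα)))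
        (u := fun _ => ρ) fun _ => hρN
    exact h1.sepN k h2 (u := fun _ => ρ) fun _ => hρN
  set E := (ZFSet.prod (D.P ρ) (ZFSet.prod S α.toZFSet)).sep fun z =>
      Ya (D.P ρ) O (fst z) (fst (snd z)) (app f (snd (snd z))) ∧
      Yb (D.P ρ) O f (fst z) (fst (snd z)) (snd (snd z)) with hEd
  have hh : D.N (imS E fun z => ht (fst z) (fst (snd z)) (app f (snd (snd z))) e.toZFSet) := by
    have z0 : TN D.N (fun w => w 0) := TN.var k 0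
    exact TN.mem k (TN.image (F := fun _ => E) (G := fun w => ht (fst (w 0)) (fst (snd (w 0)))
      (app f (snd (snd (w 0)))) e.toZFSet) k (TN.cst hE) (TN.pair k (TN.fst k z0)
        (TN.pair k (TN.fst k (TN.snd k z0)) (TN.pair k (TN.app k (TN.cst hf)
          (TN.snd k (TN.snd k z0))) (TN.cst he))))) (u := fun _ => ρ) fun _ => hρN
  have hmem : ∀ q X Y c, ht q X Y c ∈ (imS E fun z => ht (fst z) (fst (snd z))
      (app f (snd (snd z))) e.toZFSet) ↔ q ∈ D.P ρ ∧ X ∈ S ∧ c = e.toZFSet ∧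
        ∃ β < α, Y = app f β.toZFSet ∧ Ya (D.P ρ) O q X Y ∧ Yb (D.P ρ) O f q X β.toZFSet := by
    intro q X Y c
    rw [mem_imS]
    constructor
    · rintro ⟨z, hz, h1⟩
      rw [hEd] at hz
      obtain ⟨hz1, hz2, hz3⟩ := ZFSet.mem_sep.1 hz
      obtain ⟨q', hq', w, hw, rfl⟩ := ZFSet.mem_prod.1 hz1
      obtain ⟨X', hX', b, hb, rfl⟩ := ZFSet.mem_prod.1 hw
      obtain ⟨β, hβ, rfl⟩ := Ordinal.mem_toZFSet_iff.1 hb
      simp only [fst_pair, snd_pair] at h1 hz2 hz3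
      unfold ht at h1
      obtain ⟨e1, h1⟩ := ZFSet.pair_inj.1 h1
      obtain ⟨e2, h1⟩ := ZFSet.pair_inj.1 h1
      obtain ⟨e3, e4⟩ := ZFSet.pair_inj.1 h1
      subst e1 e2 e3
      exact ⟨hq', hX', e4.symm, β, hβ, rfl, hz2, hz3⟩
    · rintro ⟨h1, h2, rfl, β, hβ, rfl, h3, h4⟩
      refine ⟨ZFSet.pair q (ZFSet.pair X β.toZFSet), ?_, ?_⟩
      · rw [hEd]
        refine ZFSet.mem_sep.2 ⟨ZFSet.pair_mem_prod.2 ⟨h1, ZFSet.pair_mem_prod.2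
          ⟨h2, toZFSet_mem_toZFSet_iff.2 hβ⟩⟩, ?_⟩
        simp only [fst_pair, snd_pair]
        exact ⟨h3, h4⟩
      · simp only [fst_pair, snd_pair]
  refine ⟨_, ⟨hh, ?_⟩, ?_⟩
  · intro z hz
    have hz' := hz
    obtain ⟨z', -, rfl⟩ := mem_imS.1 hz
    obtain ⟨h1, h2, h3, β, hβ, h4, h5⟩ := (hmem _ _ _ _).1 hz'
    exact ⟨_, h1, _, _, (hSm _).1 h2, (hSm _).1 (by rw [h4]; exact hfS β hβ), rfl⟩
  intro G hG
  obtain ⟨-, ⟨hGP, hG0, hGu, hGd, -⟩, hGg⟩ := hJ G hG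
  obtain ⟨hnm, -⟩ := hQRN D ha.ok ρ G ρ hρN hC hG hρN (fun _ h => h) (fun i hi => (hC i hi).2)
  -- the entries
  have hent : ∀ X y c, Ent (imS E fun z => ht (fst z) (fst (snd z))
      (app f (snd (snd z))) e.toZFSet) G X y c → c = e ∧ RR D ρ G X ∧ RR D ρ G y ∧ Q G X y ∧
        ∃ β < α, y = ev G (app f β.toZFSet) ∧ ∀ γ < β, ¬ Q G X (ev G (app f γ.toZFSet)) := by
    rintro X y c ⟨q, hq, X', Y', h1, rfl, rfl⟩
    obtain ⟨h1, h2, h3, β, hβ, h4, ⟨p, hp, hp1, hp2⟩, h6⟩ := (hmem _ _ _ _).1 h1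
    have hX' := (hSm _).1 h2
    have hY' := (hSm _).1 (by rw [h4]; exact hfS β hβ : Y' ∈ S)
    refine ⟨Ordinal.toZFSet_injective h3, (hnm _).2 ⟨X', hX'.1, hX'.2, rfl⟩,
      (hnm _).2 ⟨Y', hY'.1, hY'.2, rfl⟩, (hQ G hG X' Y' hX' hY').2 ⟨p, hGu q hq p hp hp1, hp2⟩,
      β, hβ, by rw [h4], ?_⟩
    intro γ hγ h7
    have hγS := (hSm _).1 (hfS γ (hγ.trans hβ))
    obtain ⟨p', hp', h8⟩ := (hQ G hG X' _ hX' hγS).1 h7
    obtain ⟨-, h9, h10, h11⟩ := hGd p' hp' q hq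
    exact h6 _ (toZFSet_mem_toZFSet_iff.2 hγ) p' (hGP hp') h8 _ (hGP h9) h10 h11
  refine ⟨fun X y c h => ?_, ?_, ?_⟩
  · obtain ⟨h1, h2, h3, h4, -⟩ := hent X y c h
    exact ⟨h1, h2, h3, h4⟩
  · intro X y hX hy hq
    obtain ⟨X', hX1, hX2, rfl⟩ := (hnm X).1 hX
    obtain ⟨Y', hY1, hY2, rfl⟩ := (hnm y).1 hy
    obtain ⟨β0, hβ0, h1⟩ := hfo Y' ((hSm _).2 ⟨hY1, hY2⟩)
    -- the least ordinal
    have hne : ({β : Ordinal.{0} | β < α ∧ Q G (ev G X') (ev G (app f β.toZFSet))}).Nonempty :=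
      ⟨β0, hβ0, by rw [h1]; exact hq⟩
    obtain ⟨hβ, hβQ⟩ := csInf_mem hne
    set β := sInf {β : Ordinal.{0} | β < α ∧ Q G (ev G X') (ev G (app f β.toZFSet))} with hβd
    have hmin : ∀ γ < β, ¬ Q G (ev G X') (ev G (app f γ.toZFSet)) := by
      intro γ hγ h2
      have h3 : γ ∈ {β : Ordinal.{0} | β < α ∧ Q G (ev G X') (ev G (app f β.toZFSet))} :=
        ⟨hγ.trans hβ, h2⟩
      exact absurd (csInf_le' h3) (not_le.2 hγ)
    have hβS := (hSm _).1 (hfS β hβ)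
    obtain ⟨p, hp, hpO⟩ := (hQ G hG X' _ ⟨hX1, hX2⟩ hβS).1 hβQ
    have hβN : D.N β.toZFSet := k.trans _ hα _ (toZFSet_mem_toZFSet_iff.2 hβ)
    -- the dense set
    have hDN : D.N ((D.P ρ).sep fun q => (∃ γ ∈ β.toZFSet, Ya (D.P ρ) O q X' (app f γ)) ∨
        Yb (D.P ρ) O f q X' β.toZFSet) := by
      have h2 : DN D.N (fun w => Ya (D.P ρ) O (w 1) X' (app f (w 0))) :=
        DN.at3 k (P := fun x y z => Ya (D.P ρ) O x y z) hYa (TN.var k 1) (TN.cst hX1)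
          (TN.app k (TN.cst hf) (TN.var k 0))
      have h3 : DN D.N (fun w => (∃ γ ∈ β.toZFSet, Ya (D.P ρ) O (w 0) X' (app f γ)) ∨
          Yb (D.P ρ) O f (w 0) X' β.toZFSet) :=
        (DN.bex (F := fun _ => β.toZFSet) k (TN.cst hβN) h2).or k
          (DN.at3 k (P := fun x y z => Yb (D.P ρ) O f x y z) hYb (TN.var k 0) (TN.cst hX1)
            (TN.cst hβN))
      exact h3.sepN k hP (u := fun _ => ρ) fun _ => hρN
    obtain ⟨q, hq, hq1, -⟩ := hGg _ ∅ hDN hG0 (by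
      intro q hq _
      by_cases h2 : ∃ γ ∈ β.toZFSet, ∃ p ∈ D.P ρ,
          ZFSet.pair p (ZFSet.pair X' (app f γ)) ∈ O ∧ ∃ r ∈ D.P ρ, Le r q ∧ Le r p
      · obtain ⟨γ, hγ, p, hp, h3, r, hr, h4, h5⟩ := h2
        exact ⟨r, ZFSet.mem_sep.2 ⟨hr, Or.inl ⟨γ, hγ, p, hp, h5, h3⟩⟩, hr, h4⟩
      · refine ⟨q, ZFSet.mem_sep.2 ⟨hq, Or.inr ?_⟩, hq, (hBD.2.2.2.1 _ _ q hq).1⟩
        intro γ hγ p hp h3 r hr h4 h5
        exact h2 ⟨γ, hγ, p, hp, h3, r, hr, h4, h5⟩)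
    obtain ⟨hq2, hq3⟩ := ZFSet.mem_sep.1 hq1
    have hq4 : Yb (D.P ρ) O f q X' β.toZFSet := by
      rcases hq3 with ⟨γ, hγ, p', hp', h3, h4⟩ | h3
      · exfalso
        obtain ⟨γ', hγ', rfl⟩ := Ordinal.mem_toZFSet_iff.1 hγ
        exact hmin γ' hγ' ((hQ G hG X' _ ⟨hX1, hX2⟩ ((hSm _).1 (hfS γ' (hγ'.trans hβ)))).2
          ⟨p', hGu q hq p' hp' h3, h4⟩)
      · exact h3
    obtain ⟨-, h9, h10, h11⟩ := hGd p hp q hq
    refine ⟨ev G (app f β.toZFSet), jn q p, h9, X', app f β.toZFSet, (hmem _ _ _ _).2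
      ⟨hGP h9, (hSm _).2 ⟨hX1, hX2⟩, rfl, β, hβ, rfl, ⟨p, hGP hp, h11, hpO⟩, ?_⟩, rfl, rfl⟩
    intro γ hγ p' hp' h3 r hr h4 h5
    exact hq4 γ hγ p' hp' h3 r hr
      (hBD.2.2.2.2.1 D.L ρ q (jn q p) r hq2 (hGP h9) hr h4 h10) h5
  · intro X y y' c c' h1 h2
    obtain ⟨-, -, -, hq1, β1, hβ1, rfl, hm1⟩ := hent X y c h1
    obtain ⟨-, -, -, hq2, β2, hβ2, rfl, hm2⟩ := hent X _ c' h2
    rcases lt_trichotomy β1 β2 with h3 | h3 | h3
    · exact absurd hq1 (hm2 β1 h3)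
    · rw [h3]
    · exact absurd hq2 (hm1 β2 h3)

end SE.UZ
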