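import Pool.Agent.H41.UZ.UF
import Pool.Agent.H41.UZ.TarI
import Pool.Agent.H72.UZ.TarY
import Pool.Agent.H45.UZ.TarA

/-! # MP_f6fd33_lc, module Y7: the relation (alpha) or (beta) is decided -/

set_option linter.unusedVariables false

open Ordinal Order Set
open scoped ZFSet

namespace SE.UZ

open SF _root_.UZ

namespace Y7aux

variable {D : Cx} {κ : V} {b : BS}

theorem wd_wo {σ : Ordinal.{0}} {B h : V} (hw : b.Wd D σ B h) : b.Wo D σ B h := by
  rw [BS.Wd] at hw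
  exact hw.wo

theorem ew_cg {F F' : Fam} {σ : Ordinal.{0}} (hF : ∀ B h, F σ B h ↔ F' σ B h) {B h G B' h' G' : V} :
    b.Ew D F σ B h G B' h' G' ↔ b.Ew D F' σ B h G B' h' G' :=
  ⟨fun k => ⟨(hF _ _).1 k.w, k.le, k.g, k.r⟩, fun k => ⟨(hF _ _).2 k.w, k.le, k.g, k.r⟩⟩

theorem kb_cg {F F' : Fam} {σ : Ordinal.{0}} (hF : ∀ B h, F σ B h ↔ F' σ B h) {B h G X y : V} :
    b.Kb D F σ B h G X y ↔ b.Kb D F' σ B h G X y := by
  unfold BS.Kb
  simp only [ew_cg hF]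

theorem nn_cg {F F' : Fam} {σ : Ordinal.{0}} (hF : ∀ B h, F σ B h ↔ F' σ B h) {B h G X : V} :
    b.Nn D F σ B h G X ↔ b.Nn D F' σ B h G X := by
  unfold BS.Nn
  simp only [ew_cg hF, kb_cg hF]

/-- the table of the worlds of one stage -/
theorem table (hIW : T_IW) (hA : Amb D κ) (hb : b.Ok D κ) {σ : Ordinal.{0}} (hσ : D.N σ.toZFSet) :
    ∃ t, D.N t ∧ ∀ B h, Ft b t σ B h ↔ b.Wd D σ B h := by
  have hN := hA.ok.zfm
  have hs : D.N (succ σ).toZFSet := by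
    rw [Order.succ_eq_add_one, Ordinal.toZFSet_add_one]
    exact TN.mem hN (TN.ins hN (TN.cst hσ) (TN.cst hσ)) (u := fun _ => σ.toZFSet) fun _ => hσ
  obtain ⟨A, hAN, hA1⟩ := (hIW D κ b hA hb (succ σ) hs).1
  set e0 := σ.toZFSet with he0
  have hu : In D.N (fun _ => e0) := fun _ => hσ
  have hW : D.N ((rg A).sep fun z => ZFSet.pair e0 z ∈ A) :=
    TN.mem hN (TN.sep (S := fun w => ZFSet.pair e0 (w 0) ∈ A) hN
      (DN.mem hN (TN.pair hN (TN.cst hσ) (TN.var hN 0)) (TN.cst hAN)) (TN.rg hN (TN.cst hAN))) hu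
  have ht : D.N (resS ({e0} : V) fun _ => (rg A).sep fun z => ZFSet.pair e0 z ∈ A) :=
    TN.mem hN (TN.resS (G := fun _ => (rg A).sep fun z => ZFSet.pair e0 z ∈ A) hN
      (TN.sing hN (TN.cst hσ)) (TN.cst hW)) hu
  refine ⟨_, ht, fun B h => ?_⟩
  have e : app (resS ({e0} : V) fun _ => (rg A).sep fun z => ZFSet.pair e0 z ∈ A) e0 =
      (rg A).sep fun z => ZFSet.pair e0 z ∈ A := app_resS (ZFSet.mem_singleton.2 rfl)
  unfold Ft
  rw [← he0, e, ZFSet.mem_sep]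
  constructor
  · rintro ⟨_, _, h3⟩
    obtain ⟨σ', _, B', h', h4, h5⟩ := (hA1 _).1 h3
    obtain ⟨h6, h7⟩ := ZFSet.pair_inj.1 h5
    obtain ⟨rfl, rfl⟩ := ZFSet.pair_inj.1 h7
    have h8 : σ = σ' := Ordinal.toZFSet_injective h6
    subst h8
    exact h4
  · intro h3
    have h4 : ZFSet.pair e0 (ZFSet.pair B h) ∈ A :=
      (hA1 _).2 ⟨σ, lt_succ σ, B, h, h3, rfl⟩
    exact ⟨(wd_wo h3).o.o, mem_rg.2 ⟨_, h4⟩, h4⟩

end Y7aux

open Y7aux

/-- protected: decided -/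
theorem Y7aux.dc_pt {D : Cx} {κ : V} {b : BS} {C : (ℕ → V) → Prop} {r Bt : (ℕ → V) → V}
    {A1 : (ℕ → V) → V → V} (hL : Lb) (hD : D.Ok) (hb : b.Ok D κ)
    (hr : TN D.N r) (hB : TN D.N Bt) (h1 : Et D A1) (hBN : ∀ u, In D.N u → D.N (b.u (Bt u))) :
    Dc D C r (fun u G => b.Pt (Bt u) G (A1 u G)) := by
  have hN := hD.zfm
  have v0 := TN.var (N := D.N) hN 0
  have h2 : Dc D C r (fun u G => ∃ i, D.N i ∧ (i ∈ b.u (Bt u) ∧ kd i = nS (b.l + 2)) ∧
      A1 u G = prl (kc 1) (prm G i)) := by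
    refine Dc.ex (C' := fun _ => True) (S := fun w => w 0 ∈ b.u (Bt fun i => w (i + 1)) ∧
      kd (w 0) = nS (b.l + 2)) (X := fun w G => A1 (fun i => w (i + 1)) G =
        prl (kc 1) (prm G (w 0))) hL hD ?_ ?_ fun _ _ _ _ _ _ _ => trivial
    · exact (DN.mem hN v0 (TN.bu hD hb (hB.rn fun i => i + 1))).and hN
        (DN.eq hN (TN.kd hL hD v0) (TN.nS hN _))
    · refine Dc.eq hL hD (hr.rn fun i => i + 1) (h1.rn fun i => i + 1) ?_
      exact Et.prl hL hD (Et.kc hL hD 1) (Et.prl hL hD (Et.prl hL hD (Et.kc hL hD 1)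
        (Et.ev hL hD (Et.G hD) (Et.gr (TN.lZ hL hD v0)))) (Et.cg hL hD (Et.gr v0)))
  refine h2.cg fun u h3 _ _ G _ => ?_
  constructor
  · rintro ⟨i, _, ⟨h4, h5⟩, h6⟩
    exact ⟨i, h4, h5, h6⟩
  · rintro ⟨i, h4, h5, h6⟩
    exact ⟨i, hN.trans _ (hBN u h3) _ h4, ⟨h4, h5⟩, h6⟩

/-- Y7 -/
theorem pf_Y7 (hL : Lb) (hRH : T_RH) (hIW : T_IW) : T_Y7 := by
  intro D κ b hA hb I F hI hF hTw ξ hξ q u hq hu hqu hv
  have hD := hA.ok
  have hN := hD.zfm
  have hκN : D.N κ := hD.nH hA.kH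
  have hξN : D.N ξ := hN.trans _ hκN _ hξ
  have hσ : D.N (b.rho D ξ).toZFSet := ((hRH D κ b hA hb).1 ξ hξ).2.2
  obtain ⟨t, htN, ht⟩ := table hIW hA hb hσ
  have wq := wd_wo hq.w
  have wu := wd_wo hu.w
  have hqN : D.N (fst q) := hN.trans _ hb.nO _ wq.o.o
  have huN : D.N (fst u) := hN.trans _ hb.nO _ wu.o.o
  have hsu : D.N (snd u) := wu.hs.n
  have hcs := hb.cs _ wu.o.o
  have hcq := hb.cs _ wq.o.o
  have hρN : D.N (b.u (fst u)) := hD.nH hcs.h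
  have hρq : D.N (b.u (fst q)) := hD.nH hcq.h
  set ρ := b.u (fst u) with hρ
  have hr : TN D.N (fun _ : ℕ → V => b.u (fst u)) := TN.cst hρN
  have v0 := TN.var (N := D.N) hN 0
  have v1 := TN.var (N := D.N) hN 1
  have eX : Et D (fun w G => ev G (w 0)) := Et.ev hL hD (Et.G hD) (Et.gr v0)
  have eY : Et D (fun w G => ev G (w 1)) := Et.ev hL hD (Et.G hD) (Et.gr v1)
  have hins : D.N (insert ξ ξ) := hN.trans _ hκN _ (hA.suc ξ hξ)
  have tT : TN D.N (fun w : ℕ → V => app (app F (w 0)) (insert ξ ξ)) :=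
    TN.app hN (TN.app hN (TN.cst hF) v0) (TN.cst hins)
  have hqs := (hb.leO _ _ hqu).2.2
  -- (alpha)
  have dA : Dc D (fun _ => True) (fun _ => b.u (fst u)) (fun w G =>
      b.Qa D I F ξ G (ev G (w 0)) (ev G (w 1))) := by
    have h1 : Dc D (fun _ => True) (fun _ => b.u (fst u)) (fun w G => ∃ v, D.N v ∧ v ∈ I ∧
        Entv (tH (app F v) (insert ξ ξ)) G (ev G (w 0)) (ev G (w 1)) (b.rho D ξ).toZFSet) := by
      refine Dc.ex (C' := fun _ => True) (S := fun w => w 0 ∈ I) (r := fun _ => b.u (fst u))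
        (X := fun w G => Entv (tH (app F (w 0)) (insert ξ ξ)) G (ev G (w 1)) (ev G (w 2))
          (b.rho D ξ).toZFSet) hL hD (DN.mem hN v0 (TN.cst hI)) ?_ fun _ _ _ _ _ _ _ => trivial
      exact Dc.ent hL hD hr (Et.gr (TN.snd hN tT)) (eX.rn fun i => i + 1) (eY.rn fun i => i + 1)
        (Et.gr (TN.cst hσ))
    refine h1.cg fun w h3 _ _ G _ => ?_
    constructor
    · rintro ⟨v, _, h4, h5⟩
      exact ⟨v, h4, h5⟩
    · rintro ⟨v, h4, h5⟩
      exact ⟨v, hN.trans _ hI _ h4, h4, h5⟩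
  -- (beta)
  have dx : Dc D (fun _ => True) (fun _ => b.u (fst u)) (fun w G =>
      RR D (b.u (fst q)) G (ev G (w 0))) :=
    Dc.rr (s := fun _ => b.u (fst q)) hL hD hr (TN.cst hρq) eX fun _ _ _ _ => ⟨hcq.c, hqs⟩
  have dy : Dc D (fun _ => True) (fun _ => b.u (fst u)) (fun w G =>
      RR D (b.u (fst q)) G (ev G (w 1))) :=
    Dc.rr (s := fun _ => b.u (fst q)) hL hD hr (TN.cst hρq) eY fun _ _ _ _ => ⟨hcq.c, hqs⟩
  have dn : Dc D (fun _ => True) (fun _ => b.u (fst u)) (fun w G =>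
      ∀ v ∈ I, ¬ RR D (b.u (tK (app F v) (insert ξ ξ))) G (ev G (w 0))) := by
    have h1 : Dc D (fun _ => True) (fun _ => b.u (fst u)) (fun w G => ∀ v, D.N v → v ∈ I →
        ¬ RR D (b.u (tK (app F v) (insert ξ ξ))) G (ev G (w 0))) := by
      refine Dc.all (C' := fun w => w 0 ∈ I) (S := fun w => w 0 ∈ I) (r := fun _ => b.u (fst u))
        (X := fun w G => ¬ RR D (b.u (tK (app F (w 0)) (insert ξ ξ))) G (ev G (w 1)))
        hL hD hr (DN.mem hN v0 (TN.cst hI)) ?_ fun _ _ _ _ _ _ h => h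
      refine Dc.not hL hD hr (Dc.rr (s := fun w => b.u (tK (app F (w 0)) (insert ξ ξ))) hL hD hr
        (TN.bu hD hb (TN.fst hN tT)) (eX.rn fun i => i + 1) fun w _ _ h => ?_)
      have h2 := hb.leO _ _ (hv _ h)
      exact ⟨(hb.cs _ h2.1).c, h2.2.2⟩
    refine h1.cg fun w h3 _ _ G _ => ?_
    exact ⟨fun h v h4 => h v (hN.trans _ hI _ h4) h4, fun h v _ h4 => h v h4⟩
  have dd : Dc D (fun _ => True) (fun _ => b.u (fst u)) (fun w G => Dcc (snd u) G (ev G (w 0))) :=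
    Dc.dcc hL hD hr (TN.cst hsu) eX
  have dN : Dc D (fun _ => True) (fun _ => b.u (fst u)) (fun w G =>
      b.Nn D (b.Wd D) (b.rho D ξ) (fst u) (snd u) G (ev G (w 0))) := by
    refine (Dc.nn (t := fun _ => t) (e := fun _ => (b.rho D ξ).toZFSet) (Bt := fun _ => fst u)
      (h := fun _ => snd u) hL hD hb (TN.cst htN) (TN.cst hσ) (TN.cst huN) (TN.cst hsu) eX).cg
      fun w _ _ _ G _ => ?_
    simp only [Ordinal.rank_toZFSet]
    exact nn_cg ht
  have dK : Dc D (fun _ => True) (fun _ => b.u (fst u)) (fun w G =>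
      b.Kb D (b.Wd D) (b.rho D ξ) (fst u) (snd u) G (ev G (w 0)) (ev G (w 1))) := by
    refine (Dc.kb (t := fun _ => t) (e := fun _ => (b.rho D ξ).toZFSet) (Bt := fun _ => fst u)
      (h := fun _ => snd u) hL hD hb (TN.cst htN) (TN.cst hσ) (TN.cst huN) (TN.cst hsu) eX eY).cg
      fun w _ _ _ G _ => ?_
    simp only [Ordinal.rank_toZFSet]
    exact kb_cg ht
  have dp : Dc D (fun _ => True) (fun _ => b.u (fst u)) (fun w G =>
      b.Pt (fst q) G (ev G (w 0))) :=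
    dc_pt (Bt := fun _ => fst q) hL hD hb hr (TN.cst hqN) eX fun _ _ => hρq
  have ds : Dc D (fun _ => True) (fun _ => b.u (fst u)) (fun w G =>
      ∀ j ∈ b.u (fst u), b.Co j → ¬ Sn D G (ev G (w 0)) (ev G (w 1)) j) := by
    have h1 : Dc D (fun _ => True) (fun _ => b.u (fst u)) (fun w G => ∀ j, D.N j →
        (j ∈ b.u (fst u) ∧ b.Co j) →
        ¬ (RR D (vw j) G (ev G (w 0)) ∧ RR D (vw j) G (ev G (w 1)))) := by
      refine Dc.all (C' := fun w => w 0 ∈ b.u (fst u) ∧ b.Co (w 0))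
        (S := fun w => w 0 ∈ b.u (fst u) ∧ b.Co (w 0)) (r := fun _ => b.u (fst u))
        (X := fun w G => ¬ (RR D (vw (w 0)) G (ev G (w 1)) ∧ RR D (vw (w 0)) G (ev G (w 2))))
        hL hD hr ((DN.mem hN v0 (TN.cst hρN)).and hN (DN.co hL hD b v0)) ?_
        fun _ _ _ _ _ _ h => h
      have hc2 : ∀ w : ℕ → V, In D.N w → Cr D (fun _ => b.u (fst u)) w →
          (w 0 ∈ b.u (fst u) ∧ b.Co (w 0)) → Cld D.L (vw (w 0)) ∧ vw (w 0) ⊆ b.u (fst u) := by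
        rintro w _ _ ⟨h4, h5⟩
        obtain ⟨_, ⟨A, h6, h7⟩, _⟩ := wu.o.v _ h4 h5
        rw [← h7]
        exact ⟨(hb.cs _ (hb.leO _ _ h6).1).c, (hb.leO _ _ h6).2.2⟩
      refine Dc.not hL hD hr (Dc.and hL hD hr ?_ ?_)
      · exact Dc.rr (s := fun w => vw (w 0)) hL hD hr (TN.vw hL hD v0) (eX.rn fun i => i + 1) hc2
      · exact Dc.rr (s := fun w => vw (w 0)) hL hD hr (TN.vw hL hD v0) (eY.rn fun i => i + 1) hc2
    refine h1.cg fun w h3 _ _ G _ => ?_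
    constructor
    · intro h j h4 h5 h6
      exact h j (hN.trans _ hρN _ h4) ⟨h4, h5⟩ h6
    · intro h j _ h4 h6
      exact h j h4.1 h4.2 h6
  have dB : Dc D (fun _ => True) (fun _ => b.u (fst u)) (fun w G =>
      b.Qb D I F ξ q u G (ev G (w 0)) (ev G (w 1))) := by
    refine ((dx.and hL hD hr (dn.and hL hD hr ((dd.not hL hD hr).and hL hD hr (dN.and hL hD hr
      ((dp.not hL hD hr).and hL hD hr ((dy.not hL hD hr).and hL hD hr ((dK.not hL hD hr).and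
      hL hD hr ds)))))))).cg fun w _ _ _ G _ => ?_
    constructor
    · rintro ⟨c1, c2, c3, c4, c5, c6, c7, c8⟩
      exact ⟨c1, c2, c3, c4, c5, c6, c7, c8⟩
    · rintro ⟨c1, c2, c3, c4, c5, c6, c7, c8⟩
      exact ⟨c1, c2, c3, c4, c5, c6, c7, c8⟩
  obtain ⟨R, hR, hR2⟩ := dA.or hL hD hr dB
  obtain ⟨S, hS, hS2⟩ := hA.nam _ hcs.h hcs.c
  have hSN : D.N S := hD.nH hS
  have hP : D.N (Pos D.L ρ) := TN.mem hN (tnP hL hD (TN.cst hρN)) (u := fun _ => ρ) fun _ => hρN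
  have hR3 : DN D.N (fun z => R (cons (fst (z 0)) (cons (fst (snd (z 0)))
      fun _ => snd (snd (z 0))))) := by
    refine DN.at3 (P := fun p X Y => R (cons p (cons X fun _ => Y))) hN ?_ (TN.fst hN v0)
      (TN.fst hN (TN.snd hN v0)) (TN.snd hN (TN.snd hN v0))
    refine (hR.rn (fun i => match i with
      | 0 => 0
      | 1 => 1
      | i + 2 => 2)).congr fun w _ => ?_
    have e : (fun i => w (match i with
      | 0 => 0
      | 1 => 1
      | i + 2 => 2)) = cons (w 0) (cons (w 1) fun _ => w 2) := by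
      funext i
      match i with
      | 0 => rfl
      | 1 => rfl
      | i + 2 => rfl
    rw [e]
  have hO : D.N (((Pos D.L ρ).prod (S.prod S)).sep fun z => R (cons (fst z) (cons (fst (snd z))
      fun _ => snd (snd z)))) := by
    have h1 : D.N ((Pos D.L ρ).prod (S.prod S)) :=
      TN.mem hN (TN.prod hN (TN.cst hP) (TN.prod hN (TN.cst hSN) (TN.cst hSN)))
        (u := fun _ => ρ) fun _ => hρN
    exact hR3.sepN hN h1 (u := fun _ => ρ) fun _ => hρN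
  refine ⟨_, hO, fun G hG X Y hX hY => ?_⟩
  have hw : In D.N (cons X fun _ => Y) := In.cons (fun _ => hY.1) hX.1
  refine (hR2 (cons X fun _ => Y) hw ⟨hcs.h, hcs.c⟩ trivial G hG).trans ?_
  refine exists_congr fun p => and_congr_right fun hp => ?_
  rw [ZFSet.mem_sep, ZFSet.pair_mem_prod, ZFSet.pair_mem_prod]
  simp only [fst_pair, snd_pair]
  exact ⟨fun h => ⟨⟨gn_sub hG hp, (hS2 _).2 hX, (hS2 _).2 hY⟩, h⟩, fun h => h.2⟩

end SE.UZ
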