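import Pool.Agent.H5.UZ.Y7
import Pool.Agent.H72.UZ.TarW

/-! # MP_f6fd33_lc, module NT: the worlds of the stages `ρ_ξ` and the relations between them -/

set_option linter.unusedVariables false

open Ordinal Order Set
open scoped ZFSet

namespace SE.UZ

open SF _root_.UZ Y7aux

namespace NTaux

variable {D : Cx} {κ : V} {b : BS} {C : (ℕ → V) → Prop} {r s e t p q f g : (ℕ → V) → V}
  {A1 A2 : (ℕ → V) → V → V}

theorem gn_dm (hL : Lb) {ρ G p : V} (hc : Cld D.L ρ) (hG : D.Gn ρ G) (hp : p ∈ G) : dm p ⊆ ρ :=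
  ((hL.B.sub D.L ρ ρ p hc hc fun _ h => h).1 (gn_sub hG hp)).2

theorem gs_int (hL : Lb) {ρ G s : V} (hc : Cld D.L ρ) (hG : D.Gn ρ G) :
    gs G (s ∩ ρ) = gs G s := by
  unfold SE.gs
  ext p
  simp only [ZFSet.mem_sep]
  exact ⟨fun h => ⟨h.1, fun x hx => (ZFSet.mem_inter.1 (h.2 hx)).1⟩,
    fun h => ⟨h.1, fun x hx => ZFSet.mem_inter.2 ⟨h.2 hx, gn_dm hL hc hG h.1 hx⟩⟩⟩

theorem rr_int (hL : Lb) {ρ G s x : V} (hc : Cld D.L ρ) (hG : D.Gn ρ G) :
    RR D (s ∩ ρ) G x ↔ RR D s G x := by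
  unfold RR
  rw [gs_int hL hc hG]

theorem cld_int {L s ρ : V} (h1 : Cld L s) (h2 : Cld L ρ) : Cld L (s ∩ ρ) := by
  intro i hi
  obtain ⟨h3, h4⟩ := ZFSet.mem_inter.1 hi
  exact ⟨(h1 i h3).1, fun x hx => ZFSet.mem_inter.2 ⟨(h1 i h3).2 hx, (h2 i h4).2 hx⟩⟩

/-- if the restriction of `G` to `s` is generic then `s` is a subset -/
theorem sub_of_gn (hL : Lb) (hD : D.Ok) {ρ G s : V} (hc : Cld D.L ρ) (hG : D.Gn ρ G) (hs : D.N s)
    (hsc : Cld D.L s) (h : D.Gn s (gs G s)) : s ⊆ ρ := by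
  intro i hi
  obtain ⟨p, hp, h2, _⟩ := ((hL.BK D hD s _ hs hsc h).2 i hi).2.2.2.2.1 0
  unfold SE.gs at hp
  exact gn_dm hL hc hG (ZFSet.mem_sep.1 hp).1 h2

theorem ew_sub (hL : Lb) (hD : D.Ok) (hb : b.Ok D κ) {F : Fam} {σ : Ordinal.{0}}
    {B h G B' h' G' ρ : V} (hc : Cld D.L ρ) (hG : D.Gn ρ G)
    (hE : b.Ew D F σ B h (gs G (b.u B)) B' h' G') : b.u B ⊆ ρ := by
  obtain ⟨h1, h2, h3⟩ := hb.leO _ _ hE.le.le
  have c1 := hb.cs _ h1
  have c2 := hb.cs _ h2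
  have h4 := hL.B.res D hD _ _ G' ⟨c2.h, c2.c, hE.g⟩ c1.h c1.c h3
  rw [hE.r] at h4
  exact sub_of_gn hL hD hc hG (hD.nH c1.h) c1.c h4

/-- there is an entry of stage `e` for the real -/
theorem dc_exy (hL : Lb) (hD : D.Ok) (hr : TN D.N r) (hh : TN D.N f) (he : TN D.N e)
    (h1 : Et D A1) : Dc D C r (fun u G => ∃ y, Entv (f u) G (A1 u G) y (e u)) := by
  have h2 : Dc D C r (fun u G => ∃ y, D.W G y ∧ Entv (f u) G (A1 u G) y (e u)) := by
    refine Dc.exW (Z := fun u G y => Entv (f u) G (A1 u G) y (e u)) hL hD fun hy => ?_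
    exact Dc.ent hL hD (hr.rn fun i => i + 1) (Et.gr (hh.rn fun i => i + 1))
      (h1.rn fun i => i + 1) hy (Et.gr (he.rn fun i => i + 1))
  refine h2.cg fun u h3 h4 _ G hG => ?_
  obtain ⟨c1, c2, c3⟩ := zfmW hL hD (hD.nH h4.1) h4.2 hG
  exact ⟨fun ⟨y, _, h⟩ => ⟨y, h⟩, fun ⟨y, h⟩ =>
    ⟨y, (entv_mem hL c1 (c2 _ (TN.mem hD.zfm hh h3)) c3 h).2.1, h⟩⟩

/-- there is an entry -/
theorem dc_exe (hL : Lb) (hD : D.Ok) (hr : TN D.N r) (hh : TN D.N f)
    (h1 : Et D A1) (h2 : Et D A2) :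
    Dc D C r (fun u G => ∃ e, Ent (f u) G (A1 u G) (A2 u G) e) := by
  have h3 : Dc D C r (fun u G => ∃ z, D.N z ∧ IsOrd z ∧ Entv (f u) G (A1 u G) (A2 u G) z) := by
    refine Dc.ex (C' := fun _ => True) (S := fun w => IsOrd (w 0))
      (X := fun w G => Entv (f fun i => w (i + 1)) G (A1 (fun i => w (i + 1)) G)
        (A2 (fun i => w (i + 1)) G) (w 0)) hL hD (DN.isOrd hD.zfm (TN.var hD.zfm 0)) ?_
      fun _ _ _ _ _ _ _ => trivial
    exact Dc.ent hL hD (hr.rn fun i => i + 1) (Et.gr (hh.rn fun i => i + 1))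
      (h1.rn fun i => i + 1) (h2.rn fun i => i + 1) (Et.gr (TN.var hD.zfm 0))
  refine h3.cg fun u h4 h5 _ G hG => ?_
  constructor
  · rintro ⟨z, _, ⟨e, rfl⟩, h⟩
    exact ⟨e, h⟩
  · rintro ⟨e, h⟩
    refine ⟨_, ?_, ⟨e, rfl⟩, h⟩
    obtain ⟨q', _, X', Y', h6, _, _⟩ := h
    exact (zfm_ht hD.zfm (TN.mem hD.zfm hh h4) h6).2.2.2

/-- the condition -/
def Cp (b : BS) (p q : (ℕ → V) → V) (u : ℕ → V) : Prop :=
  fst (p u) ∈ b.Ob ∧ fst (q u) ∈ b.Ob

theorem dn_cp (hD : D.Ok) (hb : b.Ok D κ) (hp : TN D.N p) (hq : TN D.N q) :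
    DN D.N (Cp b p q) :=
  (DN.ob hD hb (TN.fst hD.zfm hp)).and hD.zfm (DN.ob hD hb (TN.fst hD.zfm hq))

theorem cp_int (hb : b.Ok D κ) {u : ℕ → V} (h : Cp b p q u) :
    Cld D.L (b.u (fst (p u)) ∩ b.u (fst (q u))) ∧
      b.u (fst (p u)) ∩ b.u (fst (q u)) ⊆ b.u (fst (q u)) :=
  ⟨cld_int (hb.cs _ h.1).c (hb.cs _ h.2).c, fun _ hx => (ZFSet.mem_inter.1 hx).2⟩

/-- (T1) -/
theorem dn_r1 (hL : Lb) (hD : D.Ok) (hb : b.Ok D κ) (he : TN D.N e) (hp : TN D.N p)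
    (hq : TN D.N q) : DN D.N (fun u => Cr D (fun u => b.u (fst (q u))) u ∧ Cp b p q u ∧
      ∀ G, D.Gn (b.u (fst (q u))) G → ∀ X, RR D (b.u (fst (p u)) ∩ b.u (fst (q u))) G X →
        ∀ y, RR D (b.u (fst (p u)) ∩ b.u (fst (q u))) G y → ¬ Entv (snd (q u)) G X y (e u)) := by
  have hN := hD.zfm
  have hr := TN.bu hD hb (TN.fst hN hq)
  have hs := TN.inter hN (TN.bu hD hb (TN.fst hN hp)) hr
  refine Dc.dnG hL hD hr (dn_cp hD hb hp hq) ?_
  refine Dc.allR' (Z := fun u G X => ∀ y, RR D (b.u (fst (p u)) ∩ b.u (fst (q u))) G y →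
    ¬ Entv (snd (q u)) G X y (e u)) hL hD hr hs (fun hX => ?_) fun u _ _ h => cp_int hb h
  refine Dc.allR' (C := fun w => Cp b p q fun i => w (i + 1))
    (r := fun w => b.u (fst (q fun i => w (i + 1))))
    (s := fun w => b.u (fst (p fun i => w (i + 1))) ∩ b.u (fst (q fun i => w (i + 1))))
    (Z := fun w G y => ¬ Entv (snd (q fun i => w (i + 1))) G
      (evs G (b.u (fst (p fun i => w (i + 1))) ∩ b.u (fst (q fun i => w (i + 1)))) (w 0)) y
        (e fun i => w (i + 1))) hL hD (hr.rn fun i => i + 1) (hs.rn fun i => i + 1)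
    (fun hy => ?_) fun u _ _ h => cp_int hb h
  have hr2 := hr.rn fun i => i + 2
  exact Dc.not hL hD hr2 (Dc.ent hL hD hr2 (Et.gr ((TN.snd hN hq).rn fun i => i + 2))
    (hX.rn fun i => i + 1) hy (Et.gr (he.rn fun i => i + 2)))

/-- (R4) -/
theorem dn_r4 (hL : Lb) (hD : D.Ok) (hb : b.Ok D κ) (hp : TN D.N p)
    (hq : TN D.N q) : DN D.N (fun u => Cr D (fun u => b.u (fst (q u))) u ∧ Cp b p q u ∧
      ∀ G, D.Gn (b.u (fst (q u))) G → ∀ X, RR D (b.u (fst (p u)) ∩ b.u (fst (q u))) G X →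
        ∀ y, RR D (b.u (fst (p u)) ∩ b.u (fst (q u))) G y → (¬ ∃ e, Ent (snd (p u)) G X y e) →
          ∃ j, D.N j ∧ (j ∈ b.u (fst (q u)) ∧ b.Co j) ∧ ev G (lZ j) = prl X y) := by
  have hN := hD.zfm
  have v0 := TN.var (N := D.N) hN 0
  have hr := TN.bu hD hb (TN.fst hN hq)
  have hs := TN.inter hN (TN.bu hD hb (TN.fst hN hp)) hr
  refine Dc.dnG hL hD hr (dn_cp hD hb hp hq) ?_
  refine Dc.allR' (Z := fun u G X => ∀ y, RR D (b.u (fst (p u)) ∩ b.u (fst (q u))) G y →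
    (¬ ∃ e, Ent (snd (p u)) G X y e) →
          ∃ j, D.N j ∧ (j ∈ b.u (fst (q u)) ∧ b.Co j) ∧ ev G (lZ j) = prl X y) hL hD hr hs
    (fun hX => ?_) fun u _ _ h => cp_int hb h
  refine Dc.allR' (C := fun w => Cp b p q fun i => w (i + 1))
    (r := fun w => b.u (fst (q fun i => w (i + 1))))
    (s := fun w => b.u (fst (p fun i => w (i + 1))) ∩ b.u (fst (q fun i => w (i + 1))))
    (Z := fun w G y => (¬ ∃ e, Ent (snd (p fun i => w (i + 1))) G
      (evs G (b.u (fst (p fun i => w (i + 1))) ∩ b.u (fst (q fun i => w (i + 1)))) (w 0)) y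
        e) → ∃ j, D.N j ∧ (j ∈ b.u (fst (q fun i => w (i + 1))) ∧ b.Co j) ∧ ev G (lZ j) =
          prl (evs G (b.u (fst (p fun i => w (i + 1))) ∩ b.u (fst (q fun i => w (i + 1)))) (w 0))
            y) hL hD (hr.rn fun i => i + 1) (hs.rn fun i => i + 1)
    (fun hy => ?_) fun u _ _ h => cp_int hb h
  have hr2 := hr.rn fun i => i + 2
  have hX2 := hX.rn fun i => i + 1
  refine Dc.imp hL hD hr2 (Dc.not hL hD hr2 (dc_exe hL hD hr2
    ((TN.snd hN hp).rn fun i => i + 2) hX2 hy)) ?_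
  refine Dc.ex (C' := fun _ => True) (r := fun w => b.u (fst (q fun i => w (i + 2))))
    (S := fun w => w 0 ∈ b.u (fst (q fun i => w (i + 3))) ∧ b.Co (w 0))
    (X := fun w G => ev G (lZ (w 0)) = prl
      (evs G (b.u (fst (p fun i => w (i + 3))) ∩ b.u (fst (q fun i => w (i + 3)))) (w 2))
      (evs G (b.u (fst (p fun i => w (i + 3))) ∩ b.u (fst (q fun i => w (i + 3)))) (w 1))) hL hD
    ((DN.mem hN v0 (hr.rn fun i => i + 3)).and hN (DN.co hL hD b v0)) ?_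
    fun _ _ _ _ _ _ _ => trivial
  exact Dc.eq hL hD (hr.rn fun i => i + 3) (Et.ev hL hD (Et.G hD) (Et.gr (TN.lZ hL hD v0)))
    (Et.prl hL hD (hX2.rn fun i => i + 1) (hy.rn fun i => i + 1))

/-- the condition, with the inclusion -/
def Cq (b : BS) (p q : (ℕ → V) → V) (u : ℕ → V) : Prop :=
  Cp b p q u ∧ b.u (fst (p u)) ⊆ b.u (fst (q u))

theorem dn_cq (hD : D.Ok) (hb : b.Ok D κ) (hp : TN D.N p) (hq : TN D.N q) :
    DN D.N (Cq b p q) :=
  (dn_cp hD hb hp hq).and hD.zfm (DN.subset hD.zfm (TN.bu hD hb (TN.fst hD.zfm hp))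
    (TN.bu hD hb (TN.fst hD.zfm hq)))

theorem cq_sub (hb : b.Ok D κ) {u : ℕ → V} (h : Cq b p q u) :
    Cld D.L (b.u (fst (p u))) ∧ b.u (fst (p u)) ⊆ b.u (fst (q u)) :=
  ⟨(hb.cs _ h.1.1).c, h.2⟩

/-- (T2) -/
theorem dn_r2 (hL : Lb) (hD : D.Ok) (hb : b.Ok D κ) (ht : TN D.N t) (he : TN D.N e)
    (hp : TN D.N p) (hq : TN D.N q) : DN D.N (fun u => Cr D (fun u => b.u (fst (q u))) u ∧
      Cq b p q u ∧ ∀ G, D.Gn (b.u (fst (q u))) G → ∀ X, RR D (b.u (fst (p u))) G X →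
        ¬ Dcc (snd (p u)) G X → b.Nn D (Ft b (t u)) (e u).rank (fst (p u)) (snd (p u))
          (gs G (b.u (fst (p u)))) X → ¬ b.Pt (fst (p u)) G X →
            ∃ y, Entv (snd (q u)) G X y (e u)) := by
  have hN := hD.zfm
  have hr := TN.bu hD hb (TN.fst hN hq)
  have hs := TN.bu hD hb (TN.fst hN hp)
  refine Dc.dnG hL hD hr (dn_cq hD hb hp hq) ?_
  refine Dc.allR' (Z := fun u G X => ¬ Dcc (snd (p u)) G X →
    b.Nn D (Ft b (t u)) (e u).rank (fst (p u)) (snd (p u)) (gs G (b.u (fst (p u)))) X →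
      ¬ b.Pt (fst (p u)) G X → ∃ y, Entv (snd (q u)) G X y (e u)) hL hD hr hs
    (fun hX => ?_) fun u _ _ h => cq_sub hb h
  have hr1 := hr.rn fun i => i + 1
  have hs1 := hs.rn fun i => i + 1
  have hp1 := (TN.fst hN hp).rn fun i => i + 1
  have hp2 := (TN.snd hN hp).rn fun i => i + 1
  refine Dc.imp hL hD hr1 (Dc.not hL hD hr1 (Dc.dcc hL hD hr1 hp2 hX)) (Dc.imp hL hD hr1 ?_
    (Dc.imp hL hD hr1 (Dc.not hL hD hr1 (dc_pt hL hD hb hr1 hp1 hX fun u hu => ?_)) ?_))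
  · have h2 : Dc D (fun _ => True) (fun w => b.u (fst (p fun i => w (i + 1)))) (fun w G =>
        b.Nn D (Ft b (t fun i => w (i + 1))) (e fun i => w (i + 1)).rank
          (fst (p fun i => w (i + 1))) (snd (p fun i => w (i + 1))) G
          (evs G (b.u (fst (p fun i => w (i + 1)))) (w 0))) :=
      Dc.nn hL hD hb (ht.rn fun i => i + 1) (he.rn fun i => i + 1) hp1 hp2 hX
    refine (Dc.sub (r := fun w => b.u (fst (q fun i => w (i + 1))))
      (C := fun w => Cq b p q fun i => w (i + 1)) hL hD hs1 h2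
      fun u _ _ h => ⟨cs_cr (hb.cs _ h.1.1), h.2, trivial⟩).cg fun u _ _ _ G _ => ?_
    rw [evs_gs (fun _ h => h)]
  · exact TN.mem hN hs1 hu
  · exact dc_exy hL hD hr1 ((TN.snd hN hq).rn fun i => i + 1) (he.rn fun i => i + 1) hX

/-- (R1) -/
theorem dn_r3 (hL : Lb) (hD : D.Ok) (hb : b.Ok D κ) (ht : TN D.N t) (he : TN D.N e)
    (hp : TN D.N p) (hq : TN D.N q) : DN D.N (fun u => Cr D (fun u => b.u (fst (q u))) u ∧
      Cq b p q u ∧ ∀ G, D.Gn (b.u (fst (q u))) G → ∀ X, RR D (b.u (fst (p u))) G X →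
        ∀ y, RR D (b.u (fst (p u))) G y → b.Kb D (Ft b (t u)) (e u).rank (fst (p u)) (snd (p u))
          (gs G (b.u (fst (p u)))) X y → b.Kil D (fst (q u)) G X y) := by
  have hN := hD.zfm
  have hr := TN.bu hD hb (TN.fst hN hq)
  have hs := TN.bu hD hb (TN.fst hN hp)
  refine Dc.dnG hL hD hr (dn_cq hD hb hp hq) ?_
  refine Dc.allR' (Z := fun u G X => ∀ y, RR D (b.u (fst (p u))) G y →
    b.Kb D (Ft b (t u)) (e u).rank (fst (p u)) (snd (p u)) (gs G (b.u (fst (p u)))) X y →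
      b.Kil D (fst (q u)) G X y) hL hD hr hs
    (fun hX => ?_) fun u _ _ h => cq_sub hb h
  refine Dc.allR' (C := fun w => Cq b p q fun i => w (i + 1))
    (r := fun w => b.u (fst (q fun i => w (i + 1))))
    (s := fun w => b.u (fst (p fun i => w (i + 1))))
    (Z := fun w G y => b.Kb D (Ft b (t fun i => w (i + 1))) (e fun i => w (i + 1)).rank
      (fst (p fun i => w (i + 1))) (snd (p fun i => w (i + 1)))
        (gs G (b.u (fst (p fun i => w (i + 1)))))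
          (evs G (b.u (fst (p fun i => w (i + 1)))) (w 0)) y →
      b.Kil D (fst (q fun i => w (i + 1))) G
        (evs G (b.u (fst (p fun i => w (i + 1)))) (w 0)) y) hL hD
    (hr.rn fun i => i + 1) (hs.rn fun i => i + 1)
    (fun hy => ?_) fun u _ _ h => cq_sub hb h
  have hr2 := hr.rn fun i => i + 2
  have hs2 := hs.rn fun i => i + 2
  have hX2 := hX.rn fun i => i + 1
  have hp1 := (TN.fst hN hp).rn fun i => i + 2
  have hp2 := (TN.snd hN hp).rn fun i => i + 2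
  refine Dc.imp hL hD hr2 ?_ (Dc.kil hL hD hb ((TN.fst hN hq).rn fun i => i + 2) hX2 hy)
  have h2 : Dc D (fun _ => True) (fun w => b.u (fst (p fun i => w (i + 2)))) (fun w G =>
      b.Kb D (Ft b (t fun i => w (i + 2))) (e fun i => w (i + 2)).rank
        (fst (p fun i => w (i + 2))) (snd (p fun i => w (i + 2))) G
        (evs G (b.u (fst (p fun i => w (i + 2)))) (w 1))
        (evs G (b.u (fst (p fun i => w (i + 2)))) (w 0))) :=
    Dc.kb hL hD hb (ht.rn fun i => i + 2) (he.rn fun i => i + 2) hp1 hp2 hX2 hy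
  refine (Dc.sub (r := fun w => b.u (fst (q fun i => w (i + 2))))
    (C := fun w => Cq b p q fun i => w (i + 2)) hL hD hs2 h2
    fun u _ _ h => ⟨cs_cr (hb.cs _ h.1.1), h.2, trivial⟩).cg fun u _ _ _ G _ => ?_
  rw [evs_gs (fun _ h => h), evs_gs (fun _ h => h)]

/-- a relation which is definable is given by a set -/
theorem inn (hD : D.Ok) {A : V} (hκ : D.N κ) (hA : D.N A) {S : (ℕ → V) → Prop} (hS : DN D.N S)
    {R : V → V → V → Prop} (h : ∀ ξ ∈ κ, ∀ p ∈ A, ∀ q ∈ A,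
      (S (cons (ZFSet.pair ξ (ZFSet.pair p q)) fun _ => κ) ↔ R ξ p q)) : Inn D κ A R := by
  have hN := hD.zfm
  have hu : In D.N (fun _ => κ) := fun _ => hκ
  have hM : D.N (κ.prod (A.prod A)) :=
    TN.mem hN (TN.prod hN (TN.cst hκ) (TN.prod hN (TN.cst hA) (TN.cst hA))) hu
  refine ⟨_, hS.sepN hN hM hu, fun ξ hξ p hp q hq => ?_⟩
  rw [ZFSet.mem_sep, ZFSet.pair_mem_prod, ZFSet.pair_mem_prod, ← h ξ hξ p hp q hq]
  exact ⟨fun h => h.2, fun h => ⟨⟨hξ, hp, hq⟩, h⟩⟩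

end NTaux

open NTaux

/-- NT -/
theorem pf_NT (hL : Lb) (hRH : T_RH) (hIW : T_IW) : T_NT := by
  intro D κ b hA hb
  have hD := hA.ok
  have hN := hD.zfm
  have hκN : D.N κ := hD.nH hA.kH
  have hu0 : In D.N (fun _ => κ) := fun _ => hκN
  obtain ⟨r1, _, _, _, _, r6⟩ := hRH D κ b hA hb
  set rs := resS κ fun ξ => (b.rho D ξ).toZFSet with hrs
  have ars : ∀ ξ ∈ κ, app rs ξ = (b.rho D ξ).toZFSet := fun ξ hξ => app_resS hξ
  have v0 := TN.var (N := D.N) hN 0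
  have hR : D.N (imS κ fun ξ => app rs ξ) := by
    have h1 := TN.mem hN (TN.rg hN (TN.cst r6)) hu0
    have e : (imS κ fun ξ => app rs ξ) = rg rs := by
      ext z
      rw [mem_imS, mem_rg]
      constructor
      · rintro ⟨ξ, hξ, h2⟩
        have h3 : z = app rs ξ := by first | exact h2 | exact h2.symm
        refine ⟨ξ, ?_⟩
        rw [h3, ars ξ hξ, hrs, mem_resS]
        exact ⟨ξ, hξ, rfl⟩
      · rintro ⟨x, hx⟩
        have hx' := hx
        rw [hrs, mem_resS] at hx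
        obtain ⟨ξ, hξ, h2⟩ := hx
        have h2' : ZFSet.pair x z = ZFSet.pair ξ (b.rho D ξ).toZFSet := by
          first | exact h2 | exact h2.symm
        obtain ⟨rfl, rfl⟩ := ZFSet.pair_inj.1 h2'
        exact ⟨_, hξ, ars _ hξ⟩
    rw [e]
    exact h1
  set θ : Ordinal.{0} := (imS κ fun ξ => app rs ξ).rank with hθ
  have hθN : D.N θ.toZFSet := TN.mem hN (TN.rkS hN (TN.cst hR)) hu0
  have hlt : ∀ ξ ∈ κ, b.rho D ξ < θ := by
    intro ξ hξ
    have h1 : (b.rho D ξ).toZFSet ∈ imS κ fun ξ => app rs ξ := by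
      rw [mem_imS]
      exact ⟨ξ, hξ, ars ξ hξ⟩
    have h2 := ZFSet.rank_lt_of_mem h1
    rw [Ordinal.rank_toZFSet] at h2
    exact h2
  obtain ⟨A0, hA0, hA1⟩ := (hIW D κ b hA hb θ hθN).1
  -- the table
  have hg : TN D.N (fun w : ℕ → V => (rg A0).sep fun z => ZFSet.pair (w 0) z ∈ A0) :=
    TN.sep (S := fun w => ZFSet.pair (w 1) (w 0) ∈ A0) hN
      (DN.mem hN (TN.pair hN (TN.var hN 1) v0) (TN.cst hA0)) (TN.rg hN (TN.cst hA0))
  set t := resS θ.toZFSet fun σ => (rg A0).sep fun z => ZFSet.pair σ z ∈ A0 with htd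
  have htN : D.N t := TN.mem hN (TN.resS (F := fun _ => θ.toZFSet) hN (TN.cst hθN) hg) hu0
  have ht : ∀ σ < θ, ∀ B h, Ft b t σ B h ↔ b.Wd D σ B h := by
    intro σ hσ B h
    have e : app t σ.toZFSet = (rg A0).sep fun z => ZFSet.pair σ.toZFSet z ∈ A0 :=
      app_resS (toZFSet_mem.2 hσ)
    unfold Ft
    rw [e, ZFSet.mem_sep]
    constructor
    · rintro ⟨_, _, h3⟩
      obtain ⟨σ', _, B', h', h4, h5⟩ := (hA1 _).1 h3
      obtain ⟨h6, h7⟩ := ZFSet.pair_inj.1 h5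
      obtain ⟨rfl, rfl⟩ := ZFSet.pair_inj.1 h7
      have h8 : σ = σ' := Ordinal.toZFSet_injective h6
      subst h8
      exact h4
    · intro h3
      have h4 : ZFSet.pair σ.toZFSet (ZFSet.pair B h) ∈ A0 := (hA1 _).2 ⟨σ, hσ, B, h, h3, rfl⟩
      exact ⟨(wd_wo h3).o.o, mem_rg.2 ⟨_, h4⟩, h4⟩
  -- the set of the worlds
  have hwr : ∀ ξ ∈ κ, ∀ p, (b.Wr D ξ p ↔ ZFSet.pair (app rs ξ) p ∈ A0) := by
    intro ξ hξ p
    rw [ars ξ hξ]
    constructor
    · intro h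
      exact (hA1 _).2 ⟨_, hlt ξ hξ, _, _, h.w, by rw [← h.pr]⟩
    · intro h
      obtain ⟨σ', _, B', h', h4, h5⟩ := (hA1 _).1 h
      obtain ⟨h6, rfl⟩ := ZFSet.pair_inj.1 h5
      have h8 : b.rho D ξ = σ' := Ordinal.toZFSet_injective h6
      subst h8
      exact ⟨by rw [fst_pair, snd_pair], by rw [fst_pair, snd_pair]; exact h4⟩
  have trs : ∀ {f : (ℕ → V) → V}, TN D.N f → TN D.N (fun w => app rs (f w)) :=
    fun h => TN.app hN (TN.cst r6) h
  have hS1 : DN D.N (fun w => ∃ ξ ∈ κ, ZFSet.pair (app rs ξ) (w 0) ∈ A0) :=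
    DN.bex (F := fun _ => κ) (S := fun w => ZFSet.pair (app rs (w 0)) (w 1) ∈ A0) hN (TN.cst hκN)
      (DN.mem hN (TN.pair hN (trs v0) (TN.var hN 1)) (TN.cst hA0))
  have hAN : D.N ((rg A0).sep fun p => ∃ ξ ∈ κ, ZFSet.pair (app rs ξ) p ∈ A0) :=
    hS1.sepN hN (TN.mem hN (TN.rg hN (TN.cst hA0)) hu0) hu0
  set A := (rg A0).sep fun p => ∃ ξ ∈ κ, ZFSet.pair (app rs ξ) p ∈ A0 with hAd
  have hAm : ∀ p, p ∈ A ↔ ∃ ξ ∈ κ, b.Wr D ξ p := by
    intro p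
    rw [hAd, ZFSet.mem_sep]
    constructor
    · rintro ⟨_, ξ, hξ, h⟩
      exact ⟨ξ, hξ, (hwr ξ hξ p).2 h⟩
    · rintro ⟨ξ, hξ, h⟩
      have h2 := (hwr ξ hξ p).1 h
      exact ⟨mem_rg.2 ⟨_, h2⟩, ξ, hξ, h2⟩
  have hob : ∀ p ∈ A, fst p ∈ b.Ob := by
    intro p hp
    obtain ⟨ξ, _, h⟩ := (hAm p).1 hp
    exact (wd_wo h.w).o.o
  -- terms
  have tx := trs (TN.fst hN v0)
  have tp := TN.fst hN (TN.snd hN v0)
  have tq := TN.snd hN (TN.snd hN v0)
  have tt : TN D.N (fun _ : ℕ → V => t) := TN.cst htN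
  have hcr : ∀ z, fst (snd (snd z)) ∈ b.Ob → Cr D (fun w => b.u (fst (snd (snd (w 0)))))
      (cons z fun _ => κ) := fun z h => cs_cr (hb.cs _ h)
  refine ⟨A, hAN, hAm, ?_, ?_, ?_, ?_, ?_, ?_⟩
  · refine inn hD hκN hAN (DN.mem hN (TN.pair hN tx tq) (TN.cst hA0)) ?_
    intro ξ hξ p hp q hq
    simp only [cons_zero, fst_pair, snd_pair]
    exact (hwr ξ hξ q).symm
  · refine inn hD hκN hAN (DN.lw hL hD hb tx (TN.fst hN tp) (TN.snd hN tp) (TN.fst hN tq)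
      (TN.snd hN tq)) ?_
    intro ξ hξ p hp q hq
    simp only [cons_zero, fst_pair, snd_pair, ars ξ hξ, Ordinal.rank_toZFSet]
    rfl
  · refine inn hD hκN hAN (dn_r1 hL hD hb tx tp tq) ?_
    intro ξ hξ p hp q hq
    have hc := hcr (ZFSet.pair ξ (ZFSet.pair p q)) (by simp only [snd_pair]; exact hob q hq)
    simp only [cons_zero, fst_pair, snd_pair, ars ξ hξ, Cp, hob p hp, hob q hq, true_and]
    have hcq := (hb.cs _ (hob q hq)).c
    constructor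
    · rintro ⟨_, h⟩ G hG X y hX hy
      exact h G hG X ((rr_int hL hcq hG).2 hX) y ((rr_int hL hcq hG).2 hy)
    · intro h
      exact ⟨hc, fun G hG X hX y hy => h G hG X y ((rr_int hL hcq hG).1 hX)
        ((rr_int hL hcq hG).1 hy)⟩
  · have h1 := dn_r2 hL hD hb tt tx tp tq
    have h2 : DN D.N (fun w => ¬ b.u (fst (fst (snd (w 0)))) ⊆ b.u (fst (snd (snd (w 0))))) :=
      (DN.subset hN (TN.bu hD hb (TN.fst hN tp)) (TN.bu hD hb (TN.fst hN tq))).not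
    refine inn hD hκN hAN (h2.or hN h1) ?_
    intro ξ hξ p hp q hq
    have hc := hcr (ZFSet.pair ξ (ZFSet.pair p q)) (by simp only [snd_pair]; exact hob q hq)
    simp only [cons_zero, fst_pair, snd_pair, ars ξ hξ, Cp, Cq, hob p hp, hob q hq, true_and,
      Ordinal.rank_toZFSet, nn_cg (ht _ (hlt ξ hξ))]
    have hcq := (hb.cs _ (hob q hq)).c
    constructor
    · rintro (h | ⟨_, _, h⟩)
      · intro G hG X _ _ hNn
        obtain ⟨B', h', G', y, hE, _⟩ := hNn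
        exact absurd (ew_sub hL hD hb hcq hG hE) h
      · intro G hG X hX h3 h4 h5
        exact h G hG X hX h3 h4 h5
    · intro h
      by_cases hs : b.u (fst p) ⊆ b.u (fst q)
      · exact Or.inr ⟨hc, hs, fun G hG X hX h3 h4 h5 => h G hG X hX h3 h4 h5⟩
      · exact Or.inl hs
  · have h1 := dn_r3 hL hD hb tt tx tp tq
    have h2 : DN D.N (fun w => ¬ b.u (fst (fst (snd (w 0)))) ⊆ b.u (fst (snd (snd (w 0))))) :=
      (DN.subset hN (TN.bu hD hb (TN.fst hN tp)) (TN.bu hD hb (TN.fst hN tq))).not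
    refine inn hD hκN hAN (h2.or hN h1) ?_
    intro ξ hξ p hp q hq
    have hc := hcr (ZFSet.pair ξ (ZFSet.pair p q)) (by simp only [snd_pair]; exact hob q hq)
    simp only [cons_zero, fst_pair, snd_pair, ars ξ hξ, Cp, Cq, hob p hp, hob q hq, true_and,
      Ordinal.rank_toZFSet, kb_cg (ht _ (hlt ξ hξ))]
    have hcq := (hb.cs _ (hob q hq)).c
    constructor
    · rintro (h | ⟨_, _, h⟩)
      · intro G hG X y _ _ hK
        obtain ⟨B', h', G', hE, _⟩ := hK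
        exact absurd (ew_sub hL hD hb hcq hG hE) h
      · intro G hG X y hX hy h3
        exact h G hG X hX y hy h3
    · intro h
      by_cases hs : b.u (fst p) ⊆ b.u (fst q)
      · exact Or.inr ⟨hc, hs, fun G hG X hX y hy h3 => h G hG X y hX hy h3⟩
      · exact Or.inl hs
  · refine inn hD hκN hAN (dn_r4 hL hD hb tp tq) ?_
    intro ξ hξ p hp q hq
    have hc := hcr (ZFSet.pair ξ (ZFSet.pair p q)) (by simp only [snd_pair]; exact hob q hq)
    simp only [cons_zero, fst_pair, snd_pair, Cp, hob p hp, hob q hq, true_and]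
    have hcq := (hb.cs _ (hob q hq)).c
    have hqN : D.N (b.u (fst q)) := hD.nH (hb.cs _ (hob q hq)).h
    constructor
    · rintro ⟨_, h⟩ G hG X y hX hy h3
      obtain ⟨j, _, h4, h5⟩ := h G hG X ((rr_int hL hcq hG).2 hX) y ((rr_int hL hcq hG).2 hy) h3
      exact ⟨j, h4.1, h4.2, h5⟩
    · intro h
      refine ⟨hc, fun G hG X hX y hy h3 => ?_⟩
      obtain ⟨j, h4, h5, h6⟩ := h G hG X y ((rr_int hL hcq hG).1 hX) ((rr_int hL hcq hG).1 hy) h3
      exact ⟨j, hN.trans _ hqN _ h4, ⟨h4, h5⟩, h6⟩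

end SE.UZ
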